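import Pool.Agent.Helper39.SEY.GrBasic

/-!
# FRAME module FR-2: graphs of `SC` graphic matroids; the graphs `K4`, `K33`

`exists_IsGr`: `M.R = {cob S h t π}`, `V` finite. Take `U := {v | ∃ e ∈ S, h e = v ∨ t e = v}` (classical decidable
equality on `V`). No loops: if `h e = t e` then all rows vanish at `e`, so `ind {e} ∈ M.Z`, and `SC_cycle` gives `a, b` with
`ind {e} a = 1 = ind {e} b`, so `a = b = e`, and `¬ Ser e e`, absurd. `conn`: let `cob π = 0`, `π u ≠ π v`, `u, v ∈ U`. Let `X =
{e ∈ S | π (h e) = 1}` (`π (h e) = π (t e)` for all `e ∈ S`). `X` and `S \ X` are nonempty (an edge at `u`, an edge at `v`). For every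
row `f = cob ρ`: `mask X f = cob (ρ * π)` is a row. So `M.lam X = 0` (for example: `M.lam_add_dR X`; every row is the sum of a row
in `X` and a row in `S \ X`, so `rk ≤ dR X + dR (S \ X)`), so `X = ∅` or `X = S` by `SC_lam_zero`, contradiction.
The helper lemma `lam_eq_zero_of_mask` states this.

`K4_gr`, `K33_gr`: `ofRows` has all of `Fin k` as ground set and row space `span (range (grRows ends))`.
`f ∈ span (range (grRows ends)) ↔ ∃ c, ∑ i, c i • grRows ends i = f` (`Submodule.mem_span_range_iff_exists_fun`) and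
`∑ i, c i * grRows ends i e = c (ends e).1 + c (ends e).2` (`grRows_sum`). `ends`, `ne`: `decide`. `conn`: evaluate `cob = 0` at
the edges (all vertices of K33 are joined to vertex 3 or via 0 to it), or `decide` after generalising.
-/

set_option autoImplicit false
set_option linter.unusedSectionVars false

namespace SEY

open Finset

variable {E : Type} [Fintype E] [DecidableEq E]
variable {V : Type} [Fintype V] [DecidableEq V]

/-- If the restrictions of all rows to `X` are rows then `X` is a union of components. -/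
theorem lam_eq_zero_of_mask {M : BM E} {X : Finset E} (hX : X ⊆ M.S)
    (hm : ∀ f ∈ M.R, mask X f ∈ M.R) : M.lam X = 0 := by
  have h1 : M.R.map (mask X) ≤ M.R := by
    rintro _ ⟨f, hf, rfl⟩
    exact hm f hf
  have h2 : M.R.map (mask (M.S \ X)) ≤ M.R := by
    rintro _ ⟨f, hf, rfl⟩
    have h3 : mask (M.S \ X) f = f - mask X f := by
      funext e
      rw [Pi.sub_apply]
      by_cases he : e ∈ X
      · rw [mask_mem he, mask_notMem (fun h => (mem_sdiff.1 h).2 he), sub_self]
      · rw [mask_notMem he, sub_zero]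
        by_cases heS : e ∈ M.S
        · rw [mask_mem (mem_sdiff.2 ⟨heS, he⟩)]
        · rw [mask_notMem (fun h => heS (mem_sdiff.1 h).1), M.supp f hf e heS]
    rw [h3]
    exact M.R.sub_mem hf (hm f hf)
  have h3 : Disjoint (M.R.map (mask X)) (M.R.map (mask (M.S \ X))) := by
    rw [Submodule.disjoint_def]
    rintro x ⟨f, hf, rfl⟩ ⟨g, hg, hfg⟩
    funext e
    by_cases he : e ∈ X
    · rw [← congrFun hfg e, mask_notMem (fun h => (mem_sdiff.1 h).2 he)]; rfl
    · rw [mask_notMem he]; rfl
  have h4 := Submodule.finrank_sup_add_finrank_inf_eq (M.R.map (mask X))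
    (M.R.map (mask (M.S \ X)))
  rw [h3.eq_bot, finrank_bot, add_zero] at h4
  have h5 := Submodule.finrank_mono (sup_le h1 h2)
  have h6 := M.lam_add_rk X
  unfold BM.r BM.rk at h6
  omega

/-- The graph of an `SC` matroid whose rows are the coboundaries. -/
theorem isGr_of_rows {M : BM E} (hsc : M.SC) {h t : E → V}
    (hr : ∀ f, f ∈ M.R ↔ ∃ π : V → ZMod 2, f = cob M.S h t π) :
    IsGr M (univ.filter fun v => ∃ x ∈ M.S, Inc h t v x) h t := by
  refine ⟨fun x hx => ⟨?_, ?_, ?_⟩, hr, ?_, ?_⟩
  · rw [mem_filter]; exact ⟨mem_univ _, x, hx, Or.inl rfl⟩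
  · rw [mem_filter]; exact ⟨mem_univ _, x, hx, Or.inr rfl⟩
  · intro hxx
    have h1 : (ind {x} : E → ZMod 2) ∈ M.Z := by
      refine ⟨fun y hy => ind_notMem fun h2 => hy ?_, fun f hf => ?_⟩
      · rw [mem_singleton] at h2; rw [h2]; exact hx
      · obtain ⟨π, rfl⟩ := (hr f).1 hf
        rw [dot_ind, sum_singleton, cob_mem hx, hxx]
        exact z2_add_self _
    obtain ⟨a, b, ha, hb, hab⟩ := SC_cycle M hsc _ h1 (fun h2 => by
      have := congrFun h2 x
      rw [ind_mem (mem_singleton_self x)] at this
      exact one_ne_zero this)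
    have ha' : a = x := by
      by_contra hne
      rw [ind_notMem (by simpa using hne)] at ha
      exact zero_ne_one ha
    have hb' : b = x := by
      by_contra hne
      rw [ind_notMem (by simpa using hne)] at hb
      exact zero_ne_one hb
    subst ha'
    subst hb'
    exact hab fun z _ => rfl
  · intro π hπ u hu v hv
    by_contra huv
    rw [mem_filter] at hu hv
    obtain ⟨-, x, hx, hux⟩ := hu
    obtain ⟨-, y, hy, hvy⟩ := hv
    have hpar : ∀ z ∈ M.S, π (h z) = π (t z) := by
      intro z hz
      have := congrFun hπ z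
      rw [cob_mem hz] at this
      exact z2_add_eq_zero.1 this
    have hinc : ∀ z ∈ M.S, ∀ w, Inc h t w z → π (h z) = π w := by
      rintro z hz w (rfl | rfl)
      · rfl
      · exact hpar z hz
    set X : Finset E := M.S.filter fun z => π (h z) = 1 with hX
    have hl : M.lam X = 0 := by
      refine lam_eq_zero_of_mask (filter_subset _ _) fun f hf => ?_
      obtain ⟨ρ, rfl⟩ := (hr f).1 hf
      refine (hr _).2 ⟨fun w => ρ w * π w, ?_⟩
      funext z
      by_cases hz : z ∈ M.S
      · rw [cob_mem hz, ← hpar z hz]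
        by_cases hzX : z ∈ X
        · rw [mask_mem hzX, cob_mem hz]
          have := (mem_filter.1 hzX).2
          rw [this]; ring
        · rw [mask_notMem hzX]
          have h0 : π (h z) = 0 := by
            by_contra h0
            exact hzX (mem_filter.2 ⟨hz, z2_ne h0⟩)
          rw [h0]; ring
      · rw [mask_notMem (fun h1 => hz (mem_filter.1 h1).1), cob_notMem hz]
    have hxX : π u = 1 → x ∈ X := fun h1 => mem_filter.2 ⟨hx, by rw [hinc x hx u hux, h1]⟩
    have hyX : π v = 1 → y ∈ X := fun h1 => mem_filter.2 ⟨hy, by rw [hinc y hy v hvy, h1]⟩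
    have hxX' : π u = 0 → x ∉ X := fun h1 h2 => by
      have := (mem_filter.1 h2).2
      rw [hinc x hx u hux, h1] at this
      exact zero_ne_one this
    have hyX' : π v = 0 → y ∉ X := fun h1 h2 => by
      have := (mem_filter.1 h2).2
      rw [hinc y hy v hvy, h1] at this
      exact zero_ne_one this
    rcases SC_lam_zero M hsc X (filter_subset _ _) hl with h1 | h1
    · rw [h1] at hxX hyX
      rcases z2_cases (π u) with h2 | h2 <;> rcases z2_cases (π v) with h3 | h3
      · exact huv (h2.trans h3.symm)
      · exact absurd (hyX h3) (notMem_empty _)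
      · exact absurd (hxX h2) (notMem_empty _)
      · exact absurd (hxX h2) (notMem_empty _)
    · rw [h1] at hxX' hyX'
      rcases z2_cases (π u) with h2 | h2 <;> rcases z2_cases (π v) with h3 | h3
      · exact hxX' h2 hx
      · exact hxX' h2 hx
      · exact hyX' h3 hy
      · exact huv (h2.trans h3.symm)
  · intro v hv
    obtain ⟨-, x, hx, hvx⟩ := mem_filter.1 hv
    exact ⟨x, hx, hvx⟩

/-- An `SC` graphic matroid is the matroid of a connected loopless graph. -/
theorem exists_IsGr {M : BM E} (hsc : M.SC) (h : Graphic M) :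
    ∃ (V : Type) (_ : Fintype V) (_ : DecidableEq V) (U : Finset V) (hd tl : E → V),
      IsGr M U hd tl := by
  obtain ⟨V, hV, hd, tl, hr⟩ := h
  classical
  exact ⟨V, hV, inferInstance, _, hd, tl, isGr_of_rows hsc hr⟩

theorem grRows_sum {n k : ℕ} (ends : Fin k → Fin n × Fin n) (c : Fin n → ZMod 2) (e : Fin k) :
    ∑ i, c i * grRows ends i e = c (ends e).1 + c (ends e).2 := by
  unfold grRows
  simp only [mul_add, mul_ite, mul_one, mul_zero, sum_add_distrib, sum_ite_eq, mem_univ, if_true]

theorem ofRows_gr {n k : ℕ} (ends : Fin k → Fin n × Fin n) (f : Fin k → ZMod 2) :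
    f ∈ (ofRows (grRows ends)).R ↔ ∃ π : Fin n → ZMod 2,
      f = cob (ofRows (grRows ends)).S (fun j => (ends j).1) (fun j => (ends j).2) π := by
  have hS : (ofRows (grRows ends)).S = univ := rfl
  have hR : (ofRows (grRows ends)).R = Submodule.span (ZMod 2) (Set.range (grRows ends)) := rfl
  rw [hR, hS, Submodule.mem_span_range_iff_exists_fun]
  constructor
  · rintro ⟨c, rfl⟩
    refine ⟨c, ?_⟩
    funext e
    rw [cob_mem (mem_univ e), ← grRows_sum, Finset.sum_apply]
    rfl
  · rintro ⟨c, rfl⟩
    refine ⟨c, ?_⟩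
    funext e
    rw [cob_mem (mem_univ e), ← grRows_sum, Finset.sum_apply]
    rfl

theorem K4_gr : IsGr (ofRows K4) Finset.univ (fun j => (K4e j).1) (fun j => (K4e j).2) := by
  refine ⟨fun e _ => ⟨mem_univ _, mem_univ _, ?_⟩, ofRows_gr K4e, ?_, ?_⟩
  · revert e; decide
  · intro π hπ u _ v _
    have h1 : ∀ j, π (K4e j).1 = π (K4e j).2 := fun j => by
      have := congrFun hπ j
      rw [cob_mem (show j ∈ (ofRows K4).S from mem_univ j)] at this
      exact z2_add_eq_zero.1 this
    have h0 : ∀ v, π v = π 0 := by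
      intro v
      fin_cases v
      · rfl
      · exact (h1 0).symm
      · exact (h1 1).symm
      · exact (h1 2).symm
    rw [h0 u, h0 v]
  · intro v _
    have : ∃ e : Fin 6, (K4e e).1 = v ∨ (K4e e).2 = v := by revert v; decide
    obtain ⟨e, he⟩ := this
    exact ⟨e, mem_univ _, he⟩

theorem K33_gr : IsGr (ofRows K33) Finset.univ (fun j => (K33e j).1) (fun j => (K33e j).2) := by
  refine ⟨fun e _ => ⟨mem_univ _, mem_univ _, ?_⟩, ofRows_gr K33e, ?_, ?_⟩
  · revert e; decide
  · intro π hπ u _ v _
    have h1 : ∀ j, π (K33e j).1 = π (K33e j).2 := fun j => by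
      have := congrFun hπ j
      rw [cob_mem (show j ∈ (ofRows K33).S from mem_univ j)] at this
      exact z2_add_eq_zero.1 this
    have h0 : ∀ v, π v = π 0 := by
      intro v
      fin_cases v
      · rfl
      · exact (h1 3).trans (h1 0).symm
      · exact (h1 6).trans (h1 0).symm
      · exact (h1 0).symm
      · exact (h1 1).symm
      · exact (h1 2).symm
    rw [h0 u, h0 v]
  · intro v _
    have : ∃ e : Fin 9, (K33e e).1 = v ∨ (K33e e).2 = v := by revert v; decide
    obtain ⟨e, he⟩ := this
    exact ⟨e, mem_univ _, he⟩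

end SEY
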