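import Pool.Agent.Helper39.SEY.FrUniq
import Pool.Agent.Helper39.SEY.FrExists

/-!
# FRAME: (CRIT)
-/

set_option autoImplicit false
set_option linter.unusedSectionVars false

namespace SEY

open Finset

variable {E : Type} [Fintype E] [DecidableEq E]
variable {V : Type} [Fintype V] [DecidableEq V]

/-- (CRIT). -/
theorem crit {M : BM E} {e : E} {U : Finset V} {h t : E → V} {T : Finset V}
    (hg : IsGraft M e U h t T) (hsc : (M.del {e}).SC) (h2 : (M.del {e}).Two)
    (hG : Graphic M) :
    ∃ SS : Finset V, SS ⊆ T ∧ (∀ s ∈ SS, (star (M.S \ {e}) h t s).card = 2) ∧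
      (swT (M.S \ {e}) h t U T SS).card ≤ 2 := by
  obtain ⟨V', _, h', t', hr⟩ := hG
  classical
  have hrN : ∀ f, f ∈ (M.del {e}).R ↔ ∃ π : V' → ZMod 2, f = cob (M.del {e}).S h' t' π := by
    intro f
    rw [BM.mem_del, BM.del_S]
    constructor
    · rintro ⟨g, hg, rfl⟩
      obtain ⟨π, rfl⟩ := (hr g).1 hg
      exact ⟨π, mask_cob _ _ _ _ _ sdiff_subset⟩
    · rintro ⟨π, rfl⟩
      exact ⟨cob M.S h' t' π, (hr _).2 ⟨π, rfl⟩, mask_cob _ _ _ _ _ sdiff_subset⟩
  have hgN' := isGr_of_rows hsc hrN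
  have hgN := hg.gr
  obtain ⟨φ, SS, h3, h4, h5, h6, h7, h8⟩ := uniqSw _ rfl hsc h2 hgN hgN'
  refine ⟨SS.filter (· ∈ T), fun s hs => (mem_filter.1 hs).2,
    fun s hs => h7 s (mem_filter.1 hs).1, ?_⟩
  have key : ∀ v ∈ swT (M.S \ {e}) h t U T (SS.filter (· ∈ T)), φ v = h' e ∨ φ v = t' e := by
    intro v hv
    rw [swT, mem_filter] at hv
    obtain ⟨hvU, hodd⟩ := hv
    by_contra hne
    push Not at hne
    obtain ⟨π, hπ⟩ := (hg.rows _).1 ((hr _).2 ⟨indV {φ v}, rfl⟩)
    -- the value at `e`
    have he0 : ∑ w ∈ T, π w = 0 := by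
      have h9 := congrFun hπ e
      rw [if_pos rfl] at h9
      rw [← h9]
      exact cob_indV_disj fun w hw hwv => by
        rw [mem_singleton] at hwv
        rcases hw with rfl | rfl
        · exact hne.1 hwv.symm
        · exact hne.2 hwv.symm
    set ρ : V → ZMod 2 := indV {v} + ∑ s ∈ SS,
      (((M.S \ {e}).filter (fun x => Jn h t x s v)).card : ZMod 2) • indV {s} with hρ
    have hcob : cob (M.S \ {e}) h t π = cob (M.S \ {e}) h t ρ := by
      have h10 : cob (M.S \ {e}) h t ρ = ind (star (M.S \ {e}) h' t' (φ v)) := by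
        have h11 := h8 v hvU
        rw [BM.del_S] at h11
        rw [h11, hρ, ← cobL_apply, map_add, map_sum]
        simp only [map_smul, cobL_apply]
        have h12 : ∀ w, cob (M.S \ {e}) h t (indV {w}) = ind (star (M.S \ {e}) h t w) :=
          fun w => hgN.cob_singleton w
        rw [h12]
        congr 1
        exact sum_congr rfl fun s _ => by rw [h12]
      have h13 : cob (M.S \ {e}) h' t' (indV {φ v}) = ind (star (M.S \ {e}) h' t' (φ v)) :=
        hgN'.cob_singleton (φ v)
      rw [h10, ← h13]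
      funext x
      by_cases hx : x ∈ M.S \ {e}
      · have h14 := congrFun hπ x
        have hxe : x ≠ e := by
          rw [mem_sdiff, mem_singleton] at hx
          exact hx.2
        rw [if_neg hxe, cob_mem (mem_sdiff.1 hx).1] at h14
        rw [← h14, cob_mem hx]
      · rw [cob_notMem hx, cob_notMem hx]
    have hconst : ∃ c, ∀ w ∈ U, π w = ρ w + c := by
      have h15 : cob (M.S \ {e}) h t (π + ρ) = 0 := by
        rw [cob_add, hcob]; exact z2_vec_add_self _
      refine ⟨(π + ρ) v, fun w hw => ?_⟩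
      have h16 := hgN.conn _ h15 v hvU w hw
      rw [h16, Pi.add_apply, add_comm (π w), ← add_assoc, z2_add_self, zero_add]
    obtain ⟨c, hc⟩ := hconst
    have hsum : ∑ w ∈ T, π w = ∑ w ∈ T, ρ w := by
      rw [sum_congr rfl fun w hw => hc w (hg.sub hw), sum_add_distrib, sum_const, nsmul_eq_mul,
        (ZMod.natCast_eq_zero_iff_even).2 hg.even, zero_mul, add_zero]
    have hsumρ : ∑ w ∈ T, ρ w = (((if v ∈ T then 1 else 0) + ∑ s ∈ SS.filter (· ∈ T),
        ((M.S \ {e}).filter (fun x => Jn h t x s v)).card : ℕ) : ZMod 2) := by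
      have hi : ∀ s : V, ∑ w ∈ T, indV {s} w = if s ∈ T then (1 : ZMod 2) else 0 := by
        intro s
        unfold indV
        simp only [mem_singleton]
        rw [sum_ite_eq' T s]
      rw [hρ]
      simp only [Pi.add_apply, Finset.sum_apply, Pi.smul_apply, smul_eq_mul]
      rw [sum_add_distrib, hi, sum_comm]
      push_cast
      congr 1
      rw [sum_filter]
      refine sum_congr rfl fun s _ => ?_
      rw [← mul_sum, hi]
      split_ifs <;> simp
    rw [hsum, hsumρ] at he0
    have h17 := (ZMod.natCast_eq_zero_iff_even).1 he0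
    exact (Nat.not_even_iff_odd.2 hodd) h17
  have hinj : Set.InjOn φ (swT (M.S \ {e}) h t U T (SS.filter (· ∈ T)) : Set V) := by
    intro v hv w hw hvw
    have hv' := mem_filter.1 (mem_coe.1 hv)
    have hw' := mem_filter.1 (mem_coe.1 hw)
    exact h4 v hv'.1 w hw'.1 hvw
  rw [← card_image_of_injOn hinj]
  refine (card_le_card (t := {h' e, t' e}) fun x hx => ?_).trans card_le_two
  obtain ⟨v, hv, rfl⟩ := mem_image.1 hx
  rw [mem_insert, mem_singleton]
  exact key v hv

end SEY
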