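import Pool.Agent.Helper39.SEY.FrSep

/-!
# FRAME module FR-5: series pairs are the stars of vertices of degree two

`Ser` is an equivalence relation. `ind {a, b} ∈ M.R ↔ Ser a b` for `a ≠ b` in `M.S` (`mem_R_iff`, `dot (ind {a,b}) z = z a + z b`).

`IsGr.star2` (←): `ind (star s) ∈ M.R` (`IsGr.star_mem0`). (→): `ind {a, b} = cob (indV X)`, `X ⊆ U` (`IsGr.exists_indV`), `X` nonempty and
`X ≠ U` (the row is not zero). Let `A = {e ∈ S | h e ∈ X ∧ t e ∈ X}` and `A' = {e ∈ S | h e ∉ X ∧ t e ∉ X}`; `S` is the disjoint union of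
`A`, `A'`, `{a, b}` (the edges with exactly one end in `X` are `a` and `b`). Helper lemma `lam_inside`: `M.lam A ≤ 1`, and
the same for `A'` (with `U \ X` in place of `X`, `IsGr.cob_sdiff`). Proof of `lam_inside`: `lam_add_dR`: `lam A + dR A + dR (S \ A) =
rk = |U| - 1` (`IsGr.rank`, `r_S`). `dR A ≥ |X| - 2`: the rows `cob (indV Y)`, `Y ⊆ X \ {ends of a and b in X}`, are supported in `A`
(the edges at `Y` have both ends in `X`, because `a, b` are not at `Y`). `dR (S \ A) ≥ |U \ X|`: the rows `cob (indV Y)`, `Y ⊆ U \ X`.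
Dimensions: `extV` of GrBasic composed with `cobL` is injective on functions on a set `K ⊆ U`, `K ≠ U` (`IsGr.conn`: `cob π = 0` implies `π`
constant on `U`, and it is `0` at a vertex outside `K`); `LinearMap.finrank_range_of_inj`, `Submodule.finrank_mono` (helper lemma
`card_le_dR`). [Alternatively use ranks: `r A + 1 ≤ |X|`, `IsGr.r_lt`, is the bound for `A` if `X` nonempty, and `r (S \ A) + 1 ≤ |U \ X| + 2`,
as the edges of `S \ A` have their ends in `(U \ X) ∪ {ends of a, b}`; so `lam A = r A + r (S \ A) - r S ≤ (|X| - 1) + (|U \ X| + 1) -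
(|U| - 1) = 1`. This is shorter: no dimension of `dR` is needed.]
Now `SC` for `A`: either `A` is in one class or `S \ A` is in one class; same for `A'`. If `A` and `A'` are both in one class:
three classes `A`, `A'`, `{a, b}` (`a`, `b` in series), contradiction (`SC_three` of FrSep). So (symmetric) `S \ A` is in one class; it
contains `a, b, A'`, so `A' = ∅` by `Two`. Take `s ∈ U \ X`; every edge at `s` is not in `A`, so it is `a` or `b`: `star s ⊆ {a, b}`, and
`2 ≤ |star s|` (`two_le_deg`): `star s = {a, b}`. In the other case take `s ∈ X`.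

`IsGr.deg2`: `star s = {a, b}`, `a ≠ b` (`card_eq_two`). `a` joins `s` to `u`, `b` joins `s` to `w`, `u, w ∈ U`, `u ≠ s ≠ w` (no loops). `u = w`
would make `a, b` parallel, `no_par`. `Ser a b` by `star2`. `3 ≤ |star u|`: it is `≥ 2`; if it is `2`, `star u = {a, c}`, `c ≠ b` (the ends of `b` are `s, w`,
`w ≠ u`), so `Ser a c` by `star2`, contradiction to `Two` for `a, b, c`. Same for `w`.
No edge `x` joins `u` and `w`: otherwise `ind {a, b, x} ∈ M.Z` (a triangle), all rows have rank... `A = {a, b, x}`: `r A ≤ 2` and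
`r A` ..., `lam A = r A + r (S \ A) - r S`; use `lam_add_dR_eq_r`: `lam A + dR A = r A`; `r A ≤ 2` (`r_add_dZ`, `dZ A ≥ 1`), `dR A ≥ 1` (`ind {a, b}`), so
`lam A ≤ 1`. `SC`: `A` in one class: `Two` contradiction. `S \ A` in one class: then classes: `{a, b}`, `{x}`, `S \ A`: `SC_three`.
If `s' ≠ s` has degree two and its edges `x, y` join it to `u` and `w`: `star s' = {x, y}`, `x ≠ y`, `A = {a, b, x, y}` is a cycle,
`dZ A ≥ 1`, `r A ≤ 3`, `dR A ≥ 2` (`ind {a, b}`, `ind {x, y}` independent; `{a, b}` and `{x, y}` are disjoint: `a = x` would join `s` to `s'`, so `u = s'`, but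
`x` joins `s'` to `u`, a loop), `lam A ≤ 1`: `A` in one class contradicts `Two`, `S \ A` in one class: three classes.
-/

set_option autoImplicit false

namespace SEY

open Finset

variable {E : Type} [Fintype E] [DecidableEq E]
variable {V : Type} [Fintype V] [DecidableEq V]

theorem ser_iff_ind {M : BM E} {a b : E} (ha : a ∈ M.S) (hb : b ∈ M.S) (hab : a ≠ b) :
    M.Ser a b ↔ ind {a, b} ∈ M.R := by
  rw [M.mem_R_iff]
  have h1 : ∀ z : E → ZMod 2, dot (ind {a, b}) z = z a + z b := by
    intro z
    rw [ind_dot, Finset.sum_pair hab]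
  constructor
  · intro h
    refine ⟨fun e he => ind_notMem ?_, fun z hz => ?_⟩
    · intro h2
      rw [mem_insert, mem_singleton] at h2
      rcases h2 with rfl | rfl
      · exact he ha
      · exact he hb
    · rw [h1, h z hz]
      exact z2_add_self _
  · rintro ⟨-, h⟩ z hz
    have h2 := h z hz
    rw [h1] at h2
    exact z2_add_eq_zero.1 h2

theorem ser_symm_fs {M : BM E} {a b : E} (h : M.Ser a b) : M.Ser b a :=
  fun z hz => (h z hz).symm

/-- the edges inside a set of vertices which is left by at most two edges -/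
theorem IsGr.lam_inside_fs {M : BM E} {U : Finset V} {h t : E → V} (hg : IsGr M U h t)
    {X : Finset V} (hX : X ⊆ U) (hXn : X.Nonempty) (hXc : (U \ X).Nonempty) (va vb : V)
    (hab : ∀ e ∈ M.S, ∀ v ∈ X, ∀ w ∈ U \ X, Inc h t v e → Inc h t w e → v = va ∨ v = vb) :
    M.lam (M.S.filter (fun e => h e ∈ X ∧ t e ∈ X)) ≤ 1 := by
  have h1 : M.r (M.S.filter (fun e => h e ∈ X ∧ t e ∈ X)) + 1 ≤ X.card := by
    refine hg.r_lt (filter_subset _ _) hXn ?_
    intro e he v hv
    rw [mem_filter] at he
    rcases hv with rfl | rfl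
    · exact he.2.1
    · exact he.2.2
  have h2 : M.r (M.S \ M.S.filter (fun e => h e ∈ X ∧ t e ∈ X)) + 1 ≤
      ((U \ X) ∪ {va, vb}).card := by
    refine hg.r_lt sdiff_subset (hXc.mono subset_union_left) ?_
    intro e he v hv
    rw [mem_sdiff, mem_filter] at he
    obtain ⟨he1, he2⟩ := he
    rw [mem_union, mem_sdiff]
    by_cases hvX : v ∈ X
    · right
      obtain ⟨w, hw, hwv, hwe, hall⟩ := hg.two_ends he1 hv
      have hwX : w ∉ X := by
        intro hwX
        apply he2
        refine ⟨he1, ?_, ?_⟩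
        · rcases hall (h e) (Or.inl rfl) with h' | h' <;> rw [h'] <;> assumption
        · rcases hall (t e) (Or.inr rfl) with h' | h' <;> rw [h'] <;> assumption
      rw [mem_insert, mem_singleton]
      exact hab e he1 v hvX w (mem_sdiff.2 ⟨hw, hwX⟩) hv hwe
    · left
      exact ⟨hg.inc_mem he1 hv, hvX⟩
  have h3 : ((U \ X) ∪ {va, vb}).card ≤ (U \ X).card + 2 :=
    (card_union_le _ _).trans (Nat.add_le_add_left card_le_two _)
  have h4 := card_sdiff_add_card_eq_card hX
  have h5 := hg.rank (hXn.mono hX)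
  unfold BM.lam
  omega

theorem IsGr.star2_aux_fs {M : BM E} {U : Finset V} {h t : E → V} (hg : IsGr M U h t)
    (hsc : M.SC) (h2 : M.Two) {a b : E} (ha : a ∈ M.S) (hb : b ∈ M.S) (hab : a ≠ b)
    (hs : M.Ser a b) {X : Finset V} (hXc : (U \ X).Nonempty)
    (hc : ind {a, b} = cob M.S h t (indV X))
    (hcl : ∀ e ∈ M.S \ M.S.filter (fun e => h e ∈ X ∧ t e ∈ X),
      ∀ f ∈ M.S \ M.S.filter (fun e => h e ∈ X ∧ t e ∈ X), M.Ser e f) :
    ∃ s ∈ U, star M.S h t s = {a, b} := by
  obtain ⟨s, hs'⟩ := hXc
  rw [mem_sdiff] at hs'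
  have haA : a ∈ M.S \ M.S.filter (fun e => h e ∈ X ∧ t e ∈ X) := by
    rw [mem_sdiff, mem_filter]
    refine ⟨ha, ?_⟩
    rintro ⟨-, h3, h4⟩
    have h5 := congrFun hc a
    rw [ind_mem (by simp), cob_indV_sub] at h5
    · exact one_ne_zero h5
    · rintro v (rfl | rfl)
      · exact h3
      · exact h4
  refine ⟨s, hs'.1, ?_⟩
  apply eq_of_subset_of_card_le
  · intro e he
    rw [mem_star] at he
    have heA : e ∈ M.S \ M.S.filter (fun e => h e ∈ X ∧ t e ∈ X) := by
      rw [mem_sdiff, mem_filter]
      refine ⟨he.1, ?_⟩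
      rintro ⟨-, h3, h4⟩
      rcases he.2 with h5 | h5
      · rw [h5] at h3; exact hs'.2 h3
      · rw [h5] at h4; exact hs'.2 h4
    rw [mem_insert, mem_singleton]
    rcases h2 a ha b hb e he.1 hs (hcl a haA e heA) with h6 | h6 | h6
    · exact absurd h6 hab
    · exact Or.inl h6.symm
    · exact Or.inr h6.symm
  · rw [card_pair hab]
    exact hg.two_le_deg hsc hs'.1

/-- (STAR2): the two-element series classes are the stars of the vertices of degree two. -/
theorem IsGr.star2 {M : BM E} {U : Finset V} {h t : E → V} (hg : IsGr M U h t)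
    (hsc : M.SC) (h2 : M.Two) {a b : E} (ha : a ∈ M.S) (hb : b ∈ M.S) (hab : a ≠ b) :
    M.Ser a b ↔ ∃ s ∈ U, star M.S h t s = {a, b} := by
  constructor
  swap
  · rintro ⟨s, hs, hst⟩
    rw [ser_iff_ind ha hb hab, ← hst]
    exact hg.star_mem0 s
  intro hs
  obtain ⟨X, hX, hc⟩ := hg.exists_indV ((ser_iff_ind ha hb hab).1 hs)
  have hXn : X.Nonempty := by
    rw [nonempty_iff_ne_empty]
    rintro rfl
    have h5 := congrFun hc a
    rw [ind_mem (by simp), cob_indV_disj (by simp)] at h5
    exact one_ne_zero h5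
  have hXc : (U \ X).Nonempty := by
    rw [sdiff_nonempty]
    intro hUX
    have h5 := congrFun hc a
    rw [ind_mem (by simp), cob_indV_sub (fun v hv => hUX (hg.inc_mem ha hv))] at h5
    exact one_ne_zero h5
  -- edges leaving `X`
  have hlv : ∀ e ∈ M.S, ∀ v ∈ X, ∀ w ∈ U \ X, Inc h t v e → Inc h t w e → e = a ∨ e = b := by
    intro e he v hv w hw hve hwe
    have h5 := congrFun hc e
    rw [cob_indV_one he hv (mem_sdiff.1 hw).2 hve hwe] at h5
    by_contra hne
    rw [ind_notMem (by simpa using hne)] at h5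
    exact one_ne_zero h5.symm
  have hend : ∀ e ∈ M.S, e = a ∨ e = b → ∃ v ∈ X, ∃ w ∈ U \ X, ∀ u, Inc h t u e →
      u = v ∨ u = w := by
    intro e he heab
    have h5 := congrFun hc e
    rw [ind_mem (by simpa using heab), cob_mem he] at h5
    obtain ⟨h6, h7, h8⟩ := hg.ends e he
    by_cases h9 : h e ∈ X
    · have h10 : t e ∉ X := by
        intro h10
        rw [indV_mem h9, indV_mem h10, z2_add_self] at h5
        exact one_ne_zero h5
      refine ⟨h e, h9, t e, mem_sdiff.2 ⟨h7, h10⟩, ?_⟩
      rintro u (rfl | rfl)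
      · exact Or.inl rfl
      · exact Or.inr rfl
    · have h10 : t e ∈ X := by
        by_contra h10
        rw [indV_notMem h9, indV_notMem h10, add_zero] at h5
        exact one_ne_zero h5
      refine ⟨t e, h10, h e, mem_sdiff.2 ⟨h6, h9⟩, ?_⟩
      rintro u (rfl | rfl)
      · exact Or.inr rfl
      · exact Or.inl rfl
  obtain ⟨va, hva, wa, hwa, hia⟩ := hend a ha (Or.inl rfl)
  obtain ⟨vb, hvb, wb, hwb, hib⟩ := hend b hb (Or.inr rfl)
  have hl1 : M.lam (M.S.filter (fun e => h e ∈ X ∧ t e ∈ X)) ≤ 1 := by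
    refine hg.lam_inside_fs hX hXn hXc va vb ?_
    intro e he v hv w hw hve hwe
    rcases hlv e he v hv w hw hve hwe with rfl | rfl
    · rcases hia v hve with h6 | h6
      · exact Or.inl h6
      · rw [h6] at hv; exact absurd hv (mem_sdiff.1 hwa).2
    · rcases hib v hve with h6 | h6
      · exact Or.inr h6
      · rw [h6] at hv; exact absurd hv (mem_sdiff.1 hwb).2
  have hcc : U \ (U \ X) = X := by
    rw [sdiff_sdiff_right_self]
    exact inf_eq_right.2 hX
  have hl2 : M.lam (M.S.filter (fun e => h e ∈ U \ X ∧ t e ∈ U \ X)) ≤ 1 := by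
    refine hg.lam_inside_fs sdiff_subset hXc (by rw [hcc]; exact hXn) wa wb ?_
    intro e he v hv w hw hve hwe
    rw [hcc] at hw
    rcases hlv e he w hw v hv hwe hve with rfl | rfl
    · rcases hia v hve with h6 | h6
      · rw [h6] at hv; exact absurd hva (mem_sdiff.1 hv).2
      · exact Or.inl h6
    · rcases hib v hve with h6 | h6
      · rw [h6] at hv; exact absurd hvb (mem_sdiff.1 hv).2
      · exact Or.inr h6
  rcases hsc.2 _ (filter_subset _ _) hl1 with hA | hA
  swap
  · exact hg.star2_aux_fs hsc h2 ha hb hab hs hXc hc hA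
  rcases hsc.2 _ (filter_subset _ _) hl2 with hA' | hA'
  swap
  · refine hg.star2_aux_fs hsc h2 ha hb hab hs (X := U \ X) (by rw [hcc]; exact hXn) ?_ hA'
    rw [hg.cob_sdiff]
    exact hc
  exfalso
  refine SC_three hsc (fun e => if e ∈ M.S.filter (fun e => h e ∈ X ∧ t e ∈ X) then 0 else
    if e ∈ M.S.filter (fun e => h e ∈ U \ X ∧ t e ∈ U \ X) then 1 else 2) ?_
  have h2c : ∀ e ∈ M.S, e ∉ M.S.filter (fun e => h e ∈ X ∧ t e ∈ X) →
      e ∉ M.S.filter (fun e => h e ∈ U \ X ∧ t e ∈ U \ X) → e = a ∨ e = b := by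
    intro e he h3 h4
    rw [mem_filter] at h3 h4
    obtain ⟨h6, h7, h8⟩ := hg.ends e he
    by_cases h9 : h e ∈ X
    · have h10 : t e ∉ X := fun h10 => h3 ⟨he, h9, h10⟩
      exact hlv e he (h e) h9 (t e) (mem_sdiff.2 ⟨h7, h10⟩) (Or.inl rfl) (Or.inr rfl)
    · have h10 : t e ∈ X := by
        by_contra h10
        exact h4 ⟨he, mem_sdiff.2 ⟨h6, h9⟩, mem_sdiff.2 ⟨h7, h10⟩⟩
      exact hlv e he (t e) h10 (h e) (mem_sdiff.2 ⟨h6, h9⟩) (Or.inr rfl) (Or.inl rfl)
  intro e he f hf hef
  by_cases e1 : e ∈ M.S.filter (fun e => h e ∈ X ∧ t e ∈ X)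
  · by_cases f1 : f ∈ M.S.filter (fun e => h e ∈ X ∧ t e ∈ X)
    · exact hA e e1 f f1
    · simp only [if_pos e1, if_neg f1] at hef
      split_ifs at hef
      · exact absurd hef (by decide)
      · exact absurd hef (by decide)
  · by_cases f1 : f ∈ M.S.filter (fun e => h e ∈ X ∧ t e ∈ X)
    · simp only [if_neg e1, if_pos f1] at hef
      split_ifs at hef
      · exact absurd hef (by decide)
      · exact absurd hef (by decide)
    · simp only [if_neg e1, if_neg f1] at hef
      by_cases e2 : e ∈ M.S.filter (fun e => h e ∈ U \ X ∧ t e ∈ U \ X)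
      · by_cases f2 : f ∈ M.S.filter (fun e => h e ∈ U \ X ∧ t e ∈ U \ X)
        · exact hA' e e2 f f2
        · simp only [if_pos e2, if_neg f2] at hef
          exact absurd hef (by decide)
      · by_cases f2 : f ∈ M.S.filter (fun e => h e ∈ U \ X ∧ t e ∈ U \ X)
        · simp only [if_neg e2, if_pos f2] at hef
          exact absurd hef (by decide)
        · rcases h2c e he e1 e2 with rfl | rfl <;> rcases h2c f hf f1 f2 with rfl | rfl
          · exact fun z hz => rfl
          · exact hs
          · exact ser_symm_fs hs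
          · exact fun z hz => rfl

/-- two series pairs (or a series pair and one more element) inside a small separation -/
theorem SC_small_fs {M : BM E} (hsc : M.SC) (h2 : M.Two) {a b : E} (ha : a ∈ M.S) (hb : b ∈ M.S)
    (hab : a ≠ b) (hs : M.Ser a b) (B : Finset E) (hB : B ⊆ M.S) (hBn : B.Nonempty)
    (haB : a ∉ B) (hbB : b ∉ B) (hBs : ∀ e ∈ B, ∀ f ∈ B, M.Ser e f)
    (hl : M.lam ({a, b} ∪ B) ≤ 1) : False := by
  have hsub : {a, b} ∪ B ⊆ M.S := by
    intro e he
    rw [mem_union, mem_insert, mem_singleton] at he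
    rcases he with (rfl | rfl) | he
    · exact ha
    · exact hb
    · exact hB he
  rcases hsc.2 _ hsub hl with hA | hA
  · obtain ⟨x, hx⟩ := hBn
    rcases h2 a ha b hb x (hB hx) hs (hA a (by simp) x (by simp [hx])) with h3 | h3 | h3
    · exact hab h3
    · rw [← h3] at hx; exact haB hx
    · rw [← h3] at hx; exact hbB hx
  · refine SC_three hsc (fun e => if e = a ∨ e = b then 0 else if e ∈ B then 1 else 2) ?_
    intro e he f hf hef
    by_cases e1 : e = a ∨ e = b
    · by_cases f1 : f = a ∨ f = b
      · rcases e1 with rfl | rfl <;> rcases f1 with rfl | rfl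
        · exact fun z hz => rfl
        · exact hs
        · exact ser_symm_fs hs
        · exact fun z hz => rfl
      · simp only [if_pos e1, if_neg f1] at hef
        split_ifs at hef
        · exact absurd hef (by decide)
        · exact absurd hef (by decide)
    · by_cases f1 : f = a ∨ f = b
      · simp only [if_neg e1, if_pos f1] at hef
        split_ifs at hef
        · exact absurd hef (by decide)
        · exact absurd hef (by decide)
      · simp only [if_neg e1, if_neg f1] at hef
        by_cases e2 : e ∈ B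
        · by_cases f2 : f ∈ B
          · exact hBs e e2 f f2
          · simp only [if_pos e2, if_neg f2] at hef
            exact absurd hef (by decide)
        · by_cases f2 : f ∈ B
          · simp only [if_neg e2, if_pos f2] at hef
            exact absurd hef (by decide)
          · refine hA e ?_ f ?_
            · rw [mem_sdiff, mem_union, mem_insert, mem_singleton]
              exact ⟨he, fun h3 => h3.elim e1 e2⟩
            · rw [mem_sdiff, mem_union, mem_insert, mem_singleton]
              exact ⟨hf, fun h3 => h3.elim f1 f2⟩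

theorem jn_of_inc_fs {h t : E → V} {e : E} {u v : V} (hu : Inc h t u e) (hv : Inc h t v e)
    (huv : u ≠ v) : Jn h t e u v := by
  rcases hu with h1 | h1 <;> rcases hv with h2 | h2
  · exact absurd (h1.symm.trans h2) huv
  · exact Or.inl ⟨h1, h2⟩
  · exact Or.inr ⟨h2, h1⟩
  · exact absurd (h1.symm.trans h2) huv

theorem jn_inc_left_fs {h t : E → V} {e : E} {u v : V} (hj : Jn h t e u v) : Inc h t u e := by
  rcases hj with h1 | h1
  · exact Or.inl h1.1
  · exact Or.inr h1.2

theorem jn_inc_right_fs {h t : E → V} {e : E} {u v : V} (hj : Jn h t e u v) : Inc h t v e := by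
  rcases hj with h1 | h1
  · exact Or.inr h1.2
  · exact Or.inl h1.1

theorem jn_ends_fs {h t : E → V} {e : E} {u v w : V} (hj : Jn h t e u v) (hw : Inc h t w e) :
    w = u ∨ w = v := by
  rcases hj with h1 | h1 <;> rcases hw with h2 | h2
  · exact Or.inl (h2.symm.trans h1.1)
  · exact Or.inr (h2.symm.trans h1.2)
  · exact Or.inr (h2.symm.trans h1.1)
  · exact Or.inl (h2.symm.trans h1.2)

theorem jn_cob_fs {S : Finset E} {h t : E → V} {e : E} {u v : V} (he : e ∈ S) (hj : Jn h t e u v)
    (π : V → ZMod 2) : cob S h t π e = π u + π v := by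
  rw [cob_mem he]
  rcases hj with h1 | h1
  · rw [h1.1, h1.2]
  · rw [h1.1, h1.2, add_comm]

theorem IsGr.jn_ne_fs {M : BM E} {U : Finset V} {h t : E → V} (hg : IsGr M U h t) {e : E}
    (he : e ∈ M.S) {u v : V} (hj : Jn h t e u v) : u ≠ v := by
  have h1 := (hg.ends e he).2.2
  rcases hj with h2 | h2
  · rw [h2.1, h2.2] at h1; exact h1
  · rw [h2.1, h2.2] at h1; exact h1.symm

theorem IsGr.deg_ge_fs {M : BM E} {U : Finset V} {h t : E → V} (hg : IsGr M U h t)
    (hsc : M.SC) (h2 : M.Two) {a b : E} (ha : a ∈ M.S) (hb : b ∈ M.S) (hab : a ≠ b)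
    (hs : M.Ser a b) {u : V} (hu : u ∈ U) (hua : Inc h t u a) (hub : ¬ Inc h t u b) :
    3 ≤ (star M.S h t u).card := by
  have h3 := hg.two_le_deg hsc hu
  by_contra h4
  have h5 : (star M.S h t u).card = 2 := by omega
  obtain ⟨c, d, hcd, h6⟩ := card_eq_two.1 h5
  have key : ∀ c', c' ∈ M.S → a ≠ c' → star M.S h t u = {a, c'} → False := by
    intro c' hc' hac h7
    have h8 : M.Ser a c' := (hg.star2 hsc h2 ha hc' hac).2 ⟨u, hu, h7⟩
    rcases h2 a ha b hb c' hc' hs h8 with h9 | h9 | h9
    · exact hab h9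
    · exact hac h9
    · apply hub
      rw [h9]
      have : c' ∈ star M.S h t u := by rw [h7]; simp
      exact (mem_star.1 this).2
  have h7 : a ∈ star M.S h t u := mem_star.2 ⟨ha, hua⟩
  have hc' : c ∈ M.S := by
    have : c ∈ star M.S h t u := by rw [h6]; simp
    exact (mem_star.1 this).1
  have hd' : d ∈ M.S := by
    have : d ∈ star M.S h t u := by rw [h6]; simp
    exact (mem_star.1 this).1
  rw [h6, mem_insert, mem_singleton] at h7
  rcases h7 with rfl | rfl
  · exact key d hd' hcd h6
  · exact key c hc' hcd.symm (by rw [h6, pair_comm])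

/-- (DEG): the neighbours of the vertices of degree two. -/
theorem IsGr.deg2 {M : BM E} {U : Finset V} {h t : E → V} (hg : IsGr M U h t)
    (hsc : M.SC) (h2 : M.Two) {s : V} (hs : s ∈ U) (hd : (star M.S h t s).card = 2) :
    ∃ a b u w, a ∈ M.S ∧ b ∈ M.S ∧ a ≠ b ∧ star M.S h t s = {a, b} ∧ Jn h t a s u ∧
      Jn h t b s w ∧ u ∈ U ∧ w ∈ U ∧ u ≠ w ∧ u ≠ s ∧ w ≠ s ∧
      3 ≤ (star M.S h t u).card ∧ 3 ≤ (star M.S h t w).card ∧
      (∀ x ∈ M.S, ¬ Jn h t x u w) ∧
      (∀ s' ∈ U, s' ≠ s → (star M.S h t s').card = 2 → ∀ x ∈ M.S, ∀ y ∈ M.S,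
        Jn h t x s' u → ¬ Jn h t y s' w) := by
  obtain ⟨a, b, hab, hst⟩ := card_eq_two.1 hd
  have ha' : a ∈ star M.S h t s := by rw [hst]; simp
  have hb' : b ∈ star M.S h t s := by rw [hst]; simp
  rw [mem_star] at ha' hb'
  obtain ⟨ha, hsa⟩ := ha'
  obtain ⟨hb, hsb⟩ := hb'
  obtain ⟨u, hu, hus, hua, hua'⟩ := hg.two_ends ha hsa
  obtain ⟨w, hw, hws, hwb, hwb'⟩ := hg.two_ends hb hsb
  have hser : M.Ser a b := (hg.star2 hsc h2 ha hb hab).2 ⟨s, hs, hst⟩
  have hja : Jn h t a s u := jn_of_inc_fs hsa hua hus.symm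
  have hjb : Jn h t b s w := jn_of_inc_fs hsb hwb hws.symm
  have huw : u ≠ w := by
    intro huw
    rw [← huw] at hjb
    exact hab (hg.no_par hsc ha hb hja hjb)
  have hub : ¬ Inc h t u b := by
    intro h3
    rcases hwb' u h3 with h4 | h4
    · exact hus h4
    · exact huw h4
  have hwa : ¬ Inc h t w a := by
    intro h3
    rcases hua' w h3 with h4 | h4
    · exact hws h4
    · exact huw h4.symm
  have hind : ind {a, b} ∈ M.R := (ser_iff_ind ha hb hab).1 hser
  have hdR : ∀ B : Finset E, 1 ≤ M.dR ({a, b} ∪ B) := by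
    intro B
    rw [Nat.one_le_iff_ne_zero, ← Nat.pos_iff_ne_zero, M.dR_pos_iff]
    refine ⟨ind {a, b}, hind, ?_, ?_⟩
    · intro h0
      have := congrFun h0 a
      rw [ind_mem (by simp)] at this
      exact one_ne_zero this
    · intro e he
      apply ind_notMem
      intro h3
      exact he (mem_union_left _ h3)
  refine ⟨a, b, u, w, ha, hb, hab, hst, hja, hjb, hu, hw, huw, hus, hws,
    hg.deg_ge_fs hsc h2 ha hb hab hser hu hua hub,
    hg.deg_ge_fs hsc h2 hb ha hab.symm (ser_symm_fs hser) hw hwb hwa, ?_, ?_⟩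
  · intro x hx hjx
    have hxa : x ≠ a := by
      rintro rfl
      exact hwa (jn_inc_right_fs hjx)
    have hxb : x ≠ b := by
      rintro rfl
      exact hub (jn_inc_left_fs hjx)
    refine SC_small_fs hsc h2 ha hb hab hser {x} (by simpa using hx) (by simp)
      (by simpa using hxa.symm) (by simpa using hxb.symm) ?_ ?_
    · intro e he f hf
      rw [mem_singleton] at he hf
      rw [he, hf]
      exact fun z hz => rfl
    · have h3 : M.r ({a, b} ∪ {x}) + M.dZ ({a, b} ∪ {x}) = ({a, b} ∪ {x} : Finset E).card :=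
        M.r_add_dZ (by
          intro e he
          simp only [mem_union, mem_insert, mem_singleton] at he
          rcases he with (rfl | rfl) | rfl <;> assumption)
      have h4 : ({a, b} ∪ {x} : Finset E).card ≤ 3 :=
        (card_union_le _ _).trans (by rw [card_pair hab, card_singleton])
      have h5 := M.lam_add_dR_eq_r ({a, b} ∪ {x})
      have h6 := hdR {x}
      have h7 : 0 < M.dZ ({a, b} ∪ {x}) := by
        rw [M.dZ_pos_iff]
        refine ⟨ind ({a, b} ∪ {x}), ⟨?_, ?_⟩, ?_, ?_⟩
        · intro e he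
          apply ind_notMem
          intro h8
          simp only [mem_union, mem_insert, mem_singleton] at h8
          rcases h8 with (rfl | rfl) | rfl <;> exact he (by assumption)
        · intro f hf
          obtain ⟨π, rfl⟩ := (hg.rows f).1 hf
          rw [dot_ind, sum_union (by
            rw [disjoint_singleton_right, mem_insert, mem_singleton]
            tauto), sum_pair hab, sum_singleton, jn_cob_fs ha hja, jn_cob_fs hb hjb, jn_cob_fs hx hjx]
          generalize π s = p
          generalize π u = q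
          generalize π w = r
          revert p q r
          decide
        · intro h0
          have := congrFun h0 a
          rw [ind_mem (by simp)] at this
          exact one_ne_zero this
        · intro e he
          exact ind_notMem he
      omega
  · intro s' hs' hss hd' x hx y hy hjx hjy
    have hxy : x ≠ y := by
      rintro rfl
      rcases jn_ends_fs hjx (jn_inc_right_fs hjy) with h3 | h3
      · exact hg.jn_ne_fs hx hjy h3.symm
      · exact huw h3.symm
    have hst' : star M.S h t s' = {x, y} := by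
      symm
      apply eq_of_subset_of_card_le
      · intro e he
        rw [mem_insert, mem_singleton] at he
        rw [mem_star]
        rcases he with rfl | rfl
        · exact ⟨hx, jn_inc_left_fs hjx⟩
        · exact ⟨hy, jn_inc_left_fs hjy⟩
      · rw [hd', card_pair hxy]
    have hser' : M.Ser x y := (hg.star2 hsc h2 hx hy hxy).2 ⟨s', hs', hst'⟩
    have hs'u : s' ≠ u := hg.jn_ne_fs hx hjx
    have hs'w : s' ≠ w := hg.jn_ne_fs hy hjy
    have hxa : a ≠ x := by
      rintro rfl
      rcases jn_ends_fs hja (jn_inc_left_fs hjx) with h3 | h3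
      · exact hss h3
      · exact hs'u h3
    have hxb : b ≠ x := by
      rintro rfl
      exact hub (jn_inc_right_fs hjx)
    have hya : a ≠ y := by
      rintro rfl
      exact hwa (jn_inc_right_fs hjy)
    have hyb : b ≠ y := by
      rintro rfl
      rcases jn_ends_fs hjb (jn_inc_left_fs hjy) with h3 | h3
      · exact hss h3
      · exact hs'w h3
    refine SC_small_fs hsc h2 ha hb hab hser {x, y} ?_ (by simp) (by simp [hxa, hya])
      (by simp [hxb, hyb]) ?_ ?_
    · intro e he
      rw [mem_insert, mem_singleton] at he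
      rcases he with rfl | rfl <;> assumption
    · intro e he f hf
      rw [mem_insert, mem_singleton] at he hf
      rcases he with rfl | rfl <;> rcases hf with rfl | rfl
      · exact fun z hz => rfl
      · exact hser'
      · exact ser_symm_fs hser'
      · exact fun z hz => rfl
    · have hdis : Disjoint ({a, b} : Finset E) {x, y} := by
        rw [disjoint_left]
        intro e he he'
        rw [mem_insert, mem_singleton] at he he'
        rcases he with rfl | rfl <;> rcases he' with h3 | h3
        · exact hxa h3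
        · exact hya h3
        · exact hxb h3
        · exact hyb h3
      have h3 : M.r ({a, b} ∪ {x, y}) + M.dZ ({a, b} ∪ {x, y}) =
          ({a, b} ∪ {x, y} : Finset E).card :=
        M.r_add_dZ (by
          intro e he
          simp only [mem_union, mem_insert, mem_singleton] at he
          rcases he with (rfl | rfl) | (rfl | rfl) <;> assumption)
      have h4 : ({a, b} ∪ {x, y} : Finset E).card ≤ 4 :=
        (card_union_le _ _).trans (by rw [card_pair hab, card_pair hxy])
      have h5 := M.lam_add_dR_eq_r ({a, b} ∪ {x, y})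
      have h6 := hdR ∅
      have h6' : 1 ≤ M.dR {x, y} := by
        rw [Nat.one_le_iff_ne_zero, ← Nat.pos_iff_ne_zero, M.dR_pos_iff]
        refine ⟨ind {x, y}, (ser_iff_ind hx hy hxy).1 hser', ?_, fun e he => ind_notMem he⟩
        intro h0
        have := congrFun h0 x
        rw [ind_mem (by simp)] at this
        exact one_ne_zero this
      rw [union_empty] at h6
      have h8 := M.dR_super {a, b} {x, y}
      rw [disjoint_iff_inter_eq_empty.1 hdis, M.dR_empty] at h8
      have h7 : 0 < M.dZ ({a, b} ∪ {x, y}) := by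
        rw [M.dZ_pos_iff]
        refine ⟨ind ({a, b} ∪ {x, y}), ⟨?_, ?_⟩, ?_, ?_⟩
        · intro e he
          apply ind_notMem
          intro h8
          simp only [mem_union, mem_insert, mem_singleton] at h8
          rcases h8 with (rfl | rfl) | (rfl | rfl) <;> exact he (by assumption)
        · intro f hf
          obtain ⟨π, rfl⟩ := (hg.rows f).1 hf
          rw [dot_ind, sum_union hdis, sum_pair hab, sum_pair hxy, jn_cob_fs ha hja, jn_cob_fs hb hjb,
            jn_cob_fs hx hjx, jn_cob_fs hy hjy]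
          generalize π s = p
          generalize π u = q
          generalize π w = r
          generalize π s' = p'
          revert p q r p'
          decide
        · intro h0
          have := congrFun h0 a
          rw [ind_mem (by simp)] at this
          exact one_ne_zero this
        · intro e he
          exact ind_notMem he
      omega

end SEY
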