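import Pool.Agent.Helper39.SEY.GrBasic

/-!
# FRAME module FR-6: grafts

Write `N = M.del {e}`, `N.S = M.S \ {e}`.

`exists_graft`: `e` is not a coloop (`z ∈ M.Z`, `z e = 1`). Every row `g` of `N` has a unique lift: a row `f ∈ M.R` with
`mask (M.S \ {e}) f = g` (two lifts differ by a row supported in `{e}`, which is `0` by `z`); its value at `e` is `dot f z - (the rest) `, in
fact `f e = ∑ x ∈ M.S \ {e}, f x * z x = dot g z`. So the lift of `g` has the value `dot g z` at `e` (this is the shortest way: `0 = dot f z =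
f e * 1 + dot g z`). Put `T = {v ∈ U | dot (ind (star N.S h t v)) z = 1}`. For `π`: `cob N.S h t π = ∑ v ∈ U, π v • ind (star v)`
(`IsGr.cob_singleton`, linearity; helper lemma `cob_eq_sum`), so the lift of `cob π` has the value `∑ v ∈ U, π v * dot (ind (star v)) z = ∑ v ∈ T, π v` at
`e`. `even`: `π = 1`: `cob 1 = 0`, its value at `e` is `0 = |T|`. `rows`: `f ∈ M.R` iff `f` is a lift of some `cob π`.

`IsGraft.star_mem`: the row of `π = indV {v}`: at `e` the value is `∑ x ∈ T, indV {v} x = [v ∈ T]`; at the other elements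
`hg.gr.cob_singleton v`.

`IsGraft.graphic`: `|T|` is even, so `T = ∅` or `T = {x, y}`, `x ≠ y`. Same `V`; `h' = update h e x`, `t' = update t e y` (if `T = ∅`
take `x = y` = any vertex, for example `h e`). `cob M.S h' t' π` has the value `π x + π y = ∑ v ∈ T, π v` at `e` and is equal to `cob (M.S \ {e}) h t π` at the
others.

`IsGraft.congr`: `IsGr.congr`-like: `{h' x, t' x} = {h x, t x}` for all `x ∈ M.S \ {e}`, so `cob` is the same and `IsGr` holds.

`IsGraft.del`: `(M.del {x}).del {e} = (M.del {e}).del {x}`: its `IsGr` is `IsGr.del` of FrMinor applied to `hg.gr` with `hc`. The rows: apply `mask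
(M.S \ {x})` to the rows of `M`.
-/

set_option autoImplicit false

namespace SEY

open Finset

variable {E : Type} [Fintype E] [DecidableEq E]
variable {V : Type} [Fintype V] [DecidableEq V]

theorem IsGr.cob_eq_sum {M : BM E} {U : Finset V} {h t : E → V} (hg : IsGr M U h t)
    (π : V → ZMod 2) : cob M.S h t π = ∑ v ∈ U, π v • (ind (star M.S h t v) : E → ZMod 2) := by
  funext e
  rw [Finset.sum_apply]
  by_cases he : e ∈ M.S
  · rw [cob_mem he]
    obtain ⟨h1, h2, h3⟩ := hg.ends e he
    have h4 : ∀ v ∈ U, (π v • (ind (star M.S h t v) : E → ZMod 2)) e =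
        (if v = h e then π v else 0) + (if v = t e then π v else 0) := by
      intro v _
      rw [Pi.smul_apply, smul_eq_mul]
      by_cases hv : Inc h t v e
      · rw [ind_mem (mem_star.2 ⟨he, hv⟩), mul_one]
        rcases hv with hv | hv
        · rw [if_pos hv.symm, if_neg (fun h5 => h3 (hv.trans h5)), add_zero]
        · rw [if_neg (fun h5 => h3 (h5.symm.trans hv.symm)), if_pos hv.symm, zero_add]
      · rw [ind_notMem (fun h5 => hv (mem_star.1 h5).2), mul_zero,
          if_neg (fun h5 => hv (Or.inl h5.symm)), if_neg (fun h5 => hv (Or.inr h5.symm)), add_zero]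
    rw [Finset.sum_congr rfl h4, Finset.sum_add_distrib, Finset.sum_ite_eq', Finset.sum_ite_eq',
      if_pos h1, if_pos h2]
  · rw [cob_notMem he]
    symm
    refine Finset.sum_eq_zero fun v _ => ?_
    rw [Pi.smul_apply, ind_notMem (fun h5 => he (mem_star.1 h5).1), smul_zero]

/-- The value of a row at `e` is determined by a cycle through `e`. -/
theorem graft_val {M : BM E} {e : E} {z : E → ZMod 2} (hz : z ∈ M.Z) (hze : z e = 1)
    {f : E → ZMod 2} (hf : f ∈ M.R) : f e = dot (mask (M.S \ {e}) f) z := by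
  have h1 : f = mask (M.S \ {e}) f + f e • (ind {e} : E → ZMod 2) := by
    funext x
    rw [Pi.add_apply, Pi.smul_apply, smul_eq_mul]
    by_cases hx : x = e
    · subst hx
      rw [mask_notMem (by simp), ind_mem (Finset.mem_singleton_self x), mul_one, zero_add]
    · rw [ind_notMem (by simpa using hx), mul_zero, add_zero]
      by_cases hxS : x ∈ M.S
      · rw [mask_mem (Finset.mem_sdiff.2 ⟨hxS, by simpa using hx⟩)]
      · rw [mask_notMem (fun h5 => hxS (Finset.mem_sdiff.1 h5).1)]
        exact M.supp f hf x hxS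
  have h2 : dot f z = 0 := hz.2 f hf
  rw [h1, dot_add_left, dot_smul_left, ind_dot, Finset.sum_singleton, hze, mul_one] at h2
  exact (z2_add_eq_zero.1 h2).symm

theorem graft_dot_sum (s : Finset V) (F : V → (E → ZMod 2)) (z : E → ZMod 2) :
    dot (∑ v ∈ s, F v) z = ∑ v ∈ s, dot (F v) z := by
  induction s using Finset.induction_on with
  | empty => rw [Finset.sum_empty, Finset.sum_empty, dot_zero_left]
  | insert a s ha ih => rw [Finset.sum_insert ha, Finset.sum_insert ha, dot_add_left, ih]

theorem exists_graft {M : BM E} {e : E} {U : Finset V} {h t : E → V} (he : e ∈ M.S)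
    (hg : IsGr (M.del {e}) U h t) (hc : ∃ z ∈ M.Z, z e = 1) : ∃ T, IsGraft M e U h t T := by
  obtain ⟨z, hz, hze⟩ := hc
  have hS : (M.del {e}).S = M.S \ {e} := rfl
  have heS : e ∉ M.S \ {e} := by simp
  let T : Finset V := U.filter
    (fun v => dot (ind (star (M.S \ {e}) h t v) : E → ZMod 2) z = 1)
  have hval : ∀ π : V → ZMod 2, dot (cob (M.S \ {e}) h t π) z = ∑ v ∈ T, π v := by
    intro π
    have h1 := hg.cob_eq_sum π
    rw [hS] at h1
    rw [h1]
    have h2 : dot (∑ v ∈ U, π v • (ind (star (M.S \ {e}) h t v) : E → ZMod 2)) z =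
        ∑ v ∈ U, π v * dot (ind (star (M.S \ {e}) h t v) : E → ZMod 2) z := by
      rw [graft_dot_sum]
      exact Finset.sum_congr rfl fun v _ => dot_smul_left _ _ _
    rw [h2, Finset.sum_filter]
    refine Finset.sum_congr rfl fun v _ => ?_
    rcases z2_cases (dot (ind (star (M.S \ {e}) h t v) : E → ZMod 2) z) with h4 | h4
    · rw [h4, mul_zero, if_neg (by decide)]
    · rw [h4, mul_one, if_pos rfl]
  have hlift : ∀ g ∈ M.R, ∀ π : V → ZMod 2, mask (M.S \ {e}) g = cob (M.S \ {e}) h t π →
      g = fun x => if x = e then ∑ v ∈ T, π v else cob (M.S \ {e}) h t π x := by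
    intro g hgR π hgπ
    funext x
    by_cases hx : x = e
    · rw [if_pos hx, hx, graft_val hz hze hgR, hgπ, hval]
    · rw [if_neg hx, ← hgπ]
      by_cases hxS : x ∈ M.S
      · rw [mask_mem (Finset.mem_sdiff.2 ⟨hxS, by simpa using hx⟩)]
      · rw [mask_notMem (fun h5 => hxS (Finset.mem_sdiff.1 h5).1)]
        exact M.supp g hgR x hxS
  have hrows : ∀ f, f ∈ M.R ↔ ∃ π : V → ZMod 2,
      f = fun x => if x = e then ∑ v ∈ T, π v else cob (M.S \ {e}) h t π x := by
    intro f
    constructor
    · intro hf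
      have h1 : mask (M.S \ {e}) f ∈ (M.del {e}).R := ⟨f, hf, rfl⟩
      obtain ⟨π, hπ⟩ := (hg.rows _).1 h1
      exact ⟨π, hlift f hf π hπ⟩
    · rintro ⟨π, rfl⟩
      obtain ⟨g, hgR, hgm⟩ := hg.mem_R π
      rw [← hlift g hgR π hgm]
      exact hgR
  refine ⟨T, he, hg, Finset.filter_subset _ _, ?_, hrows⟩
  have h1 := (hrows _).2 ⟨fun _ => 1, rfl⟩
  have h2 := graft_val hz hze h1
  have h3 : mask (M.S \ {e}) (fun x => if x = e then ∑ v ∈ T, (1 : ZMod 2) else
      cob (M.S \ {e}) h t (fun _ => 1) x) = 0 := by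
    funext x
    by_cases hx : x ∈ M.S \ {e}
    · have hxe : x ≠ e := fun h5 => heS (h5 ▸ hx)
      rw [mask_mem hx, if_neg hxe, cob_const]
    · rw [mask_notMem hx]
      rfl
  rw [h3, dot_zero_left, if_pos rfl, Finset.sum_const, nsmul_eq_mul, mul_one] at h2
  exact ZMod.natCast_eq_zero_iff_even.1 h2

/-- `v ∈ T` iff `e` lies in the lift of the star of `v`. -/
theorem IsGraft.star_mem {M : BM E} {e : E} {U : Finset V} {h t : E → V} {T : Finset V}
    (hg : IsGraft M e U h t T) {v : V} (hv : v ∈ U) :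
    ind (if v ∈ T then insert e (star (M.S \ {e}) h t v) else star (M.S \ {e}) h t v) ∈ M.R := by
  refine (hg.rows _).2 ⟨indV {v}, ?_⟩
  have h1 := hg.gr.cob_singleton v
  have hS : (M.del {e}).S = M.S \ {e} := rfl
  rw [hS] at h1
  have h2 : ∑ w ∈ T, indV {v} w = if v ∈ T then (1 : ZMod 2) else 0 := by
    simp only [indV, Finset.mem_singleton]
    rw [Finset.sum_ite_eq' T v (fun _ => (1 : ZMod 2))]
  have heS : e ∉ star (M.S \ {e}) h t v := by
    intro h5
    exact absurd (mem_star.1 h5).1 (by simp)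
  funext x
  rw [h1, h2]
  by_cases hx : x = e
  · rw [if_pos hx, hx]
    by_cases hvT : v ∈ T
    · rw [if_pos hvT, if_pos hvT, ind_mem (Finset.mem_insert_self _ _)]
    · rw [if_neg hvT, if_neg hvT, ind_notMem heS]
  · rw [if_neg hx]
    by_cases hvT : v ∈ T
    · rw [if_pos hvT]
      by_cases hxs : x ∈ star (M.S \ {e}) h t v
      · rw [ind_mem (Finset.mem_insert_of_mem hxs), ind_mem hxs]
      · rw [ind_notMem hxs, ind_notMem]
        intro h5
        rcases Finset.mem_insert.1 h5 with h6 | h6
        · exact hx h6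
        · exact hxs h6
    · rw [if_neg hvT]

theorem IsGraft.graphic_of {M : BM E} {e : E} {U : Finset V} {h t : E → V} {T : Finset V}
    (hg : IsGraft M e U h t T) (x y : V) (hxy : ∀ π : V → ZMod 2, π x + π y = ∑ v ∈ T, π v) :
    Graphic M := by
  refine ⟨V, inferInstance, Function.update h e x, Function.update t e y, ?_⟩
  intro f
  rw [hg.rows f]
  have h1 : ∀ π : V → ZMod 2, (fun x => if x = e then ∑ v ∈ T, π v else
      cob (M.S \ {e}) h t π x) = cob M.S (Function.update h e x) (Function.update t e y) π := by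
    intro π
    funext w
    by_cases hw : w = e
    · rw [if_pos hw, hw, cob_mem hg.mem, Function.update_self, Function.update_self, hxy]
    · rw [if_neg hw]
      by_cases hwS : w ∈ M.S
      · rw [cob_mem hwS, cob_mem (Finset.mem_sdiff.2 ⟨hwS, by simpa using hw⟩),
          Function.update_of_ne hw, Function.update_of_ne hw]
      · rw [cob_notMem hwS, cob_notMem (fun h5 => hwS (Finset.mem_sdiff.1 h5).1)]
  constructor
  · rintro ⟨π, rfl⟩
    exact ⟨π, h1 π⟩
  · rintro ⟨π, rfl⟩
    exact ⟨π, (h1 π).symm⟩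

theorem IsGraft.graphic {M : BM E} {e : E} {U : Finset V} {h t : E → V} {T : Finset V}
    (hg : IsGraft M e U h t T) (hT : T.card ≤ 2) : Graphic M := by
  have heven := hg.even
  have h0 : T.card = 0 ∨ T.card = 2 := by
    rcases heven with ⟨k, hk⟩
    omega
  rcases h0 with h0 | h0
  · rw [Finset.card_eq_zero] at h0
    refine hg.graphic_of (h e) (h e) fun π => ?_
    rw [h0, Finset.sum_empty]
    exact z2_add_self _
  · obtain ⟨x, y, hxy, rfl⟩ := Finset.card_eq_two.1 h0
    refine hg.graphic_of x y fun π => ?_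
    rw [Finset.sum_pair hxy]

end SEY
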