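import Pool.Agent.Helper39.SEY.FrMinor

/-!
# FRAME module FR-7: minors of grafts, swapping

Write `N = M.del {e}`, `N.S = M.S \ {e}`. A row of `M` is `row π = (e ↦ ∑ v ∈ T, π v, x ↦ cob N.S h t π x)`.

`IsGraft.del`: `(M.del {x}).del {e}` and `(M.del {e}).del {x}` are equal (`del_del` of SEYApi, `union_comm`); `IsGr` of it is `IsGr.del`
applied to `hg.gr` with `hc`. Rows: apply `mask (M.S \ {x})` to the rows of `M`.

`IsGraft.con`: `(M.con {x}).del {e} = (M.del {e}).con {x}` (`del_con` of SEYApi). `IsGr` of it is `IsGr.con` applied to `hg.gr` (`2 ≤ |M.S \ {e}|`). With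
`μ = mg u v`: the rows of `M.con {x}` are the `row π` with `π u = π v`, so `π = π ∘ μ`; and `∑ w ∈ T, (π ∘ μ) w = ∑ w ∈ T', π w`, where
`T' = T` if `u ∉ T` and `T' = (T.erase u) ∆ {v}` if `u ∈ T` (in `ZMod 2`; helper lemma `sum_symmDiff`: the sum over `A ∆ B` is the sum over `A` plus the sum
over `B`). `even`: `|A ∆ {v}| = |A| ± 1`. `sub`: `T' ⊆ U.erase u` (`v ∈ U`, `v ≠ u`).

`IsGraft.congr`: for `x ∈ M.S \ {e}`: `{h' x, t' x} = {h x, t x}`, so `cob (M.S \ {e}) h' t' = cob (M.S \ {e}) h t`; `IsGr.congr`.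

`IsGraft.swap`: new ends: `p : s, w`; `q : s, u`. For `π` let `π'` be equal to `π` except `π' s = π s + π u + π w`. Then
`cob N.S h' t' π' = cob N.S h t π` (at `p`: `π' s + π w = π s + π u`; at `q`: `π' s + π u = π s + π w`; the other edges are not at `s`) and `π'' = π`. So the rows of `N`
are the `cob N.S h' t' π`; `IsGr N U h' t'`: `ends`, `ne` clear, `conn`: `cob N.S h' t' π' = 0` gives `cob N.S h t π = 0`, `π` constant on `U`, so `π' s = π s` and
`π'` constant. Value at `e`: if `s ∉ T`, `π' = π` on `T`. If `s ∈ T`: `∑ v ∈ T, π v = ∑ v ∈ T, π' v + π' u + π' w = ∑ v ∈ T ∆ {u, w}, π' v`. Even: `|T ∆ {u, w}|` is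
congruent to `|T| + 2` modulo 2. Note `u, w ∈ U`, `u ≠ s`, `w ≠ s` (no loops) and `s ≠ `... as `hst` says that `p, q` are the only edges at `s`.
-/

set_option autoImplicit false

namespace SEY

open Finset

variable {E : Type} [Fintype E] [DecidableEq E]
variable {V : Type} [Fintype V] [DecidableEq V]

theorem sum_symmDiff (π : V → ZMod 2) (A B : Finset V) :
    ∑ v ∈ symmDiff A B, π v = ∑ v ∈ A, π v + ∑ v ∈ B, π v := by
  have h1 : ∑ v ∈ symmDiff A B, π v = ∑ v ∈ A \ B, π v + ∑ v ∈ B \ A, π v := by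
    rw [symmDiff_def, sup_eq_union, sum_union]
    rw [Finset.disjoint_left]
    intro x hx hx'
    exact (mem_sdiff.1 hx').2 (mem_sdiff.1 hx).1
  have h2 : ∑ v ∈ A, π v = ∑ v ∈ A ∩ B, π v + ∑ v ∈ A \ B, π v :=
    (sum_inter_add_sum_sdiff A B π).symm
  have h3 : ∑ v ∈ B, π v = ∑ v ∈ B ∩ A, π v + ∑ v ∈ B \ A, π v :=
    (sum_inter_add_sum_sdiff B A π).symm
  rw [h1, h2, h3, inter_comm B A]
  have h4 := z2_add_self (∑ v ∈ A ∩ B, π v)
  linear_combination -h4

omit [Fintype V] in
theorem even_symmDiff_iff {A B : Finset V} (hB : Even (A.card + B.card)) :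
    Even (symmDiff A B).card := by
  have h1 : (symmDiff A B).card = (A \ B).card + (B \ A).card := by
    rw [symmDiff_def, sup_eq_union, card_union_of_disjoint]
    rw [Finset.disjoint_left]
    intro x hx hx'
    exact (mem_sdiff.1 hx').2 (mem_sdiff.1 hx).1
  have h2 := card_inter_add_card_sdiff A B
  have h3 := card_inter_add_card_sdiff B A
  rw [inter_comm B A] at h3
  rw [h1]
  rw [Nat.even_iff] at *
  omega

/-- The row of a graft. -/
def grow (S : Finset E) (e : E) (h t : E → V) (T : Finset V) (π : V → ZMod 2) : E → ZMod 2 :=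
  fun x => if x = e then ∑ v ∈ T, π v else cob (S \ {e}) h t π x

theorem IsGraft.del {M : BM E} {e : E} {U : Finset V} {h t : E → V} {T : Finset V}
    (hg : IsGraft M e U h t T) {x : E} (hx : x ∈ M.S) (hxe : x ≠ e)
    (hc : ∃ z ∈ (M.del {e}).Z, z x = 1) : IsGraft (M.del {x}) e U h t T := by
  have key : ∀ π : V → ZMod 2, mask (M.S \ {x})
      (fun y => if y = e then ∑ v ∈ T, π v else cob (M.S \ {e}) h t π y) =
      fun y => if y = e then ∑ v ∈ T, π v else cob ((M.S \ {x}) \ {e}) h t π y := by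
    intro π
    funext y
    by_cases hye : y = e
    · subst hye
      rw [mask_mem (mem_sdiff.2 ⟨hg.mem, fun h' => hxe (mem_singleton.1 h').symm⟩)]
      simp only [if_true]
    · rw [if_neg hye]
      by_cases hy : y ∈ M.S \ {x}
      · rw [mask_mem hy, if_neg hye]
        rw [cob_mem (mem_sdiff.2 ⟨(mem_sdiff.1 hy).1, fun h' => hye (mem_singleton.1 h')⟩),
          cob_mem (mem_sdiff.2 ⟨hy, fun h' => hye (mem_singleton.1 h')⟩)]
      · rw [mask_notMem hy, cob_notMem fun h' => hy (mem_sdiff.1 h').1]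
  refine ⟨mem_sdiff.2 ⟨hg.mem, fun h' => hxe (mem_singleton.1 h').symm⟩, ?_, hg.sub, hg.even, ?_⟩
  · have h1 : (M.del {x}).del {e} = (M.del {e}).del {x} := by
      rw [BM.del_del, BM.del_del, union_comm]
    rw [h1]
    exact hg.gr.del (mem_sdiff.2 ⟨hx, fun h' => hxe (mem_singleton.1 h')⟩) hc
  · intro f
    rw [BM.mem_del]
    constructor
    · rintro ⟨g, hgR, rfl⟩
      obtain ⟨π, rfl⟩ := (hg.rows g).1 hgR
      exact ⟨π, key π⟩
    · rintro ⟨π, rfl⟩
      exact ⟨_, (hg.rows _).2 ⟨π, rfl⟩, key π⟩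

theorem IsGraft.con {M : BM E} {e : E} {U : Finset V} {h t : E → V} {T : Finset V}
    (hg : IsGraft M e U h t T) {x : E} {u v : V} (hx : x ∈ M.S) (hxe : x ≠ e)
    (hj : Jn h t x u v) (hp : ∀ y ∈ M.S, y ≠ e → y ≠ x → ¬ Jn h t y u v) (h2 : 3 ≤ M.S.card) :
    IsGraft (M.con {x}) e (U.erase u) (fun y => mg u v (h y)) (fun y => mg u v (t y))
      (if u ∈ T then symmDiff (T.erase u) {v} else T) := by
  have hxN : x ∈ (M.del {e}).S := mem_sdiff.2 ⟨hx, fun h' => hxe (mem_singleton.1 h')⟩
  have huv : u ≠ v := by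
    have h3 := (hg.gr.ends x hxN).2.2
    rcases hj with ⟨h1, h2⟩ | ⟨h1, h2⟩
    · rw [← h1, ← h2]; exact h3
    · rw [← h1, ← h2]; exact h3.symm
  have hvU : v ∈ U := by
    have h3 := hg.gr.ends x hxN
    rcases hj with ⟨h1, h2⟩ | ⟨h1, h2⟩
    · rw [← h2]; exact h3.2.1
    · rw [← h1]; exact h3.1
  -- the sum
  have hsum : ∀ π : V → ZMod 2, π u = π v →
      ∑ w ∈ (if u ∈ T then symmDiff (T.erase u) {v} else T), π w = ∑ w ∈ T, π w := by
    intro π hπ
    by_cases hu : u ∈ T
    · rw [if_pos hu, sum_symmDiff, sum_singleton, ← add_sum_erase T π hu, hπ, add_comm]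
    · rw [if_neg hu]
  have hcobx : ∀ π : V → ZMod 2, cob (M.S \ {e}) h t π x = π u + π v := by
    intro π
    rw [cob_mem (show x ∈ M.S \ {e} from hxN)]
    rcases hj with ⟨h1, h2⟩ | ⟨h1, h2⟩
    · rw [h1, h2]
    · rw [h1, h2, add_comm]
  have hmg : ∀ π : V → ZMod 2, π u = π v → ∀ w, π (mg u v w) = π w := by
    intro π hπ w
    unfold mg
    by_cases hw : w = u
    · rw [if_pos hw, hw, hπ]
    · rw [if_neg hw]
  -- the rows
  have key : ∀ π : V → ZMod 2, π u = π v →
      (fun y => if y = e then ∑ w ∈ (if u ∈ T then symmDiff (T.erase u) {v} else T), π w else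
        cob ((M.S \ {x}) \ {e}) (fun y => mg u v (h y)) (fun y => mg u v (t y)) π y) =
      fun y => if y = e then ∑ w ∈ T, π w else cob (M.S \ {e}) h t π y := by
    intro π hπ
    funext y
    by_cases hye : y = e
    · rw [if_pos hye, if_pos hye, hsum π hπ]
    · rw [if_neg hye, if_neg hye]
      by_cases hyx : y = x
      · rw [hyx, hcobx, hπ, z2_add_self, cob_notMem]
        intro h'
        exact (mem_sdiff.1 (mem_sdiff.1 h').1).2 (mem_singleton_self x)
      · by_cases hyS : y ∈ M.S
        · rw [cob_mem (mem_sdiff.2 ⟨mem_sdiff.2 ⟨hyS, fun h' => hyx (mem_singleton.1 h')⟩,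
            fun h' => hye (mem_singleton.1 h')⟩),
            cob_mem (mem_sdiff.2 ⟨hyS, fun h' => hye (mem_singleton.1 h')⟩), hmg π hπ, hmg π hπ]
        · rw [cob_notMem fun h' => hyS (mem_sdiff.1 (mem_sdiff.1 h').1).1,
            cob_notMem fun h' => hyS (mem_sdiff.1 h').1]
  -- replace π by π ∘ mg
  have key2 : ∀ π : V → ZMod 2,
      (fun y => if y = e then ∑ w ∈ (if u ∈ T then symmDiff (T.erase u) {v} else T), π w else
        cob ((M.S \ {x}) \ {e}) (fun y => mg u v (h y)) (fun y => mg u v (t y)) π y) =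
      (fun y => if y = e then
          ∑ w ∈ (if u ∈ T then symmDiff (T.erase u) {v} else T), (π (mg u v w)) else
        cob ((M.S \ {x}) \ {e}) (fun y => mg u v (h y)) (fun y => mg u v (t y))
          (fun w => π (mg u v w)) y) := by
    intro π
    have hidem : ∀ w, mg u v (mg u v w) = mg u v w := by
      intro w
      unfold mg
      by_cases hw : w = u
      · rw [if_pos hw, if_neg huv.symm]
      · rw [if_neg hw, if_neg hw]
    funext y
    by_cases hye : y = e
    · rw [if_pos hye, if_pos hye]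
      refine sum_congr rfl fun w hw => ?_
      have hwu : w ≠ u := by
        rintro rfl
        by_cases hu : w ∈ T
        · rw [if_pos hu, mem_symmDiff] at hw
          rcases hw with ⟨h1, -⟩ | ⟨h1, -⟩
          · exact (mem_erase.1 h1).1 rfl
          · exact huv (mem_singleton.1 h1)
        · rw [if_neg hu] at hw
          exact hu hw
      unfold mg
      rw [if_neg hwu]
    · rw [if_neg hye, if_neg hye]
      by_cases hyS : y ∈ (M.S \ {x}) \ {e}
      · rw [cob_mem hyS, cob_mem hyS, hidem, hidem]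
      · rw [cob_notMem hyS, cob_notMem hyS]
  refine ⟨mem_sdiff.2 ⟨hg.mem, fun h' => hxe (mem_singleton.1 h').symm⟩, ?_, ?_, ?_, ?_⟩
  · have h1 : (M.con {x}).del {e} = (M.del {e}).con {x} := by
      rw [BM.del_con]
      rw [disjoint_singleton]
      exact hxe.symm
    rw [h1]
    refine hg.gr.con hxN hj (fun y hy hyx => ?_) ?_
    · have hy' := mem_sdiff.1 (show y ∈ M.S \ {e} from hy)
      exact hp y hy'.1 (fun h' => hy'.2 (mem_singleton.2 h')) hyx
    · show 2 ≤ (M.S \ {e}).card
      rw [card_sdiff_of_subset (singleton_subset_iff.2 hg.mem), card_singleton]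
      omega
  · intro w hw
    by_cases hu : u ∈ T
    · rw [if_pos hu, mem_symmDiff] at hw
      rcases hw with ⟨h1, -⟩ | ⟨h1, -⟩
      · exact mem_erase.2 ⟨(mem_erase.1 h1).1, hg.sub (mem_erase.1 h1).2⟩
      · rw [mem_singleton] at h1
        subst h1
        exact mem_erase.2 ⟨huv.symm, hvU⟩
    · rw [if_neg hu] at hw
      exact mem_erase.2 ⟨fun h' => hu (h' ▸ hw), hg.sub hw⟩
  · by_cases hu : u ∈ T
    · rw [if_pos hu]
      apply even_symmDiff_iff
      rw [card_erase_of_mem hu, card_singleton]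
      have h3 := hg.even
      have h4 : 0 < T.card := card_pos.2 ⟨u, hu⟩
      rw [Nat.sub_add_cancel h4]
      exact h3
    · rw [if_neg hu]
      exact hg.even
  · intro f
    rw [BM.mem_con]
    constructor
    · rintro ⟨hf, hfx⟩
      obtain ⟨π, rfl⟩ := (hg.rows f).1 hf
      have h3 := hfx x (mem_singleton_self x)
      simp only [if_neg hxe] at h3
      rw [hcobx] at h3
      exact ⟨π, (key π (z2_add_eq_zero.1 h3)).symm⟩
    · rintro ⟨π, rfl⟩
      have hπ : (fun w => π (mg u v w)) u = (fun w => π (mg u v w)) v := by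
        simp only [mg, if_true, if_neg huv.symm]
      have h3 := key2 π
      have h4 := key (fun w => π (mg u v w)) hπ
      rw [show (M.con {x}).S = M.S \ {x} from rfl]
      rw [h3, h4]
      refine ⟨(hg.rows _).2 ⟨_, rfl⟩, fun y hy => ?_⟩
      rw [mem_singleton] at hy
      subst hy
      simp only [if_neg hxe]
      rw [hcobx]
      rw [show π (mg u v u) = π (mg u v v) from hπ]
      exact z2_add_self _

omit [Fintype V] in
theorem cob_congr_Jn {S : Finset E} {h t h' t' : E → V}
    (hj : ∀ x ∈ S, Jn h t x (h' x) (t' x)) (π : V → ZMod 2) :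
    cob S h' t' π = cob S h t π := by
  funext x
  by_cases hx : x ∈ S
  · rw [cob_mem hx, cob_mem hx]
    rcases hj x hx with ⟨h1, h2⟩ | ⟨h1, h2⟩
    · rw [h1, h2]
    · rw [h1, h2, add_comm]
  · rw [cob_notMem hx, cob_notMem hx]

theorem IsGraft.congr {M : BM E} {e : E} {U : Finset V} {h t h' t' : E → V} {T : Finset V}
    (hg : IsGraft M e U h t T) (hj : ∀ x ∈ M.S, x ≠ e → Jn h t x (h' x) (t' x)) :
    IsGraft M e U h' t' T := by
  have hj' : ∀ x ∈ M.S \ {e}, Jn h t x (h' x) (t' x) := fun x hx =>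
    hj x (mem_sdiff.1 hx).1 fun h0 => (mem_sdiff.1 hx).2 (mem_singleton.2 h0)
  refine ⟨hg.mem, hg.gr.congr hj', hg.sub, hg.even, fun f => ?_⟩
  rw [hg.rows f]
  constructor
  · rintro ⟨π, rfl⟩
    exact ⟨π, by rw [cob_congr_Jn hj']⟩
  · rintro ⟨π, rfl⟩
    exact ⟨π, by rw [cob_congr_Jn hj']⟩

/-- Swapping the two edges at a vertex of degree two. -/
theorem IsGraft.swap {M : BM E} {e : E} {U : Finset V} {h t : E → V} {T : Finset V}
    (hg : IsGraft M e U h t T) {s u w : V} {p q : E} (hs : s ∈ U)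
    (hst : star (M.S \ {e}) h t s = {p, q}) (hpq : p ≠ q) (hp : Jn h t p s u)
    (hq : Jn h t q s w) (huw : u ≠ w) :
    IsGraft M e U (fun x => if x = p ∨ x = q then s else h x)
      (fun x => if x = p then w else if x = q then u else t x)
      (if s ∈ T then symmDiff T {u, w} else T) := by
  have hpS : p ∈ M.S \ {e} := by
    have h1 : p ∈ star (M.S \ {e}) h t s := by rw [hst]; simp
    exact (mem_star.1 h1).1
  have hqS : q ∈ M.S \ {e} := by
    have h1 : q ∈ star (M.S \ {e}) h t s := by rw [hst]; simp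
    exact (mem_star.1 h1).1
  have hother : ∀ x ∈ M.S \ {e}, x ≠ p → x ≠ q → h x ≠ s ∧ t x ≠ s := by
    intro x hx hxp hxq
    by_contra hcon
    have h1 : x ∈ star (M.S \ {e}) h t s := by
      rw [mem_star]
      refine ⟨hx, ?_⟩
      unfold Inc
      tauto
    rw [hst, mem_insert, mem_singleton] at h1
    tauto
  have hep := hg.gr.ends p hpS
  have heq := hg.gr.ends q hqS
  have hus : u ≠ s := by
    rcases hp with ⟨h1, h2⟩ | ⟨h1, h2⟩
    · rw [← h1, ← h2]; exact hep.2.2.symm
    · rw [← h1, ← h2]; exact hep.2.2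
  have hws : w ≠ s := by
    rcases hq with ⟨h1, h2⟩ | ⟨h1, h2⟩
    · rw [← h1, ← h2]; exact heq.2.2.symm
    · rw [← h1, ← h2]; exact heq.2.2
  have huU : u ∈ U := by
    rcases hp with ⟨h1, h2⟩ | ⟨h1, h2⟩
    · rw [← h2]; exact hep.2.1
    · rw [← h1]; exact hep.1
  have hwU : w ∈ U := by
    rcases hq with ⟨h1, h2⟩ | ⟨h1, h2⟩
    · rw [← h2]; exact heq.2.1
    · rw [← h1]; exact heq.1
  -- the involution
  set σ : (V → ZMod 2) → (V → ZMod 2) := fun π v => if v = s then π s + π u + π w else π v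
    with hσ
  have hσs : ∀ π, σ π s = π s + π u + π w := fun π => if_pos rfl
  have hσn : ∀ π v, v ≠ s → σ π v = π v := fun π v hv => if_neg hv
  have hσσ : ∀ π, σ (σ π) = π := by
    intro π
    funext v
    by_cases hv : v = s
    · rw [hv, hσs, hσs, hσn π u hus, hσn π w hws]
      have h1 := z2_add_self (π u)
      have h2 := z2_add_self (π w)
      linear_combination h1 + h2
    · rw [hσn _ v hv, hσn _ v hv]
  have hcob : ∀ π, cob (M.S \ {e}) (fun x => if x = p ∨ x = q then s else h x)
      (fun x => if x = p then w else if x = q then u else t x) (σ π) =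
      cob (M.S \ {e}) h t π := by
    intro π
    funext x
    by_cases hx : x ∈ M.S \ {e}
    · rw [cob_mem hx, cob_mem hx]
      by_cases hxp : x = p
      · subst hxp
        rw [if_pos (Or.inl rfl), if_pos rfl, hσs, hσn π w hws]
        have h1 := z2_add_self (π w)
        rcases hp with ⟨h3, h4⟩ | ⟨h3, h4⟩
        · rw [h3, h4]; linear_combination h1
        · rw [h3, h4]; linear_combination h1
      · by_cases hxq : x = q
        · subst hxq
          rw [if_pos (Or.inr rfl), if_neg hxp, if_pos rfl, hσs, hσn π u hus]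
          have h1 := z2_add_self (π u)
          rcases hq with ⟨h3, h4⟩ | ⟨h3, h4⟩
          · rw [h3, h4]; linear_combination h1
          · rw [h3, h4]; linear_combination h1
        · obtain ⟨h1, h2⟩ := hother x hx hxp hxq
          rw [if_neg (by tauto), if_neg hxp, if_neg hxq, hσn π _ h1, hσn π _ h2]
    · rw [cob_notMem hx, cob_notMem hx]
  have hsum : ∀ π, ∑ v ∈ (if s ∈ T then symmDiff T {u, w} else T), σ π v = ∑ v ∈ T, π v := by
    intro π
    by_cases hsT : s ∈ T
    · rw [if_pos hsT, sum_symmDiff, sum_pair huw, hσn π u hus, hσn π w hws,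
        ← add_sum_erase T (σ π) hsT, ← add_sum_erase T π hsT, hσs]
      have h3 : ∑ v ∈ T.erase s, σ π v = ∑ v ∈ T.erase s, π v :=
        sum_congr rfl fun v hv => hσn π v (mem_erase.1 hv).1
      rw [h3]
      have h1 := z2_add_self (π u)
      have h2 := z2_add_self (π w)
      linear_combination h1 + h2
    · rw [if_neg hsT]
      exact sum_congr rfl fun v hv => hσn π v fun h' => hsT (h' ▸ hv)
  refine ⟨hg.mem, ⟨?_, ?_, ?_, ?_⟩, ?_, ?_, ?_⟩
  · -- ends
    intro x hx
    by_cases hxp : x = p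
    · subst hxp
      simp only [true_or, if_true]
      exact ⟨hs, hwU, hws.symm⟩
    · by_cases hxq : x = q
      · subst hxq
        simp only [or_true, if_true, if_neg hxp]
        exact ⟨hs, huU, hus.symm⟩
      · simp only [hxp, hxq, or_self, if_false]
        exact hg.gr.ends x hx
  · -- rows
    intro f
    rw [hg.gr.rows f]
    constructor
    · rintro ⟨π, rfl⟩
      exact ⟨σ π, (hcob π).symm⟩
    · rintro ⟨π, rfl⟩
      refine ⟨σ π, ?_⟩
      have h1 := hcob (σ π)
      rw [hσσ] at h1
      exact h1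
  · -- conn
    intro π h0 a ha b hb
    have h1 := hcob (σ π)
    rw [hσσ] at h1
    have h2 : cob (M.S \ {e}) h t (σ π) = 0 := by rw [← h1]; exact h0
    have h3 := hg.gr.conn (σ π) h2
    have h4 : π u = π w := by
      have := h3 u huU w hwU
      rwa [hσn π u hus, hσn π w hws] at this
    have h5 : σ π = π := by
      funext v
      by_cases hv : v = s
      · rw [hv, hσs, h4]
        have h6 := z2_add_self (π w)
        linear_combination h6
      · exact hσn π v hv
    rw [h5] at h3
    exact h3 a ha b hb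
  · -- ne
    intro v hv
    obtain ⟨x, hx, hxv⟩ := hg.gr.ne v hv
    have hsp : ∃ e' ∈ (M.del {e}).S, (if e' = p ∨ e' = q then s else h e') = s ∨
        (if e' = p then w else if e' = q then u else t e') = s :=
      ⟨p, hpS, Or.inl (if_pos (Or.inl rfl))⟩
    by_cases hxp : x = p
    · subst hxp
      by_cases hvs : v = s
      · rw [hvs]; exact hsp
      · have hvu : v = u := by
          rcases hp with ⟨h1, h2⟩ | ⟨h1, h2⟩
          · rcases hxv with h3 | h3
            · exact absurd (h3.symm.trans h1) hvs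
            · exact h3.symm.trans h2
          · rcases hxv with h3 | h3
            · exact h3.symm.trans h1
            · exact absurd (h3.symm.trans h2) hvs
        rw [hvu]
        refine ⟨q, hqS, Or.inr ?_⟩
        rw [if_neg hpq.symm, if_pos rfl]
    · by_cases hxq : x = q
      · subst hxq
        by_cases hvs : v = s
        · rw [hvs]; exact hsp
        · have hvw : v = w := by
            rcases hq with ⟨h1, h2⟩ | ⟨h1, h2⟩
            · rcases hxv with h3 | h3
              · exact absurd (h3.symm.trans h1) hvs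
              · exact h3.symm.trans h2
            · rcases hxv with h3 | h3
              · exact h3.symm.trans h1
              · exact absurd (h3.symm.trans h2) hvs
          rw [hvw]
          exact ⟨p, hpS, Or.inr (if_pos rfl)⟩
      · refine ⟨x, hx, ?_⟩
        rw [if_neg (by tauto), if_neg hxp, if_neg hxq]
        exact hxv
  · -- sub
    intro v hv
    by_cases hsT : s ∈ T
    · rw [if_pos hsT, mem_symmDiff] at hv
      rcases hv with ⟨h1, -⟩ | ⟨h1, -⟩
      · exact hg.sub h1
      · rw [mem_insert, mem_singleton] at h1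
        rcases h1 with rfl | rfl
        · exact huU
        · exact hwU
    · rw [if_neg hsT] at hv
      exact hg.sub hv
  · -- even
    by_cases hsT : s ∈ T
    · rw [if_pos hsT]
      apply even_symmDiff_iff
      rw [card_pair huw]
      exact hg.even.add (by decide)
    · rw [if_neg hsT]
      exact hg.even
  · -- rows
    intro f
    rw [hg.rows f]
    constructor
    · rintro ⟨π, rfl⟩
      refine ⟨σ π, ?_⟩
      funext x
      by_cases hxe : x = e
      · rw [if_pos hxe, if_pos hxe, hsum]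
      · rw [if_neg hxe, if_neg hxe, hcob]
    · rintro ⟨π, rfl⟩
      refine ⟨σ π, ?_⟩
      have h1 := hcob (σ π)
      have h2 := hsum (σ π)
      rw [hσσ] at h1 h2
      funext x
      by_cases hxe : x = e
      · rw [if_pos hxe, if_pos hxe, ← h2]
      · rw [if_neg hxe, if_neg hxe, ← h1]

end SEY
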