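import Pool.Agent.Helper39.SEY.GrBasic

/-!
# FRAME module FR-1: closure properties of `Graphic`

Library: GrBasic (cob_mem, cob_notMem, cob_add, cob_const, cob_congr, mask_cob, ...), SEYApi (helper71:
mem_con, mem_del, mem_R_iff, dot_ind, ...).

`Graphic_con`: `M.R = {cob S h t π}`. Let `q : V → V'` be the quotient of `V` by the equivalence relation
generated by `h c ~ t c`, `c ∈ C ∩ M.S` (`Relation.EqvGen`, `Quotient`, `Fintype.ofFinite` / classical). A row
`cob π` of `M` vanishes on `C` iff `π (h c) = π (t c)` for all `c ∈ C ∩ M.S` iff `π` is constant on the classes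
iff `π = π' ∘ q`. So the rows of `M.con C` are `cob (S \ C) (q ∘ h) (q ∘ t) π'`.

`Graphic_del`: same `V, h, t`; `mask (S \ D) (cob S h t π) = cob (S \ D) h t π` (`mask_cob`).

`Graphic_of_con`: `Ser a b` gives `ind {a, b} ∈ M.R` (`mem_R_iff`: `dot (ind {a,b}) z = z a + z b = 0`). `M.con {a}` has
`V, h, t`. Take `Option V` as new vertex set; all `x ≠ a, b`: `some (h x), some (t x)`; `b`: `some (h b), none`; `a`: `none,
some (t b)`. Rows of the new graph: `cob' π'` with `c := π' none + π' (some (t b))`: if `c = 0` it is the row `cob (S \ {a})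
h t π` of `M.con {a}` (value `0` at `a`); if `c = 1` it is that row plus `ind {a, b}`. Conversely `f ∈ M.R`: `f` or
`f + ind {a, b}` vanishes at `a`, so it is a row of `M.con {a}`, `cob (S\{a}) h t π`; extend `π` to `none` by `π (t b)`
or `π (t b) + 1`. (The hypothesis `hcl` is not needed.)

`Graphic_of_IsIso`: `V := Option (Fin n)` (an additional vertex because `n` may be `0`), `h (φ j) = some (ends j).1`, `t (φ j) =
some (ends j).2`, `none` outside the range of `φ`. `∑ i, c i * grRows ends i j = c (ends j).1 + c (ends j).2`.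
-/

set_option autoImplicit false

namespace SEY

open Finset

variable {E : Type} [Fintype E] [DecidableEq E]
variable {V : Type} [Fintype V] [DecidableEq V]

theorem Graphic_con {M : BM E} (h : Graphic M) (C : Finset E) : Graphic (M.con C) := by
  classical
  obtain ⟨V, _, hh, tt, hrows⟩ := h
  let rel : V → V → Prop := fun u v => ∃ c, c ∈ C ∧ c ∈ M.S ∧ u = hh c ∧ v = tt c
  have hfin : Finite (Quot rel) := Finite.of_surjective (Quot.mk rel) Quot.exists_rep
  refine ⟨Quot rel, Fintype.ofFinite _, fun e => Quot.mk rel (hh e), fun e => Quot.mk rel (tt e),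
    fun f => ?_⟩
  constructor
  · rintro ⟨hf, hf0⟩
    obtain ⟨π, rfl⟩ := (hrows f).1 hf
    have hπ : ∀ u v, rel u v → π u = π v := by
      rintro u v ⟨c, hc, hcS, rfl, rfl⟩
      have := hf0 c hc
      rw [cob_mem hcS] at this
      exact z2_add_eq_zero.1 this
    refine ⟨Quot.lift π hπ, ?_⟩
    funext e
    by_cases he : e ∈ M.S \ C
    · rw [BM.con_S, cob_mem he, cob_mem (mem_sdiff.1 he).1]
    · rw [BM.con_S, cob_notMem he]
      by_cases heC : e ∈ C
      · exact hf0 e heC
      · exact cob_notMem fun h => he (mem_sdiff.2 ⟨h, heC⟩)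
  · rintro ⟨π, rfl⟩
    have hz : ∀ e ∈ M.S, e ∈ C → π (Quot.mk rel (hh e)) + π (Quot.mk rel (tt e)) = 0 := by
      intro e he heC
      rw [show Quot.mk rel (hh e) = Quot.mk rel (tt e) from
        Quot.sound ⟨e, heC, he, rfl, rfl⟩]
      exact z2_add_self _
    have h1 : cob (M.con C).S (fun e => Quot.mk rel (hh e)) (fun e => Quot.mk rel (tt e)) π =
        cob M.S hh tt (fun v => π (Quot.mk rel v)) := by
      funext e
      by_cases he : e ∈ M.S
      · by_cases heC : e ∈ C
        · rw [BM.con_S, cob_notMem (fun h => (mem_sdiff.1 h).2 heC), cob_mem he]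
          exact (hz e he heC).symm
        · rw [BM.con_S, cob_mem (mem_sdiff.2 ⟨he, heC⟩), cob_mem he]
      · rw [BM.con_S, cob_notMem (fun h => he (mem_sdiff.1 h).1), cob_notMem he]
    rw [h1, BM.mem_con]
    refine ⟨(hrows _).2 ⟨_, rfl⟩, fun e he => ?_⟩
    by_cases heS : e ∈ M.S
    · rw [cob_mem heS]; exact hz e heS he
    · exact cob_notMem heS

theorem Graphic_del {M : BM E} (h : Graphic M) (D : Finset E) : Graphic (M.del D) := by
  classical
  obtain ⟨V, iV, hh, tt, hrows⟩ := h
  refine ⟨V, iV, hh, tt, fun f => ?_⟩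
  rw [BM.mem_del]
  constructor
  · rintro ⟨g, hg, rfl⟩
    obtain ⟨π, rfl⟩ := (hrows g).1 hg
    exact ⟨π, mask_cob _ _ _ _ _ sdiff_subset⟩
  · rintro ⟨π, rfl⟩
    exact ⟨_, (hrows _).2 ⟨π, rfl⟩, mask_cob _ _ _ _ _ sdiff_subset⟩

/-- Series extensions of graphic matroids are graphic. -/
theorem Graphic_of_con {M : BM E} {a b : E} (ha : a ∈ M.S) (hb : b ∈ M.S) (hab : a ≠ b)
    (hs : M.Ser a b) (hcl : ∃ z ∈ M.Z, z a = 1) (h : Graphic (M.con {a})) : Graphic M := by
  classical
  have hind : (ind {a, b} : E → ZMod 2) ∈ M.R := by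
    rw [BM.mem_R_iff]
    constructor
    · intro e he
      refine ind_notMem fun h => ?_
      rw [mem_insert, mem_singleton] at h
      rcases h with rfl | rfl
      · exact he ha
      · exact he hb
    · intro z hz
      rw [ind_dot, sum_pair hab, hs z hz]
      exact z2_add_self _
  have hia : (ind {a, b} : E → ZMod 2) a = 1 := ind_mem (by simp)
  have hib : (ind {a, b} : E → ZMod 2) b = 1 := ind_mem (by simp)
  have hie : ∀ e, e ≠ a → e ≠ b → (ind {a, b} : E → ZMod 2) e = 0 := fun e h1 h2 =>
    ind_notMem (by simp [h1, h2])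
  obtain ⟨V, iV, hh, tt, hrows⟩ := h
  have hba : b ≠ a := hab.symm
  let h' : E → Option V := fun x => if x = a then none else some (hh x)
  let t' : E → Option V := fun x =>
    if x = b then none else if x = a then some (tt b) else some (tt x)
  have key : ∀ π' : Option V → ZMod 2, cob M.S h' t' π' =
      cob (M.S \ {a}) hh tt (fun v => π' (some v)) +
        (π' none + π' (some (tt b))) • (ind {a, b} : E → ZMod 2) := by
    intro π'
    funext e
    rw [Pi.add_apply, Pi.smul_apply, smul_eq_mul]
    by_cases hea : e = a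
    · subst hea
      rw [cob_mem ha, cob_notMem (by simp), hia]
      simp [h', t', hab]
    · by_cases heb : e = b
      · subst heb
        rw [cob_mem hb, cob_mem (by simp [hb, hba]), hib]
        simp only [h', t', if_neg hba, if_true]
        generalize π' (some (hh e)) = u
        generalize π' (some (tt e)) = v
        generalize π' none = w
        revert u v w
        decide
      · rw [hie e hea heb, mul_zero, add_zero]
        by_cases heS : e ∈ M.S
        · rw [cob_mem heS, cob_mem (by simp [heS, hea])]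
          simp only [h', t', if_neg hea, if_neg heb]
        · rw [cob_notMem heS, cob_notMem (by simp [heS])]
  refine ⟨Option V, inferInstance, h', t', fun f => ?_⟩
  constructor
  · intro hf
    have hg : f + f a • (ind {a, b} : E → ZMod 2) ∈ (M.con {a}).R := by
      refine ⟨M.R.add_mem hf (M.R.smul_mem _ hind), fun e he => ?_⟩
      rw [mem_singleton] at he
      subst he
      rw [Pi.add_apply, Pi.smul_apply, smul_eq_mul, hia, mul_one]
      exact z2_add_self _
    obtain ⟨π, hπ⟩ := (hrows _).1 hg
    let π' : Option V → ZMod 2 := fun o => match o with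
      | none => π (tt b) + f a
      | some v => π v
    refine ⟨π', ?_⟩
    have e1 : π' none + π' (some (tt b)) = f a := by
      show π (tt b) + f a + π (tt b) = f a
      generalize π (tt b) = u
      generalize f a = v
      revert u v
      decide
    rw [key π', e1]
    show f = cob (M.S \ {a}) hh tt π + f a • (ind {a, b} : E → ZMod 2)
    rw [BM.con_S] at hπ
    rw [← hπ, add_assoc, z2_vec_add_self, add_zero]
  · rintro ⟨π', rfl⟩
    rw [key π']
    refine M.R.add_mem ?_ (M.R.smul_mem _ hind)
    exact ((hrows _).2 ⟨_, rfl⟩ : _ ∈ (M.con {a}).R).1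

theorem Graphic_of_IsIso {n k : ℕ} (ends : Fin k → Fin n × Fin n) {M : BM E}
    (h : IsIso (grRows ends) M) : Graphic M := by
  classical
  obtain ⟨φ, hφ, hS, h1, h2⟩ := h
  choose F hF hF' using h1
  have hsum : ∀ (c : Fin n → ZMod 2) (j : Fin k),
      ∑ i, c i * grRows ends i j = c (ends j).1 + c (ends j).2 := by
    intro c j
    simp [grRows, mul_add, Finset.sum_add_distrib]
  let hh : E → Option (Fin n) := fun e =>
    if he : ∃ j, φ j = e then some (ends he.choose).1 else none
  let tt : E → Option (Fin n) := fun e =>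
    if he : ∃ j, φ j = e then some (ends he.choose).2 else none
  have hch : ∀ j, (⟨j, rfl⟩ : ∃ i, φ i = φ j).choose = j := fun j =>
    hφ (⟨j, rfl⟩ : ∃ i, φ i = φ j).choose_spec
  have hhφ : ∀ j, hh (φ j) = some (ends j).1 := by
    intro j
    simp only [hh]
    rw [dif_pos ⟨j, rfl⟩, hch]
  have htφ : ∀ j, tt (φ j) = some (ends j).2 := by
    intro j
    simp only [tt]
    rw [dif_pos ⟨j, rfl⟩, hch]
  refine ⟨Option (Fin n), inferInstance, hh, tt, fun f => ?_⟩
  constructor
  · intro hf
    obtain ⟨c, hc⟩ := h2 f hf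
    refine ⟨fun o => match o with
      | none => 0
      | some i => c i, ?_⟩
    funext e
    by_cases he : e ∈ M.S
    · obtain ⟨j, rfl⟩ := (hS e).1 he
      rw [cob_mem he, hc, hsum, hhφ, htφ]
    · rw [cob_notMem he, M.supp f hf e he]
  · rintro ⟨π, rfl⟩
    have h3 : cob M.S hh tt π = ∑ i, π (some i) • F i := by
      funext e
      rw [Finset.sum_apply]
      by_cases he : e ∈ M.S
      · obtain ⟨j, rfl⟩ := (hS e).1 he
        rw [cob_mem he, hhφ, htφ]
        simp only [Pi.smul_apply, smul_eq_mul, hF']
        exact (hsum (fun i => π (some i)) j).symm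
      · rw [cob_notMem he]
        symm
        refine Finset.sum_eq_zero fun i _ => ?_
        rw [Pi.smul_apply, M.supp _ (hF i) e he, smul_zero]
    rw [h3]
    exact Submodule.sum_mem _ fun i _ => M.R.smul_mem _ (hF i)

theorem Graphic_of_IsGr {M : BM E} {U : Finset V} {h t : E → V} (hg : IsGr M U h t) :
    Graphic M := by
  exact ⟨V, inferInstance, h, t, hg.rows⟩

end SEY
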