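import Pool.Agent.Helper39.SEY.GrBasic

/-!
# FRAME module FR-3: deletion and contraction of an edge

`IsGr.star_mem` is `IsGr.star_mem0` of GrBasic.

`IsGr.del`: `rows`: `mask (S \ {x}) (cob S h t π) = cob (S \ {x}) h t π` (`mask_cob`). `conn`: if `cob (S \ {x}) h t π = 0` then the row
`f = cob S h t π` vanishes outside `x`, so `0 = dot f z = f x * z x = f x`, so `f = 0`, use `hg.conn`. `ne`: if the only edge at
`v` is `x` then `star v = {x}`, `ind {x} ∈ M.R`, but `dot (ind {x}) z = z x = 1`.

`IsGr.con`: `u ≠ v` by `hg.ends`. Put `μ = mg u v`. `cob (S \ {x}) (μ ∘ h) (μ ∘ t) π = cob S h t (π ∘ μ)` (at `x` both sides are `0`). A row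
`cob π` of `M` vanishes at `x` iff `π u = π v` iff `π ∘ μ = π`. `ends`: `μ (h y) ≠ μ (t y)` for `y ≠ x`: otherwise `{h y, t y} = {u, v}`,
excluded by `hp`. `conn`: `cob (..) (π) = 0` gives `π ∘ μ` constant on `U`, and `μ w = w` for `w ∈ U.erase u`.
`ne`: let `w ∈ U.erase u`. If `w ≠ v`: an edge of `M` at `w` is not `x`, and `μ w = w`. If `w = v`: if all edges `≠ x` have no end in
`{u, v}` then `cob (indV {u, v}) = 0` (also at `x`), so `U = {u, v}` by `IsGr.indV_eq_zero`; but there is an edge `y ≠ x` (`h2`), its ends are in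
`U`; contradiction. So some `y ≠ x` has an end `u` or `v`, `μ` of it is `v`.

`IsGr.congr`: by `hj`, for `x ∈ M.S`, `{h' x, t' x} = {h x, t x}`; so `cob` is the same.
-/

set_option autoImplicit false

namespace SEY

open Finset

variable {E : Type} [Fintype E] [DecidableEq E]
variable {V : Type} [Fintype V] [DecidableEq V]

theorem IsGr.star_mem {M : BM E} {U : Finset V} {h t : E → V} (hg : IsGr M U h t) {v : V}
    (hv : v ∈ U) : ind (star M.S h t v) ∈ M.R := by
  have _ := hv
  exact hg.star_mem0 v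

theorem IsGr.del {M : BM E} {U : Finset V} {h t : E → V} (hg : IsGr M U h t) {x : E}
    (hx : x ∈ M.S) (hc : ∃ z ∈ M.Z, z x = 1) : IsGr (M.del {x}) U h t := by
  obtain ⟨z, hz, hzx⟩ := hc
  have hsub : M.S \ {x} ⊆ M.S := sdiff_subset
  have hdot : ∀ f ∈ M.R, (∀ e, e ≠ x → f e = 0) → f x = 0 := by
    intro f hf h0
    have h1 := hz.2 f hf
    unfold dot at h1
    rw [Finset.sum_eq_single x (fun e _ he => by rw [h0 e he, zero_mul])
      (fun h => absurd (Finset.mem_univ x) h), hzx, mul_one] at h1
    exact h1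
  constructor
  · intro e he
    exact hg.ends e (hsub he)
  · intro f
    constructor
    · rintro ⟨g, hg', rfl⟩
      obtain ⟨π, rfl⟩ := (hg.rows g).1 hg'
      exact ⟨π, mask_cob _ _ _ _ _ hsub⟩
    · rintro ⟨π, rfl⟩
      exact ⟨cob M.S h t π, hg.mem_R π, mask_cob _ _ _ _ _ hsub⟩
  · intro π hπ
    refine hg.conn π ?_
    have h1 : ∀ e, e ≠ x → cob M.S h t π e = 0 := by
      intro e he
      by_cases heS : e ∈ M.S
      · have h2 : e ∈ M.S \ {x} := mem_sdiff.2 ⟨heS, by simpa using he⟩
        have h3 : cob (M.S \ {x}) h t π e = 0 := congrFun hπ e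
        rw [cob_mem h2] at h3
        rw [cob_mem heS, h3]
      · exact cob_notMem heS
    funext e
    by_cases he : e = x
    · rw [he]
      exact hdot _ (hg.mem_R π) h1
    · exact h1 e he
  · intro v hv
    by_contra hn
    push Not at hn
    obtain ⟨e, heS, hev⟩ := hg.ne v hv
    have hex : ∀ e ∈ M.S, (h e = v ∨ t e = v) → e = x := by
      intro e he hev
      by_contra hne
      have h1 := hn e (mem_sdiff.2 ⟨he, by simpa using hne⟩)
      rcases hev with h2 | h2
      · exact h1.1 h2
      · exact h1.2 h2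
    have hstar : star M.S h t v = {x} := by
      ext y
      rw [mem_star, mem_singleton]
      constructor
      · rintro ⟨h1, h2⟩
        exact hex y h1 h2
      · rintro rfl
        have := hex e heS hev
        rw [this] at hev
        exact ⟨hx, hev⟩
    have h1 := hg.star_mem0 v
    rw [hstar] at h1
    have h2 := hdot _ h1 fun y hy => ind_notMem (by simpa using hy)
    rw [ind_mem (mem_singleton_self x)] at h2
    exact one_ne_zero h2

theorem mg_self (u v : V) : mg u v u = v := if_pos rfl

theorem mg_of_ne {u v w : V} (h : w ≠ u) : mg u v w = w := if_neg h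

theorem cob_mg {M : BM E} {h t : E → V} {x : E} {u v : V} (hj : Jn h t x u v) (huv : u ≠ v)
    (π : V → ZMod 2) :
    cob (M.S \ {x}) (fun e => mg u v (h e)) (fun e => mg u v (t e)) π =
      cob M.S h t (fun w => π (mg u v w)) := by
  funext e
  by_cases heS : e ∈ M.S
  · by_cases hex : e = x
    · have h1 : e ∉ M.S \ {x} := fun h => (mem_sdiff.1 h).2 (by simpa using hex)
      rw [cob_notMem h1, cob_mem heS, hex]
      have h2 : mg u v v = v := mg_of_ne huv.symm
      rcases hj with ⟨h3, h4⟩ | ⟨h3, h4⟩ <;>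
        rw [h3, h4, mg_self, h2] <;> exact (z2_add_self _).symm
    · have h1 : e ∈ M.S \ {x} := mem_sdiff.2 ⟨heS, by simpa using hex⟩
      rw [cob_mem h1, cob_mem heS]
  · have h1 : e ∉ M.S \ {x} := fun h => heS (mem_sdiff.1 h).1
    rw [cob_notMem h1, cob_notMem heS]

theorem IsGr.con {M : BM E} {U : Finset V} {h t : E → V} (hg : IsGr M U h t) {x : E} {u v : V}
    (hx : x ∈ M.S) (hj : Jn h t x u v) (hp : ∀ y ∈ M.S, y ≠ x → ¬ Jn h t y u v)
    (h2 : 2 ≤ M.S.card) :
    IsGr (M.con {x}) (U.erase u) (fun e => mg u v (h e)) (fun e => mg u v (t e)) := by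
  have hex := hg.ends x hx
  have huv : u ≠ v := by
    rintro rfl
    rcases hj with ⟨h1, h2⟩ | ⟨h1, h2⟩ <;> exact hex.2.2 (h1.trans h2.symm)
  have huU : u ∈ U := by
    rcases hj with ⟨h1, h2⟩ | ⟨h1, h2⟩
    · rw [← h1]; exact hex.1
    · rw [← h2]; exact hex.2.1
  have hvU : v ∈ U := by
    rcases hj with ⟨h1, h2⟩ | ⟨h1, h2⟩
    · rw [← h2]; exact hex.2.1
    · rw [← h1]; exact hex.1
  have hinc : ∀ w, Inc h t w x → w = u ∨ w = v := by
    intro w hw
    rcases hj with ⟨h1, h2⟩ | ⟨h1, h2⟩ <;> rcases hw with h3 | h3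
    · exact Or.inl (h3.symm.trans h1)
    · exact Or.inr (h3.symm.trans h2)
    · exact Or.inr (h3.symm.trans h1)
    · exact Or.inl (h3.symm.trans h2)
  have hmg : ∀ w ∈ U, mg u v w ∈ U.erase u := by
    intro w hw
    by_cases h1 : w = u
    · rw [h1, mg_self, mem_erase]
      exact ⟨huv.symm, hvU⟩
    · rw [mg_of_ne h1, mem_erase]
      exact ⟨h1, hw⟩
  constructor
  · intro e he
    have heS : e ∈ M.S := (mem_sdiff.1 he).1
    have hne : e ≠ x := fun h => (mem_sdiff.1 he).2 (by simpa using h)
    have h1 := hg.ends e heS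
    refine ⟨hmg _ h1.1, hmg _ h1.2.1, ?_⟩
    intro h2
    have h3 := hp e heS hne
    unfold Jn at h3
    push Not at h3
    by_cases h4 : h e = u <;> by_cases h5 : t e = u
    · exact h1.2.2 (h4.trans h5.symm)
    · rw [h4, mg_self, mg_of_ne h5] at h2
      exact h3.1 h4 h2.symm
    · rw [h5, mg_self, mg_of_ne h4] at h2
      exact h3.2 h2 h5
    · rw [mg_of_ne h4, mg_of_ne h5] at h2
      exact h1.2.2 h2
  · intro f
    constructor
    · rintro ⟨hf, hf0⟩
      obtain ⟨π, rfl⟩ := (hg.rows f).1 hf
      have h1 : π u = π v := by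
        have h2 := hf0 x (mem_singleton_self x)
        rw [cob_mem hx, z2_add_eq_zero] at h2
        rcases hj with ⟨h3, h4⟩ | ⟨h3, h4⟩
        · rw [h3, h4] at h2; exact h2
        · rw [h3, h4] at h2; exact h2.symm
      refine ⟨π, ?_⟩
      change cob M.S h t π = cob (M.S \ {x}) (fun e => mg u v (h e)) (fun e => mg u v (t e)) π
      rw [cob_mg hj huv]
      congr 1
      funext w
      by_cases h2 : w = u
      · rw [h2, mg_self, h1]
      · rw [mg_of_ne h2]
    · rintro ⟨π, hπ⟩
      change f = cob (M.S \ {x}) (fun e => mg u v (h e)) (fun e => mg u v (t e)) π at hπ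
      refine ⟨?_, ?_⟩
      · rw [hπ, cob_mg hj huv]
        exact hg.mem_R _
      · intro e he
        rw [hπ]
        exact cob_notMem fun h => (mem_sdiff.1 h).2 he
  · intro π hπ a ha b hb
    change cob (M.S \ {x}) (fun e => mg u v (h e)) (fun e => mg u v (t e)) π = 0 at hπ
    rw [cob_mg hj huv] at hπ
    have h1 := hg.conn _ hπ a (mem_erase.1 ha).2 b (mem_erase.1 hb).2
    rwa [mg_of_ne (mem_erase.1 ha).1, mg_of_ne (mem_erase.1 hb).1] at h1
  · intro w hw
    rw [mem_erase] at hw
    by_cases hwv : w = v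
    · by_contra hn
      push Not at hn
      have hno : ∀ e ∈ M.S, e ≠ x → ∀ a, Inc h t a e → a ∉ ({u, v} : Finset V) := by
        intro e heS hne a ha haA
        have h1 := hn e (mem_sdiff.2 ⟨heS, by simpa using hne⟩)
        rw [mem_insert, mem_singleton] at haA
        have h2 : mg u v a = w := by
          rcases haA with h3 | h3
          · rw [h3, mg_self, hwv]
          · rw [h3, mg_of_ne huv.symm, hwv]
        rcases ha with h3 | h3
        · exact h1.1 (by rw [h3]; exact h2)
        · exact h1.2 (by rw [h3]; exact h2)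
      have h0 : cob M.S h t (indV {u, v}) = 0 := by
        funext e
        by_cases hex' : e = x
        · rw [hex']
          refine cob_indV_sub fun a ha => ?_
          rw [mem_insert, mem_singleton]
          exact hinc a ha
        · by_cases heS : e ∈ M.S
          · exact cob_indV_disj (hno e heS hex')
          · exact cob_notMem heS
      have hsub : ({u, v} : Finset V) ⊆ U := by
        intro a ha
        rw [mem_insert, mem_singleton] at ha
        rcases ha with h1 | h1
        · rw [h1]; exact huU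
        · rw [h1]; exact hvU
      rcases hg.indV_eq_zero hsub h0 with h1 | h1
      · exact (Finset.insert_ne_empty _ _) h1
      · obtain ⟨y, hy, hyx⟩ := Finset.exists_mem_ne (s := M.S) (by omega) x
        have h3 := (hg.ends y hy).1
        rw [← h1] at h3
        exact hno y hy hyx _ (Or.inl rfl) h3
    · obtain ⟨e, heS, he⟩ := hg.ne w hw.2
      have hne : e ≠ x := by
        rintro rfl
        rcases hinc w he with h1 | h1
        · exact hw.1 h1
        · exact hwv h1
      refine ⟨e, mem_sdiff.2 ⟨heS, by simpa using hne⟩, ?_⟩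
      have h2 : mg u v w = w := mg_of_ne hw.1
      rcases he with h1 | h1
      · left
        rw [h1, h2]
      · right
        rw [h1, h2]

/-- The ends of the edges may be exchanged. -/
theorem IsGr.congr {M : BM E} {U : Finset V} {h t h' t' : E → V} (hg : IsGr M U h t)
    (hj : ∀ x ∈ M.S, Jn h t x (h' x) (t' x)) : IsGr M U h' t' := by
  have hcob : ∀ π : V → ZMod 2, cob M.S h' t' π = cob M.S h t π := by
    intro π
    funext e
    by_cases he : e ∈ M.S
    · rw [cob_mem he, cob_mem he]
      rcases hj e he with ⟨h1, h2⟩ | ⟨h1, h2⟩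
      · rw [h1, h2]
      · rw [h1, h2, add_comm]
    · rw [cob_notMem he, cob_notMem he]
  constructor
  · intro e he
    have h0 := hg.ends e he
    rcases hj e he with ⟨h1, h2⟩ | ⟨h1, h2⟩
    · rw [← h1, ← h2]; exact h0
    · rw [← h1, ← h2]; exact ⟨h0.2.1, h0.1, h0.2.2.symm⟩
  · intro f
    rw [hg.rows f]
    exact exists_congr fun π => by rw [hcob]
  · intro π hπ
    rw [hcob] at hπ
    exact hg.conn π hπ
  · intro v hv
    obtain ⟨e, he, hev⟩ := hg.ne v hv
    refine ⟨e, he, ?_⟩
    rcases hj e he with ⟨h1, h2⟩ | ⟨h1, h2⟩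
    · rw [← h1, ← h2]; exact hev
    · rw [← h1, ← h2]; exact hev.symm

end SEY
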