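import Pool.Agent.Helper39.SEY.GrBasic

/-!
# FRAME module FR-4: separations of graphs, degrees, parallel edges

`IsGr.sep`: let `T = U \ (X ∪ Y)`. If `T` is nonempty use `IsGr.sep0` of GrBasic with `Z = X` (an edge with one end in `X` has its
other end in `U \ Y`; the set of edges is `meet M.S h t X` by definition). If `T = ∅` then `U = X ∪ Y` and
`cob (indV X) = 0` (no edge between `X` and `Y`), so `X = ∅` or `X = U` by `IsGr.indV_eq_zero`, contradiction.

`IsGr.card_U`: `IsGr.rank`.

`IsGr.two_le_deg`: the star of `v` is nonempty (`exists_inc`). If it is `{x}` then `ind {x} ∈ M.R` (`IsGr.star_mem0`), but there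
is `z ∈ M.Z` with `z x = 1` (`SC_not_coloop`), `dot (ind {x}) z = z x = 1 ≠ 0`.

`IsGr.no_par`: suppose `x ≠ y`. All rows agree at `x` and `y`, so `ind {x, y} ∈ M.Z`; `SC_cycle` gives `a, b` in `{x, y}`, not in series,
so `¬ Ser x y` (`Ser` is symmetric and reflexive). `M.lam {x, y} ≤ M.r {x, y} ≤ 1` (`lam_le_r`; rank `≤ 1`: for example
`r_add_dZ` with `dZ {x,y} ≥ 1` by `dZ_pos_iff`). The second clause of `SC` for `A = {x, y}`: either `x, y` are in series, contradiction, or
all elements of `S \ {x, y}` are in series; then of the four elements `s 0, .., s 3` of the first clause of `SC` two are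
equal or both in `S \ {x, y}` (pigeonhole; `Ser a a` holds), contradiction.
-/

set_option autoImplicit false

namespace SEY

open Finset

variable {E : Type} [Fintype E] [DecidableEq E]
variable {V : Type} [Fintype V] [DecidableEq V]

/-- Separation by vertices. -/
theorem IsGr.sep {M : BM E} {U : Finset V} {h t : E → V} (hg : IsGr M U h t) (X Y : Finset V)
    (hX : X ⊆ U) (hY : Y ⊆ U) (hXY : Disjoint X Y) (hX0 : X.Nonempty) (hY0 : Y.Nonempty)
    (hno : ∀ x ∈ M.S, ∀ u ∈ X, ∀ v ∈ Y, ¬ Jn h t x u v) :
    M.lam (M.S.filter (fun x => h x ∈ X ∨ t x ∈ X)) + 1 ≤ (U \ (X ∪ Y)).card := by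
  by_cases hT : (U \ (X ∪ Y)).Nonempty
  · refine hg.sep0 hT hX0 hX ?_ ?_
    · obtain ⟨y, hy⟩ := hY0
      exact ⟨y, hY hy, fun hyX => disjoint_left.1 hXY hyX hy⟩
    · intro e he z hz hze v hv
      have hvU := hg.inc_mem he hv
      by_cases hvX : v ∈ X
      · exact mem_union_left _ hvX
      · have hvz : v ≠ z := fun h' => hvX (h' ▸ hz)
        have hvY : v ∉ Y := by
          intro hvY
          apply hno e he z hz v hvY
          rcases hze with h1 | h1 <;> rcases hv with h2 | h2
          · exact absurd (h2.symm.trans h1) hvz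
          · exact Or.inl ⟨h1, h2⟩
          · exact Or.inr ⟨h2, h1⟩
          · exact absurd (h2.symm.trans h1) hvz
        refine mem_union_right _ (mem_sdiff.2 ⟨hvU, fun h' => ?_⟩)
        rcases mem_union.1 h' with h' | h'
        · exact hvX h'
        · exact hvY h'
  · exfalso
    rw [not_nonempty_iff_eq_empty, sdiff_eq_empty_iff_subset] at hT
    have h0 : cob M.S h t (indV X) = 0 := by
      funext e
      by_cases he : e ∈ M.S
      · obtain ⟨h1, h2, -⟩ := hg.ends e he
        have key : ∀ v w, Jn h t e v w → v ∈ X → w ∈ U → w ∈ X := by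
          intro v w hj hv hw
          rcases mem_union.1 (hT hw) with h' | h'
          · exact h'
          · exact absurd hj (hno e he v hv w h')
        by_cases hh : h e ∈ X
        · have ht := key _ _ (Or.inl ⟨rfl, rfl⟩) hh h2
          refine cob_indV_sub fun v hv => ?_
          rcases hv with rfl | rfl
          · exact hh
          · exact ht
        · have ht : t e ∉ X := fun ht => hh (key _ _ (Or.inr ⟨rfl, rfl⟩) ht h1)
          refine cob_indV_disj fun v hv => ?_
          rcases hv with rfl | rfl
          · exact hh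
          · exact ht
      · exact cob_notMem he
    rcases hg.indV_eq_zero hX h0 with h1 | h1
    · exact hX0.ne_empty h1
    · obtain ⟨y, hy⟩ := hY0
      exact disjoint_left.1 hXY (h1 ▸ hY hy) hy

theorem IsGr.card_U {M : BM E} {U : Finset V} {h t : E → V} (hg : IsGr M U h t)
    (hne : M.S.Nonempty) : M.r M.S + 1 = U.card := by
  obtain ⟨e, he⟩ := hne
  exact hg.rank ⟨h e, (hg.ends e he).1⟩

/-- In an `SC` graph all degrees are at least two. -/
theorem IsGr.two_le_deg {M : BM E} {U : Finset V} {h t : E → V} (hg : IsGr M U h t)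
    (hsc : M.SC) {v : V} (hv : v ∈ U) : 2 ≤ (star M.S h t v).card := by
  obtain ⟨e, he, hi⟩ := hg.exists_inc hv
  have h1 : 0 < (star M.S h t v).card := card_pos.2 ⟨e, mem_star.2 ⟨he, hi⟩⟩
  by_contra h2
  have h3 : (star M.S h t v).card = 1 := by omega
  obtain ⟨x, hx⟩ := card_eq_one.1 h3
  have hxS : x ∈ M.S := by
    have : x ∈ star M.S h t v := by
      rw [hx]
      exact mem_singleton_self x
    exact (mem_star.1 this).1
  have h4 := hg.star_mem0 v
  rw [hx] at h4
  obtain ⟨z, hz, hz1⟩ := SC_not_coloop M hsc x hxS
  have h5 := M.dot_eq_zero h4 hz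
  rw [ind_dot, sum_singleton, hz1] at h5
  exact one_ne_zero h5

/-- If `S \ A` is contained in a series class and `A` in the union of two series classes, there are at
most three series classes. -/
theorem SC_three {M : BM E} (hsc : M.SC) (c : E → Fin 3)
    (hc : ∀ a ∈ M.S, ∀ b ∈ M.S, c a = c b → M.Ser a b) : False := by
  obtain ⟨⟨s, hs, hs2⟩, -⟩ := hsc
  obtain ⟨i, j, hij, hcij⟩ := Fintype.exists_ne_map_eq_of_card_lt (fun i => c (s i)) (by simp)
  exact hs2 i j hij (hc _ (hs i) _ (hs j) hcij)

/-- There are no parallel edges in an `SC` graph. -/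
theorem IsGr.no_par {M : BM E} {U : Finset V} {h t : E → V} (hg : IsGr M U h t)
    (hsc : M.SC) {x y : E} (hx : x ∈ M.S) (hy : y ∈ M.S) {u v : V} (hju : Jn h t x u v)
    (hjv : Jn h t y u v) : x = y := by
  by_contra hxy
  have hA : ({x, y} : Finset E) ⊆ M.S := by
    intro e he
    rw [mem_insert, mem_singleton] at he
    rcases he with rfl | rfl
    · exact hx
    · exact hy
  have hrow : ∀ f ∈ M.R, f x = f y := by
    intro f hf
    obtain ⟨π, rfl⟩ := (hg.rows f).1 hf
    rw [cob_mem hx, cob_mem hy]
    rcases hju with ⟨a1, a2⟩ | ⟨a1, a2⟩ <;> rcases hjv with ⟨b1, b2⟩ | ⟨b1, b2⟩ <;>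
      rw [a1, a2, b1, b2]
    · exact add_comm _ _
    · exact add_comm _ _
  have hz : ind ({x, y} : Finset E) ∈ M.Z := by
    rw [BM.mem_Z]
    refine ⟨fun e he => ind_notMem fun h' => he (hA h'), fun f hf => ?_⟩
    rw [dot_ind, sum_pair hxy, hrow f hf]
    exact z2_add_self _
  have hz0 : (ind ({x, y} : Finset E) : E → ZMod 2) ≠ 0 := by
    intro h0
    have := congrFun h0 x
    rw [ind_mem (mem_insert_self x _)] at this
    exact one_ne_zero this
  have hser : ¬ M.Ser x y := by
    obtain ⟨a, b, ha, hb, hab⟩ := SC_cycle M hsc _ hz hz0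
    have hmem : ∀ a : E, ind ({x, y} : Finset E) a = 1 → a = x ∨ a = y := by
      intro a ha
      by_contra h'
      push Not at h'
      rw [ind_notMem (by
        rw [mem_insert, mem_singleton]
        rintro (h'' | h'')
        · exact h'.1 h''
        · exact h'.2 h'')] at ha
      exact zero_ne_one ha
    intro hs
    rcases hmem a ha with rfl | rfl <;> rcases hmem b hb with rfl | rfl
    · exact hab fun _ _ => rfl
    · exact hab hs
    · exact hab fun z hz => (hs z hz).symm
    · exact hab fun _ _ => rfl
  have hlam : M.lam {x, y} ≤ 1 := by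
    have h1 := M.r_add_dZ hA
    rw [card_pair hxy] at h1
    have h2 : 0 < M.dZ {x, y} := by
      rw [BM.dZ_pos_iff]
      exact ⟨_, hz, hz0, fun e he => ind_notMem he⟩
    have h3 := M.lam_le_r {x, y}
    omega
  rcases hsc.2 _ hA hlam with h1 | h1
  · exact hser (h1 x (mem_insert_self x _) y (mem_insert_of_mem (mem_singleton_self y)))
  · refine SC_three hsc (fun e => if e = x then 0 else if e = y then 1 else 2) ?_
    intro a ha b hb hab
    by_cases hax : a = x
    · by_cases hbx : b = x
      · rw [hax, hbx]
        exact fun _ _ => rfl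
      · exfalso
        rw [if_pos hax, if_neg hbx] at hab
        by_cases hby : b = y
        · rw [if_pos hby] at hab
          exact absurd hab (by decide)
        · rw [if_neg hby] at hab
          exact absurd hab (by decide)
    · rw [if_neg hax] at hab
      by_cases hbx : b = x
      · exfalso
        rw [if_pos hbx] at hab
        by_cases hay : a = y
        · rw [if_pos hay] at hab
          exact absurd hab (by decide)
        · rw [if_neg hay] at hab
          exact absurd hab (by decide)
      · rw [if_neg hbx] at hab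
        by_cases hay : a = y
        · by_cases hby : b = y
          · rw [hay, hby]
            exact fun _ _ => rfl
          · exfalso
            rw [if_pos hay, if_neg hby] at hab
            exact absurd hab (by decide)
        · by_cases hby : b = y
          · exfalso
            rw [if_neg hay, if_pos hby] at hab
            exact absurd hab (by decide)
          · apply h1
            · rw [mem_sdiff, mem_insert, mem_singleton]
              exact ⟨ha, fun h' => h'.elim hax hay⟩
            · rw [mem_sdiff, mem_insert, mem_singleton]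
              exact ⟨hb, fun h' => h'.elim hbx hby⟩

end SEY
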