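import Pool.Agent.Helper39.SEY.GrUniq
import Pool.Agent.Helper39.SEY.FrMinor
import Pool.Agent.Helper39.SEY.FrStar2

/-!
# FRAME: uniqueness of the frame of a 3-connected matroid, and up to swaps of an `SC` matroid
-/

set_option autoImplicit false
set_option linter.unusedSectionVars false

namespace SEY

open Finset

variable {E : Type} [Fintype E] [DecidableEq E]
variable {V : Type} [Fintype V] [DecidableEq V]

/-- Uniqueness of the graph of a 3-connected graphic matroid. -/
theorem uniq {V' : Type} [Fintype V'] [DecidableEq V'] {M : BM E} (hTC : M.TC)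
    {U : Finset V} {h t : E → V} {U' : Finset V'} {h' t' : E → V'}
    (hg : IsGr M U h t) (hg' : IsGr M U' h' t') (v : V) (hv : v ∈ U) :
    ∃ v' ∈ U', star M.S h' t' v' = star M.S h t v := by
  obtain ⟨v', hv', h1⟩ := IsGr.uniq_aux hg' hg (fun A hA => (hTC.2 A hA).1)
    (fun A hA => (hTC.2 A hA).2)
    (fun v hv => hg.two_le_deg ((TC_iff_SC M).1 hTC).1 hv) hv
  rw [hg.cob_singleton, hg'.cob_singleton] at h1
  exact ⟨v', hv', (ind_inj.1 h1).symm⟩

theorem jn_inc_left {h t : E → V} {x : E} {u v : V} (hj : Jn h t x u v) : Inc h t u x := by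
  rcases hj with ⟨h1, h2⟩ | ⟨h1, h2⟩
  · exact Or.inl h1
  · exact Or.inr h2

theorem jn_inc_right {h t : E → V} {x : E} {u v : V} (hj : Jn h t x u v) : Inc h t v x := by
  rcases hj with ⟨h1, h2⟩ | ⟨h1, h2⟩
  · exact Or.inr h2
  · exact Or.inl h1

theorem jn_symm {h t : E → V} {x : E} {u v : V} (hj : Jn h t x u v) : Jn h t x v u :=
  hj.symm

theorem jn_of_inc {h t : E → V} {x : E} {u v : V} (hu : Inc h t u x) (hv : Inc h t v x)
    (huv : u ≠ v) : Jn h t x u v := by
  rcases hu with hu | hu <;> rcases hv with hv | hv
  · exact absurd (hu.symm.trans hv) huv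
  · exact Or.inl ⟨hu, hv⟩
  · exact Or.inr ⟨hv, hu⟩
  · exact absurd (hu.symm.trans hv) huv

/-- Distinct vertices have distinct stars. -/
theorem IsGr.star_inj {M : BM E} {U : Finset V} {h t : E → V} (hg : IsGr M U h t)
    (hsc : M.SC) {v w : V} (hv : v ∈ U) (hs : star M.S h t v = star M.S h t w) : v = w := by
  by_contra hvw
  have h2 := hg.two_le_deg hsc hv
  obtain ⟨x, hx, y, hy, hxy⟩ := one_lt_card.1 (show 1 < (star M.S h t v).card by omega)
  have hx' := hx
  have hy' := hy
  rw [hs] at hx' hy'
  rw [mem_star] at hx hy hx' hy'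
  exact hxy (hg.no_par hsc hx.1 hy.1 (jn_of_inc hx.2 hx'.2 hvw) (jn_of_inc hy.2 hy'.2 hvw))

/-- Two frames agree up to a bijection of the vertices and swaps. -/
def UniqSw {V' : Type} [Fintype V'] [DecidableEq V'] (S : Finset E) (U : Finset V) (h t : E → V)
    (U' : Finset V') (h' t' : E → V') : Prop :=
  ∃ (φ : V → V') (SS : Finset V), (∀ v ∈ U, φ v ∈ U') ∧
    (∀ v ∈ U, ∀ w ∈ U, φ v = φ w → v = w) ∧ (∀ v' ∈ U', ∃ v ∈ U, φ v = v') ∧ SS ⊆ U ∧
    (∀ s ∈ SS, (star S h t s).card = 2) ∧
    ∀ v ∈ U, (ind (star S h' t' (φ v)) : E → ZMod 2) = ind (star S h t v) +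
      ∑ s ∈ SS, ((S.filter (fun x => Jn h t x s v)).card : ZMod 2) • ind (star S h t s)

theorem uniqSw_tc {V' : Type} [Fintype V'] [DecidableEq V'] {M : BM E} (hTC : M.TC)
    {U : Finset V} {h t : E → V} {U' : Finset V'} {h' t' : E → V'}
    (hg : IsGr M U h t) (hg' : IsGr M U' h' t') : UniqSw M.S U h t U' h' t' := by
  have hsc := ((TC_iff_SC M).1 hTC).1
  have h1 := uniq hTC hg hg'
  have h1' := uniq hTC hg' hg
  classical
  have hne : ∀ v : V, ∃ v' : V', v ∈ U → v' ∈ U' ∧ star M.S h' t' v' = star M.S h t v := by
    intro v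
    by_cases hv : v ∈ U
    · obtain ⟨v', h2, h3⟩ := h1 v hv
      exact ⟨v', fun _ => ⟨h2, h3⟩⟩
    · obtain ⟨hS, -⟩ := hTC
      obtain ⟨e, -⟩ := card_pos.1 (show 0 < M.S.card by omega)
      exact ⟨h' e, fun h => absurd h hv⟩
  choose φ hφ using hne
  refine ⟨φ, ∅, fun v hv => (hφ v hv).1, ?_, ?_, empty_subset _, by simp, ?_⟩
  · intro v hv w hw hvw
    refine hg.star_inj hsc hv ?_
    rw [← (hφ v hv).2, ← (hφ w hw).2, hvw]
  · intro v' hv'
    obtain ⟨v, hv, h2⟩ := h1' v' hv'
    refine ⟨v, hv, ?_⟩
    refine hg'.star_inj hsc (hφ v hv).1 ?_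
    rw [(hφ v hv).2, h2]
  · intro v hv
    rw [sum_empty, add_zero, (hφ v hv).2]

/-- The star of `v` after contracting the edge `b` at `s`, as a vector. -/
theorem ind_star_con {M : BM E} {U : Finset V} {h t : E → V} (hg : IsGr M U h t) {b : E}
    {s w : V} (hb : b ∈ M.S) (hj : Jn h t b s w) (hp : ∀ y ∈ M.S, y ≠ b → ¬ Jn h t y s w)
    (h2 : 2 ≤ M.S.card) {v : V} (hv : v ≠ s) :
    (ind (star (M.S \ {b}) (fun e => mg s w (h e)) (fun e => mg s w (t e)) v) : E → ZMod 2) =
      ind (star M.S h t v) + (if v = w then (1 : ZMod 2) else 0) • ind (star M.S h t s) := by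
  have hg1 := hg.con hb hj hp h2
  have e1 := hg1.cob_singleton v
  have hsw : s ≠ w := by
    rcases hj with ⟨h3, h4⟩ | ⟨h3, h4⟩
    · intro h5; exact (hg.ends b hb).2.2 (by rw [h3, h4, h5])
    · intro h5; exact (hg.ends b hb).2.2 (by rw [h3, h4, h5])
  rw [show (M.con {b}).S = M.S \ {b} from rfl] at e1
  rw [← e1, ← hg.cob_singleton, ← hg.cob_singleton]
  have key : ∀ x, indV ({v} : Finset V) (mg s w x) =
      indV {v} x + (if v = w then (1 : ZMod 2) else 0) * indV {s} x := by
    intro x
    unfold mg indV
    simp only [mem_singleton]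
    by_cases hxs : x = s
    · subst hxs
      by_cases hvw : v = w
      · subst hvw
        simp [hsw]
      · have : ¬ w = v := fun h => hvw h.symm
        have : ¬ x = v := fun h => hv h.symm
        simp [*]
    · by_cases hvw : v = w <;> simp [hxs, hvw]
  funext e
  rw [Pi.add_apply, Pi.smul_apply, smul_eq_mul]
  by_cases he : e ∈ M.S
  · rw [cob_mem he, cob_mem he]
    by_cases heb : e = b
    · subst heb
      rw [cob_notMem (by simp)]
      have : indV ({v} : Finset V) (mg s w (h e)) = indV {v} (mg s w (t e)) := by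
        rcases hj with ⟨h3, h4⟩ | ⟨h3, h4⟩
        · rw [h3, h4]; unfold mg; simp [hsw.symm]
        · rw [h3, h4]; unfold mg; simp [hsw.symm]
      rw [key, key] at this
      have h5 := congrArg (fun z => z + (indV {v} (t e) +
        (if v = w then (1 : ZMod 2) else 0) * indV {s} (t e))) this
      simp only [z_add_self] at h5
      refine h5.symm.trans ?_
      ring
    · rw [cob_mem (by simp [he, heb]), key, key]
      ring
  · rw [cob_notMem he, cob_notMem he, cob_notMem (by simp [he])]
    ring

theorem Two_con {M : BM E} (h2 : M.Two) {b : E}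
    (hser : ∀ x ∈ M.S, x ≠ b → ∀ y ∈ M.S, y ≠ b → ((M.con {b}).Ser x y ↔ M.Ser x y)) :
    (M.con {b}).Two := by
  intro x hx y hy z hz hxy hxz
  simp only [BM.con_S, mem_sdiff, mem_singleton] at hx hy hz
  exact h2 x hx.1 y hy.1 z hz.1 ((hser x hx.1 hx.2 y hy.1 hy.2).1 hxy)
    ((hser x hx.1 hx.2 z hz.1 hz.2).1 hxz)

/-- Uniqueness up to swaps. -/
theorem uniqSw {V' : Type} [Fintype V'] [DecidableEq V'] (n : ℕ) : ∀ {M : BM E},
    M.S.card = n → M.SC → M.Two → ∀ {U : Finset V} {h t : E → V} {U' : Finset V'}
    {h' t' : E → V'}, IsGr M U h t → IsGr M U' h' t' → UniqSw M.S U h t U' h' t' := by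
  induction n with
  | zero =>
    intro M hn hsc
    obtain ⟨s, hs, -⟩ := hsc.1
    have := card_pos.2 ⟨_, hs 0⟩
    omega
  | succ n ih =>
    intro M hn hsc hTwo U h t U' h' t' hg hg'
    by_cases hT : ∀ a ∈ M.S, ∀ b ∈ M.S, M.Ser a b → a = b
    · exact uniqSw_tc ((TC_iff_SC M).2 ⟨hsc, hT⟩) hg hg'
    push Not at hT
    obtain ⟨a0, ha0, b0, hb0, hab0, hne0⟩ := hT
    obtain ⟨s, hs, hstar0⟩ := (hg.star2 hsc hTwo ha0 hb0 hne0).1 hab0
    obtain ⟨a, b, u, w, ha, hb, hab, hst, hau, hbw, hu, hw, huw, hus, hws, hu3, hw3, -, -⟩ :=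
      hg.deg2 hsc hTwo hs (by rw [hstar0, card_pair hne0])
    have hser : M.Ser a b := (hg.star2 hsc hTwo ha hb hab).2 ⟨s, hs, hst⟩
    obtain ⟨s', hs', hst'⟩ := (hg'.star2 hsc hTwo ha hb hab).1 hser
    -- ends of `a` and `b` in the second frame
    have hai' : Inc h' t' s' a := (mem_star.1 (hst' ▸ mem_insert_self a {b})).2
    have hbi' : Inc h' t' s' b := (mem_star.1 (hst' ▸ mem_insert_of_mem (mem_singleton_self b))).2
    obtain ⟨u', hu', hus', hua', -⟩ := hg'.two_ends ha hai'
    obtain ⟨w', hw', hws', hwb', -⟩ := hg'.two_ends hb hbi'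
    have hau' : Jn h' t' a s' u' := jn_of_inc hai' hua' hus'.symm
    have hbw' : Jn h' t' b s' w' := jn_of_inc hbi' hwb' hws'.symm
    have huw' : u' ≠ w' := by
      intro h1
      exact hab (hg'.no_par hsc ha hb hau' (h1 ▸ hbw'))
    have hp : ∀ y ∈ M.S, y ≠ b → ¬ Jn h t y s w := fun y hy hyb hj =>
      hyb (hg.no_par hsc hy hb hj hbw)
    have hp' : ∀ y ∈ M.S, y ≠ b → ¬ Jn h' t' y s' w' := fun y hy hyb hj =>
      hyb (hg'.no_par hsc hy hb hj hbw')
    have hcard : 2 ≤ M.S.card := by
      have := card_le_card (show ({a, b} : Finset E) ⊆ M.S from by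
        intro x hx
        rw [mem_insert, mem_singleton] at hx
        rcases hx with rfl | rfl <;> assumption)
      rw [card_pair hab] at this
      exact this
    have hg1 := hg.con hb hbw hp hcard
    have hg1' := hg'.con hb hbw' hp' hcard
    obtain ⟨hsc1, hser1⟩ := SC_con M hsc b a hb ha hab.symm (fun z hz => (hser z hz).symm)
    have hTwo1 := Two_con hTwo hser1
    have hn1 : (M.con {b}).S.card = n := by
      rw [BM.con_S, card_sdiff_of_subset (singleton_subset_iff.2 hb), card_singleton, hn]
      rfl
    obtain ⟨φ, SS, h1, h2, h3, h4, h5, h6⟩ := ih hn1 hsc1 hTwo1 hg1 hg1'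
    simp only [BM.con_S] at h5 h6
    -- translation of the stars
    have k1 : ∀ v, v ≠ s → (ind (star (M.S \ {b}) (fun e => mg s w (h e))
        (fun e => mg s w (t e)) v) : E → ZMod 2) = ind (star M.S h t v) +
          (if v = w then (1 : ZMod 2) else 0) • ind {a, b} := by
      intro v hv
      rw [ind_star_con hg hb hbw hp hcard hv, hst]
    have k1' : ∀ v, v ≠ s' → (ind (star (M.S \ {b}) (fun e => mg s' w' (h' e))
        (fun e => mg s' w' (t' e)) v) : E → ZMod 2) = ind (star M.S h' t' v) +
          (if v = w' then (1 : ZMod 2) else 0) • ind {a, b} := by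
      intro v hv
      rw [ind_star_con hg' hb hbw' hp' hcard hv, hst']
    -- the vertices of `SS`
    have hSSs : ∀ r ∈ SS, r ≠ s := fun r hr => (mem_erase.1 (h4 hr)).1
    have hSSw : ∀ r ∈ SS, r ≠ w := by
      rintro r hr rfl
      have e1 := h5 r hr
      have e2 := k1 r hws
      rw [if_pos rfl, one_smul, ind_add] at e2
      rw [ind_inj.1 e2] at e1
      have e3 : a ∉ star M.S h t r := fun h7 => by
        rw [mem_star] at h7
        rcases inc_le (jn_inc_left hau) (jn_inc_right hau) h7.2 hus.symm with h8 | h8
        · exact hws h8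
        · exact huw h8.symm
      have e4 : b ∈ star M.S h t r := mem_star.2 ⟨hb, jn_inc_right hbw⟩
      have e5 : symmDiff (star M.S h t r) {a, b} = insert a ((star M.S h t r).erase b) := by
        ext x
        simp only [mem_symmDiff, mem_insert, mem_erase, mem_singleton]
        by_cases hxa : x = a
        · subst hxa; simp [e3]
        · by_cases hxb : x = b
          · subst hxb; simp [e4, hxa]
          · simp [hxa, hxb]
      rw [e5, card_insert_of_notMem (fun h7 => e3 (mem_of_mem_erase h7)),
        card_erase_of_mem e4] at e1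
      omega
    have k2 : ∀ r ∈ SS, star (M.S \ {b}) (fun e => mg s w (h e)) (fun e => mg s w (t e)) r =
        star M.S h t r := by
      intro r hr
      have := k1 r (hSSs r hr)
      rw [if_neg (hSSw r hr), zero_smul, add_zero] at this
      exact ind_inj.1 this
    have hSSu : ∀ r ∈ SS, r ≠ u := by
      rintro r hr rfl
      have := h5 r hr
      rw [k2 r hr] at this
      omega
    -- the numbers of edges
    have k3 : ∀ r ∈ SS, ∀ v, v ≠ s → ((M.S \ {b}).filter (fun x => Jn (fun e => mg s w (h e))
        (fun e => mg s w (t e)) x r v)) = M.S.filter (fun x => Jn h t x r v) := by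
      intro r hr v hv
      have hrs := hSSs r hr
      have hrw := hSSw r hr
      have hru := hSSu r hr
      ext x
      rw [mem_filter, mem_filter, mem_sdiff, mem_singleton]
      by_cases hxb : x = b
      · subst hxb
        constructor
        · rintro ⟨⟨-, h7⟩, -⟩
          exact absurd rfl h7
        · rintro ⟨-, h7⟩
          rcases inc_le (jn_inc_left hbw) (jn_inc_right hbw) (jn_inc_left h7) hws.symm with h8 | h8
          · exact absurd h8 hrs
          · exact absurd h8 hrw
      by_cases hxa : x = a
      · subst hxa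
        constructor
        · rintro ⟨-, h7⟩
          exfalso
          have hm1 : mg s w s = w := if_pos rfl
          have hm2 : mg s w u = u := if_neg hus
          rcases hau with ⟨h8, h9⟩ | ⟨h8, h9⟩ <;> rcases h7 with ⟨h10, h11⟩ | ⟨h10, h11⟩ <;>
            simp only [h8, h9, hm1, hm2] at h10 h11 <;> first
            | exact hrw h10.symm | exact hrw h11.symm | exact hru h10.symm | exact hru h11.symm
        · rintro ⟨-, h7⟩
          rcases inc_le (jn_inc_left hau) (jn_inc_right hau) (jn_inc_left h7) hus.symm with h8 | h8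
          · exact absurd h8 hrs
          · exact absurd h8 hru
      · have hxs : x ∈ M.S → ¬ Inc h t s x := by
          intro hxS hi
          have : x ∈ star M.S h t s := mem_star.2 ⟨hxS, hi⟩
          rw [hst, mem_insert, mem_singleton] at this
          rcases this with h7 | h7
          · exact hxa h7
          · exact hxb h7
        constructor
        · rintro ⟨⟨hxS, -⟩, h7⟩
          have e1 : mg s w (h x) = h x := if_neg fun h8 => hxs hxS (Or.inl h8)
          have e2 : mg s w (t x) = t x := if_neg fun h8 => hxs hxS (Or.inr h8)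
          unfold Jn at h7
          beta_reduce at h7
          rw [e1, e2] at h7
          exact ⟨hxS, h7⟩
        · rintro ⟨hxS, h7⟩
          have e1 : mg s w (h x) = h x := if_neg fun h8 => hxs hxS (Or.inl h8)
          have e2 : mg s w (t x) = t x := if_neg fun h8 => hxs hxS (Or.inr h8)
          refine ⟨⟨hxS, hxb⟩, ?_⟩
          unfold Jn
          beta_reduce
          rw [e1, e2]
          exact h7
    have k4 : ∀ r ∈ SS, M.S.filter (fun x => Jn h t x r s) = ∅ := by
      intro r hr
      rw [filter_eq_empty_iff]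
      intro x hx h7
      have h8 : x ∈ star M.S h t s := mem_star.2 ⟨hx, jn_inc_right h7⟩
      rw [hst, mem_insert, mem_singleton] at h8
      rcases h8 with rfl | rfl
      · rcases inc_le (jn_inc_left hau) (jn_inc_right hau) (jn_inc_left h7) hus.symm with h8 | h8
        · exact hSSs r hr h8
        · exact hSSu r hr h8
      · rcases inc_le (jn_inc_left hbw) (jn_inc_right hbw) (jn_inc_left h7) hws.symm with h8 | h8
        · exact hSSs r hr h8
        · exact hSSw r hr h8
    have hφs : ∀ v ∈ U, v ≠ s → φ v ∈ U' ∧ φ v ≠ s' := by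
      intro v hv hvs
      have := h1 v (mem_erase.2 ⟨hvs, hv⟩)
      rw [mem_erase] at this
      exact ⟨this.2, this.1⟩
    -- the main equation
    have k5 : ∀ v ∈ U, v ≠ s → (ind (star M.S h' t' (φ v)) : E → ZMod 2) +
        (if φ v = w' then (1 : ZMod 2) else 0) • ind {a, b} = ind (star M.S h t v) +
          (if v = w then (1 : ZMod 2) else 0) • ind {a, b} + ∑ r ∈ SS,
          ((M.S.filter (fun x => Jn h t x r v)).card : ZMod 2) • ind (star M.S h t r) := by
      intro v hv hvs
      rw [← k1' _ (hφs v hv hvs).2, ← k1 v hvs, h6 v (mem_erase.2 ⟨hvs, hv⟩)]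
      congr 1
      refine sum_congr rfl fun r hr => ?_
      rw [k3 r hr v hvs, k2 r hr]
    have hadd : ∀ x y z : E → ZMod 2, x + y = z → x = z + y := by
      rintro x y z rfl
      rw [add_assoc, z2_vec_add_self, add_zero]
    -- the extended bijection
    set ψ : V → V' := fun v => if v = s then s' else φ v with hψ
    have ψs : ψ s = s' := if_pos rfl
    have ψn : ∀ v, v ≠ s → ψ v = φ v := fun v hv => if_neg hv
    have p1 : ∀ v ∈ U, ψ v ∈ U' := by
      intro v hv
      by_cases hvs : v = s
      · rw [hvs, ψs]; exact hs'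
      · rw [ψn v hvs]; exact (hφs v hv hvs).1
    have p2 : ∀ v ∈ U, ∀ x ∈ U, ψ v = ψ x → v = x := by
      intro v hv x hx hvx
      by_cases hvs : v = s <;> by_cases hxs : x = s
      · rw [hvs, hxs]
      · rw [hvs, ψs, ψn x hxs] at hvx
        exact absurd hvx.symm (hφs x hx hxs).2
      · rw [hxs, ψs, ψn v hvs] at hvx
        exact absurd hvx (hφs v hv hvs).2
      · rw [ψn v hvs, ψn x hxs] at hvx
        exact h2 v (mem_erase.2 ⟨hvs, hv⟩) x (mem_erase.2 ⟨hxs, hx⟩) hvx
    have p3 : ∀ v' ∈ U', ∃ v ∈ U, ψ v = v' := by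
      intro v' hv'
      by_cases hvs : v' = s'
      · exact ⟨s, hs, by rw [hvs, ψs]⟩
      · obtain ⟨v, hv, h7⟩ := h3 v' (mem_erase.2 ⟨hvs, hv'⟩)
        rw [mem_erase] at hv
        exact ⟨v, hv.2, by rw [ψn v hv.1, h7]⟩
    have hSSU : SS ⊆ U := fun r hr => (mem_erase.1 (h4 hr)).2
    have hSS2 : ∀ r ∈ SS, (star M.S h t r).card = 2 := fun r hr => by
      have := h5 r hr
      rwa [k2 r hr] at this
    by_cases hcase : φ w = w'
    · -- no swap at `s`
      refine ⟨ψ, SS, p1, p2, p3, hSSU, hSS2, fun v hv => ?_⟩
      by_cases hvs : v = s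
      · subst hvs
        rw [ψs, hst', hst, sum_eq_zero, add_zero]
        intro r hr
        rw [k4 r hr, card_empty, Nat.cast_zero, zero_smul]
      · rw [ψn v hvs]
        have h7 := k5 v hv hvs
        have h8 : (φ v = w') ↔ (v = w) := by
          constructor
          · intro h9
            rw [← hcase] at h9
            exact h2 v (mem_erase.2 ⟨hvs, hv⟩) w (mem_erase.2 ⟨hws, hw⟩) h9
          · intro h9
            rw [h9, hcase]
        have h9 : (if φ v = w' then (1 : ZMod 2) else 0) = if v = w then 1 else 0 := by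
          by_cases h10 : v = w
          · rw [if_pos (h8.2 h10), if_pos h10]
          · rw [if_neg (fun h11 => h10 (h8.1 h11)), if_neg h10]
        rw [h9, add_right_comm] at h7
        exact add_right_cancel h7
    · -- swap at `s`
      obtain ⟨x, hx, hφx⟩ := h3 w' (mem_erase.2 ⟨hws', hw'⟩)
      rw [mem_erase] at hx
      have hxw : x ≠ w := fun h7 => hcase (by rw [← h7, hφx])
      have hxu : x = u := by
        have h7 := congrFun (k5 x hx.2 hx.1) a
        rw [hφx, if_pos rfl, if_neg hxw, zero_smul, add_zero] at h7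
        simp only [Pi.add_apply, one_smul, Finset.sum_apply, Pi.smul_apply, smul_eq_mul] at h7
        have e1 : (ind (star M.S h' t' w') : E → ZMod 2) a = 0 := by
          refine ind_notMem fun h8 => ?_
          rw [mem_star] at h8
          rcases inc_le (jn_inc_left hau') (jn_inc_right hau') h8.2 hus'.symm with h9 | h9
          · exact hws' h9
          · exact huw' h9.symm
        have e2 : (ind {a, b} : E → ZMod 2) a = 1 := ind_mem (mem_insert_self _ _)
        have e3 : ∑ r ∈ SS, ((M.S.filter (fun y => Jn h t y r x)).card : ZMod 2) *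
            (ind (star M.S h t r) : E → ZMod 2) a = 0 := by
          refine sum_eq_zero fun r hr => ?_
          rw [ind_notMem, mul_zero]
          intro h8
          rw [mem_star] at h8
          rcases inc_le (jn_inc_left hau) (jn_inc_right hau) h8.2 hus.symm with h9 | h9
          · exact hSSs r hr h9
          · exact hSSu r hr h9
        rw [e1, e2, e3, add_zero, zero_add] at h7
        have h8 : a ∈ star M.S h t x := by
          by_contra h8
          rw [ind_notMem h8] at h7
          exact one_ne_zero h7
        rw [mem_star] at h8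
        rcases inc_le (jn_inc_left hau) (jn_inc_right hau) h8.2 hus.symm with h9 | h9
        · exact absurd h9 hx.1
        · exact h9
      subst hxu
      have hsSS : s ∉ SS := fun h7 => hSSs s h7 rfl
      refine ⟨ψ, insert s SS, p1, p2, p3, insert_subset hs hSSU, ?_, fun v hv => ?_⟩
      · intro r hr
        rcases mem_insert.1 hr with rfl | hr
        · rw [hst, card_pair hab]
        · exact hSS2 r hr
      rw [sum_insert hsSS]
      by_cases hvs : v = s
      · subst hvs
        have e1 : M.S.filter (fun y => Jn h t y v v) = ∅ := by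
          rw [filter_eq_empty_iff]
          rintro y hy (⟨h7, h8⟩ | ⟨h7, h8⟩)
          · exact (hg.ends y hy).2.2 (h7.trans h8.symm)
          · exact (hg.ends y hy).2.2 (h7.trans h8.symm)
        rw [ψs, hst', hst, e1, card_empty, Nat.cast_zero, zero_smul, zero_add, sum_eq_zero,
          add_zero]
        intro r hr
        rw [k4 r hr, card_empty, Nat.cast_zero, zero_smul]
      · rw [ψn v hvs]
        have h7 := hadd _ _ _ (k5 v hv hvs)
        rw [h7]
        have h8 : (φ v = w') ↔ (v = x) := by
          constructor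
          · intro h9
            rw [← hφx] at h9
            exact h2 v (mem_erase.2 ⟨hvs, hv⟩) x (mem_erase.2 ⟨hus, hu⟩) h9
          · intro h9
            rw [h9, hφx]
        -- number of edges between `s` and `v`
        have e1 : ((M.S.filter (fun y => Jn h t y s v)).card : ZMod 2) =
            (if v = w then 1 else 0) + (if φ v = w' then 1 else 0) := by
          have e2 : M.S.filter (fun y => Jn h t y s v) =
              (if v = x then {a} else ∅) ∪ (if v = w then {b} else ∅) := by
            ext y
            rw [mem_filter, mem_union]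
            constructor
            · rintro ⟨hy, hj⟩
              have h9 : y ∈ star M.S h t s := mem_star.2 ⟨hy, jn_inc_left hj⟩
              rw [hst, mem_insert, mem_singleton] at h9
              rcases h9 with rfl | rfl
              · rcases inc_le (jn_inc_left hau) (jn_inc_right hau) (jn_inc_right hj)
                  hus.symm with h10 | h10
                · exact absurd h10 hvs
                · left; rw [if_pos h10]; exact mem_singleton_self _
              · rcases inc_le (jn_inc_left hbw) (jn_inc_right hbw) (jn_inc_right hj)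
                  hws.symm with h10 | h10
                · exact absurd h10 hvs
                · right; rw [if_pos h10]; exact mem_singleton_self _
            · rintro (h9 | h9)
              · by_cases h10 : v = x
                · rw [if_pos h10, mem_singleton] at h9
                  rw [h9, h10]; exact ⟨ha, hau⟩
                · rw [if_neg h10] at h9
                  exact absurd h9 (notMem_empty _)
              · by_cases h10 : v = w
                · rw [if_pos h10, mem_singleton] at h9
                  rw [h9, h10]; exact ⟨hb, hbw⟩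
                · rw [if_neg h10] at h9
                  exact absurd h9 (notMem_empty _)
          rw [e2]
          by_cases h9 : v = x
          · have h10 : v ≠ w := fun h10 => huw (h9.symm.trans h10)
            rw [if_pos h9, if_neg h10, union_empty, card_singleton, if_neg h10,
              if_pos (h8.2 h9)]
            norm_num
          · by_cases h10 : v = w
            · rw [if_neg h9, if_pos h10, empty_union, card_singleton, if_pos h10,
                if_neg (fun h11 => h9 (h8.1 h11))]
              norm_num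
            · rw [if_neg h9, if_neg h10, empty_union, card_empty, if_neg h10,
                if_neg (fun h11 => h9 (h8.1 h11))]
              norm_num
        rw [e1, hst, add_smul]
        abel

end SEY
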