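import Pool.Agent.Helper25.SEY.Sc
import Pool.Agent.Helper71.SEYApi

/-!
# Seymour, block FRAME: definitions (taken from Pool/Agent/Helper25/SEY/Frame.lean, word for word)

This file is imported by all modules of the block; in the end Helper25/SEY/Frame.lean will import
the modules. Do not import Helper25/SEY/Frame.lean in a module of the block.
-/

set_option autoImplicit false

namespace SEY

open Finset

variable {E : Type} [Fintype E] [DecidableEq E]
variable {V : Type} [Fintype V] [DecidableEq V]

/-- `x` joins `u` and `v`. -/
def Jn (h t : E → V) (x : E) (u v : V) : Prop := (h x = u ∧ t x = v) ∨ (h x = v ∧ t x = u)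

instance (h t : E → V) (x : E) (u v : V) : Decidable (Jn h t x u v) := by
  unfold Jn
  infer_instance

/-- Replace the vertex `u` by `v`. -/
def mg (u v : V) : V → V := fun w => if w = u then v else w

/-- The vertex set `T` after swapping at the vertices of `SS`. -/
def swT (S : Finset E) (h t : E → V) (U T SS : Finset V) : Finset V :=
  U.filter (fun v => Odd ((if v ∈ T then 1 else 0) +
    ∑ s ∈ SS, (S.filter (fun x => Jn h t x s v)).card))

end SEY
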