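import Mathlib

/-!
# Frames (graph representations) of binary matroids: draft library
-/

set_option autoImplicit false

namespace Pool.Agent.Helper39.SEY

open Module

variable {E V W : Type} [Fintype E] [DecidableEq E] [Fintype V] [DecidableEq V]
  [Fintype W] [DecidableEq W]

/-- Restriction of a vector to a set of elements. -/
def res (X : Finset E) : (E → ZMod 2) →ₗ[ZMod 2] (E → ZMod 2) where
  toFun r := fun e => if e ∈ X then r e else 0
  map_add' r s := by
    funext e
    simp only [Pi.add_apply]
    split_ifs <;> simp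
  map_smul' c r := by
    funext e
    simp only [Pi.smul_apply, RingHom.id_apply]
    split_ifs <;> simp

theorem res_apply (X : Finset E) (r : E → ZMod 2) (e : E) :
    res X r e = if e ∈ X then r e else 0 := rfl

/-- Rank of a set of elements of the binary matroid with row space `R`. -/
noncomputable def rk (R : Submodule (ZMod 2) (E → ZMod 2)) (X : Finset E) : ℕ :=
  finrank (ZMod 2) (R.map (res X))

/-- Frames. -/
structure Frm (R : Submodule (ZMod 2) (E → ZMod 2)) (D : V → E → ZMod 2) : Prop where
  span : Submodule.span (ZMod 2) (Set.range D) = R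
  two : ∀ e, (Finset.univ.filter fun v => D v e ≠ 0).card = 0 ∨
    (Finset.univ.filter fun v => D v e ≠ 0).card = 2

/-- Sum of the stars of a set of vertices. -/
def dsum (D : V → E → ZMod 2) (A : Finset V) : E → ZMod 2 := ∑ v ∈ A, D v

theorem zmod2_ne_zero {a : ZMod 2} (h : a ≠ 0) : a = 1 := by
  revert a; decide

theorem zmod2_cases (a : ZMod 2) : a = 0 ∨ a = 1 := by
  revert a; decide

theorem add_self_vec (r : E → ZMod 2) : r + r = 0 := by
  funext e
  exact CharTwo.add_self_eq_zero (r e)

theorem dsum_apply (D : V → E → ZMod 2) (A : Finset V) (e : E) :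
    dsum D A e = ((A.filter fun v => D v e ≠ 0).card : ZMod 2) := by
  rw [dsum, Finset.sum_apply, Finset.card_filter]
  push_cast
  refine Finset.sum_congr rfl fun v _ => ?_
  rcases zmod2_cases (D v e) with h | h <;> simp [h]

theorem Frm.sum_univ {R : Submodule (ZMod 2) (E → ZMod 2)} {D : V → E → ZMod 2}
    (h : Frm R D) : dsum D Finset.univ = 0 := by
  funext e
  rw [dsum_apply]
  rcases h.two e with h2 | h2 <;> rw [h2]
  · simp
  · simp only [Pi.zero_apply]; decide

theorem dsum_union {D : V → E → ZMod 2} {A B : Finset V} (h : Disjoint A B) :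
    dsum D (A ∪ B) = dsum D A + dsum D B := Finset.sum_union h

theorem Frm.dsum_compl {R : Submodule (ZMod 2) (E → ZMod 2)} {D : V → E → ZMod 2}
    (h : Frm R D) (A : Finset V) : dsum D Aᶜ = dsum D A := by
  have h1 : dsum D (A ∪ Aᶜ) = dsum D A + dsum D Aᶜ := dsum_union disjoint_compl_right
  rw [Finset.union_compl, h.sum_univ] at h1
  have h2 := add_self_vec (dsum D A)
  have h3 : dsum D A + dsum D Aᶜ = dsum D A + dsum D A := by rw [← h1, h2]
  exact add_left_cancel h3

theorem Frm.mem {R : Submodule (ZMod 2) (E → ZMod 2)} {D : V → E → ZMod 2}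
    (h : Frm R D) (v : V) : D v ∈ R := h.span ▸ Submodule.subset_span ⟨v, rfl⟩

theorem Frm.dsum_mem {R : Submodule (ZMod 2) (E → ZMod 2)} {D : V → E → ZMod 2}
    (h : Frm R D) (A : Finset V) : dsum D A ∈ R := Submodule.sum_mem _ fun v _ => h.mem v

theorem Frm.exists_dsum {R : Submodule (ZMod 2) (E → ZMod 2)} {D : V → E → ZMod 2}
    (h : Frm R D) {r : E → ZMod 2} (hr : r ∈ R) : ∃ A : Finset V, r = dsum D A := by
  rw [← h.span, Submodule.mem_span_range_iff_exists_fun] at hr
  obtain ⟨c, rfl⟩ := hr
  refine ⟨Finset.univ.filter fun v => c v ≠ 0, ?_⟩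
  rw [dsum, Finset.sum_filter]
  refine Finset.sum_congr rfl fun v _ => ?_
  rcases zmod2_cases (c v) with h | h <;> simp [h]

/-- Vertices met by a set of elements. -/
def vset (D : V → E → ZMod 2) (X : Finset E) : Finset V :=
  Finset.univ.filter fun v => ∃ e ∈ X, D v e ≠ 0

theorem mem_vset {D : V → E → ZMod 2} {X : Finset E} {v : V} :
    v ∈ vset D X ↔ ∃ e ∈ X, D v e ≠ 0 := by
  simp [vset]

/-- The rank of a set of elements is smaller than the number of vertices met. -/
theorem Frm.rk_lt {R : Submodule (ZMod 2) (E → ZMod 2)} {D : V → E → ZMod 2}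
    (h : Frm R D) {X : Finset E} {K : Finset V} (hK : K.Nonempty) (hX : vset D X ⊆ K) :
    rk R X + 1 ≤ K.card := by
  obtain ⟨v0, hv0⟩ := hK
  have h1 : R.map (res X) ≤ Submodule.span (ZMod 2)
      (((K.erase v0).image fun v => res X (D v) : Finset (E → ZMod 2)) : Set (E → ZMod 2)) := by
    rw [← h.span, Submodule.map_span, Submodule.span_le]
    rintro _ ⟨_, ⟨v, rfl⟩, rfl⟩
    have hz : ∀ v, v ∉ K → res X (D v) = 0 := by
      intro v hv
      funext e
      rw [res_apply]
      split_ifs with he
      · by_contra hne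
        exact hv (hX (mem_vset.2 ⟨e, he, hne⟩))
      · rfl
    by_cases hv : v ∈ K
    · by_cases hv' : v = v0
      · subst hv'
        have h2 : ∑ w ∈ K, res X (D w) = 0 := by
          have h3 : ∑ w, res X (D w) = 0 := by
            rw [← map_sum]
            have := h.sum_univ
            rw [dsum] at this
            rw [this, map_zero]
          rw [← h3]
          exact Finset.sum_subset (Finset.subset_univ _) fun w _ hw => hz w hw
        rw [← Finset.add_sum_erase K _ hv] at h2
        have h4 : res X (D v) = ∑ w ∈ K.erase v, res X (D w) := by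
          have h5 := add_self_vec (∑ w ∈ K.erase v, res X (D w))
          exact add_right_cancel (h2.trans h5.symm)
        rw [SetLike.mem_coe, h4]
        refine Submodule.sum_mem _ fun w hw => Submodule.subset_span ?_
        rw [Finset.mem_coe, Finset.mem_image]
        exact ⟨w, hw, rfl⟩
      · refine Submodule.subset_span ?_
        rw [Finset.mem_coe, Finset.mem_image]
        exact ⟨v, Finset.mem_erase.2 ⟨hv', hv⟩, rfl⟩
    · rw [hz v hv]
      exact zero_mem _
  have h2 := Submodule.finrank_mono h1
  have h3 := finrank_span_finset_le_card (R := ZMod 2)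
    ((K.erase v0).image fun v => res X (D v))
  have h4 : ((K.erase v0).image fun v => res X (D v)).card ≤ (K.erase v0).card :=
    Finset.card_image_le
  rw [Finset.card_erase_of_mem hv0] at h4
  have h5 := Finset.card_pos.2 ⟨v0, hv0⟩
  unfold rk
  have h6 : finrank (ZMod 2) (Submodule.span (ZMod 2)
      (((K.erase v0).image fun v => res X (D v) : Finset (E → ZMod 2)) : Set (E → ZMod 2))) ≤
      ((K.erase v0).image fun v => res X (D v)).card := h3
  omega

end Pool.Agent.Helper39.SEY
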