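import Mathlib
import Pool.Agent.Helper39.SEY.FrameLib

/-!
# Uniqueness of frames of 3-connected binary matroids
-/

set_option autoImplicit false

namespace Pool.Agent.Helper39.SEY

open Module

variable {E V W : Type} [Fintype E] [DecidableEq E] [Fintype V] [DecidableEq V]
  [Fintype W] [DecidableEq W]

/-- Connected binary matroids. -/
def Conn (R : Submodule (ZMod 2) (E → ZMod 2)) : Prop :=
  ∀ X : Finset E, X.Nonempty → Xᶜ.Nonempty → finrank (ZMod 2) R + 1 ≤ rk R X + rk R Xᶜ

/-- 3-connected binary matroids. -/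
def Conn3 (R : Submodule (ZMod 2) (E → ZMod 2)) : Prop :=
  Conn R ∧ ∀ X : Finset E, 2 ≤ X.card → 2 ≤ Xᶜ.card →
    finrank (ZMod 2) R + 2 ≤ rk R X + rk R Xᶜ

theorem res_add_res (X : Finset E) (r : E → ZMod 2) : res X r + res Xᶜ r = r := by
  funext e
  simp only [Pi.add_apply, res_apply, Finset.mem_compl]
  by_cases h : e ∈ X <;> simp [h]

/-- If the restrictions of the vectors of `R` to `X` are in `R` then `X` is a union of
components. -/
theorem rk_add_le_of_map_le {R : Submodule (ZMod 2) (E → ZMod 2)} {X : Finset E}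
    (h : ∀ r ∈ R, res X r ∈ R) : rk R X + rk R Xᶜ ≤ finrank (ZMod 2) R := by
  have h1 : R.map (res X) ≤ R := by
    rintro _ ⟨r, hr, rfl⟩
    exact h r hr
  have h2 : R.map (res Xᶜ) ≤ R := by
    rintro _ ⟨r, hr, rfl⟩
    have h3 := res_add_res X r
    have h4 : res Xᶜ r = r - res X r := by
      rw [eq_sub_iff_add_eq, add_comm]; exact h3
    rw [h4]
    exact R.sub_mem hr (h r hr)
  have h3 : Disjoint (R.map (res X)) (R.map (res Xᶜ)) := by
    rw [Submodule.disjoint_def]
    rintro x ⟨r, hr, rfl⟩ ⟨s, hs, hrs⟩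
    funext e
    have := congrFun hrs e
    rw [res_apply, res_apply] at this
    rw [res_apply]
    by_cases he : e ∈ X
    · have he' : e ∉ Xᶜ := by rw [Finset.mem_compl]; exact fun h => h he
      rw [if_neg he'] at this
      rw [← this]; rfl
    · rw [if_neg he]; rfl
  have h4 := Submodule.finrank_sup_add_finrank_inf_eq (R.map (res X)) (R.map (res Xᶜ))
  rw [h3.eq_bot, finrank_bot, add_zero] at h4
  have h5 := Submodule.finrank_mono (sup_le h1 h2)
  unfold rk
  omega

/-- Connected: the restriction of `R` to a proper nonempty set is not inside `R`. -/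
theorem Conn.not_res {R : Submodule (ZMod 2) (E → ZMod 2)} (hc : Conn R) {X : Finset E}
    (h1 : X.Nonempty) (h2 : Xᶜ.Nonempty) : ¬ ∀ r ∈ R, res X r ∈ R := fun h => by
  have := rk_add_le_of_map_le h
  have := hc X h1 h2
  omega

section frm

variable {R : Submodule (ZMod 2) (E → ZMod 2)} {D : V → E → ZMod 2}

/-- An element with an end has exactly two ends. -/
theorem Frm.ends (h : Frm R D) {e : E} {v : V} (hv : D v e ≠ 0) :
    ∃ w, w ≠ v ∧ D w e ≠ 0 ∧ ∀ u, D u e ≠ 0 → u = v ∨ u = w := by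
  have h1 : v ∈ Finset.univ.filter fun v => D v e ≠ 0 := by simp [hv]
  rcases h.two e with h2 | h2
  · rw [Finset.card_eq_zero] at h2
    rw [h2] at h1
    simp at h1
  · rw [Finset.card_eq_two] at h2
    obtain ⟨a, b, hab, h3⟩ := h2
    have h4 : ∀ u, D u e ≠ 0 ↔ u = a ∨ u = b := by
      intro u
      have := Finset.ext_iff.1 h3 u
      simpa using this
    rcases (h4 v).1 hv with rfl | rfl
    · exact ⟨b, hab.symm, (h4 b).2 (Or.inr rfl), fun u hu => (h4 u).1 hu⟩
    · exact ⟨a, hab, (h4 a).2 (Or.inl rfl), fun u hu => ((h4 u).1 hu).symm⟩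

/-- `dsum D A` at an element with ends `v`, `w`. -/
theorem dsum_eq_of_ends {A : Finset V} {e : E} {v w : V} (hvw : w ≠ v) (hv : D v e ≠ 0)
    (hw : D w e ≠ 0) (hu : ∀ u, D u e ≠ 0 → u = v ∨ u = w) :
    dsum D A e ≠ 0 ↔ ((v ∈ A ∧ w ∉ A) ∨ (v ∉ A ∧ w ∈ A)) := by
  have h1 : A.filter (fun v => D v e ≠ 0) = A ∩ {v, w} := by
    ext u
    simp only [Finset.mem_filter, Finset.mem_inter, Finset.mem_insert, Finset.mem_singleton]
    constructor
    · rintro ⟨h2, h3⟩
      exact ⟨h2, hu u h3⟩
    · rintro ⟨h2, rfl | rfl⟩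
      · exact ⟨h2, hv⟩
      · exact ⟨h2, hw⟩
  rw [dsum_apply, h1]
  by_cases h2 : v ∈ A <;> by_cases h3 : w ∈ A
  · have : A ∩ {v, w} = {v, w} := by
      rw [Finset.inter_eq_right]
      intro x hx
      rw [Finset.mem_insert, Finset.mem_singleton] at hx
      rcases hx with rfl | rfl <;> assumption
    rw [this, Finset.card_pair hvw.symm]
    simp only [h2, h3, not_true_eq_false, and_false, false_and, or_self, iff_false, ne_eq,
      not_not]
    decide
  · have : A ∩ {v, w} = {v} := by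
      ext x
      simp only [Finset.mem_inter, Finset.mem_insert, Finset.mem_singleton]
      constructor
      · rintro ⟨h4, rfl | rfl⟩
        · rfl
        · exact absurd h4 h3
      · rintro rfl
        exact ⟨h2, Or.inl rfl⟩
    rw [this]
    simp [h2, h3]
  · have : A ∩ {v, w} = {w} := by
      ext x
      simp only [Finset.mem_inter, Finset.mem_insert, Finset.mem_singleton]
      constructor
      · rintro ⟨h4, rfl | rfl⟩
        · exact absurd h4 h2
        · rfl
      · rintro rfl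
        exact ⟨h3, Or.inr rfl⟩
    rw [this]
    simp [h2, h3]
  · have : A ∩ {v, w} = ∅ := by
      ext x
      simp only [Finset.mem_inter, Finset.mem_insert, Finset.mem_singleton]
      constructor
      · rintro ⟨h4, rfl | rfl⟩
        · exact absurd h4 h2
        · exact absurd h4 h3
      · intro h4
        simp at h4
    rw [this]
    simp [h2, h3]

/-- `dsum D A` at a loop. -/
theorem dsum_eq_zero_of_loop {A : Finset V} {e : E} (h : ∀ u, D u e = 0) :
    dsum D A e = 0 := by
  rw [dsum, Finset.sum_apply]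
  exact Finset.sum_eq_zero fun v _ => h v

/-- Elements in the support of a vector of `R` have an end. -/
theorem Frm.exists_end (h : Frm R D) {r : E → ZMod 2} (hr : r ∈ R) {e : E} (he : r e ≠ 0) :
    ∃ v, D v e ≠ 0 := by
  by_contra hne
  push Not at hne
  obtain ⟨A, rfl⟩ := h.exists_dsum hr
  exact he (dsum_eq_zero_of_loop hne)

theorem Frm.map_res_le (h : Frm R D) {X : Finset E} (hX : ∀ v, res X (D v) ∈ R) :
    ∀ r ∈ R, res X r ∈ R := by
  have h1 : R.map (res X) ≤ R := by
    conv_lhs => rw [← h.span]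
    rw [Submodule.map_span, Submodule.span_le]
    rintro _ ⟨_, ⟨v, rfl⟩, rfl⟩
    exact hX v
  exact fun r hr => h1 ⟨r, hr, rfl⟩

/-- In a connected matroid with nonzero stars the only relations are the trivial ones. -/
theorem Frm.dsum_eq_zero (h : Frm R D) (hD : ∀ v, D v ≠ 0) (hc : Conn R) {A : Finset V}
    (hA : dsum D A = 0) : A = ∅ ∨ A = Finset.univ := by
  by_contra hne
  push Not at hne
  obtain ⟨h1, h2⟩ := hne
  obtain ⟨v0, hv0⟩ := h1
  obtain ⟨v1, hv1⟩ : ∃ v, v ∉ A := by
    by_contra hn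
    push Not at hn
    exact h2 (Finset.eq_univ_iff_forall.2 hn)
  have hboth : ∀ e v w, v ∈ A → w ∉ A → D v e ≠ 0 → D w e ≠ 0 → False := by
    intro e v w hv hw hve hwe
    obtain ⟨w', hw'1, hw'2, hw'3⟩ := h.ends hve
    have : w = w' := by
      rcases hw'3 w hwe with rfl | h4
      · exact absurd hv hw
      · exact h4
    subst this
    exact (dsum_eq_of_ends hw'1 hve hwe hw'3).2 (Or.inl ⟨hv, hw⟩) (congrFun hA e)
  set X : Finset E := Finset.univ.filter fun e => ∃ v ∈ A, D v e ≠ 0 with hX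
  have hXn : X.Nonempty := by
    obtain ⟨e, he⟩ := Function.ne_iff.1 (hD v0)
    exact ⟨e, by rw [hX, Finset.mem_filter]; exact ⟨Finset.mem_univ _, v0, hv0, he⟩⟩
  have hXc : Xᶜ.Nonempty := by
    obtain ⟨e, he⟩ := Function.ne_iff.1 (hD v1)
    refine ⟨e, ?_⟩
    rw [Finset.mem_compl, hX, Finset.mem_filter]
    rintro ⟨-, v, hv, hve⟩
    exact hboth e v v1 hv hv1 hve he
  refine hc.not_res hXn hXc (h.map_res_le fun v => ?_)
  by_cases hv : v ∈ A
  · have : res X (D v) = D v := by
      funext e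
      rw [res_apply]
      split_ifs with he
      · rfl
      · by_contra hne
        exact he (by rw [hX, Finset.mem_filter]; exact ⟨Finset.mem_univ _, v, hv, Ne.symm hne⟩)
    rw [this]
    exact h.mem v
  · have : res X (D v) = 0 := by
      funext e
      rw [res_apply]
      split_ifs with he
      · by_contra hne
        rw [hX, Finset.mem_filter] at he
        obtain ⟨-, v', hv', hve'⟩ := he
        exact hboth e v' v hv' hv hve' hne
      · rfl
    rw [this]
    exact zero_mem _

/-- The rank of a connected matroid with a frame. -/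
theorem Frm.finrank_eq (h : Frm R D) (hD : ∀ v, D v ≠ 0) (hc : Conn R) [Nonempty V] :
    finrank (ZMod 2) R + 1 = Fintype.card V := by
  have h1 : LinearMap.range (Fintype.linearCombination (ZMod 2) D) = R := by
    rw [Fintype.range_linearCombination, h.span]
  have h2 : LinearMap.ker (Fintype.linearCombination (ZMod 2) D) =
      Submodule.span (ZMod 2) {fun _ : V => (1 : ZMod 2)} := by
    apply le_antisymm
    · intro c hc'
      rw [LinearMap.mem_ker, Fintype.linearCombination_apply] at hc'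
      have h3 : dsum D (Finset.univ.filter fun v => c v ≠ 0) = 0 := by
        rw [← hc', dsum, Finset.sum_filter]
        refine Finset.sum_congr rfl fun v _ => ?_
        rcases zmod2_cases (c v) with h | h <;> simp [h]
      rw [Submodule.mem_span_singleton]
      rcases h.dsum_eq_zero hD hc h3 with h4 | h4
      · refine ⟨0, ?_⟩
        funext v
        have := Finset.ext_iff.1 h4 v
        simp only [Finset.mem_filter, Finset.mem_univ, true_and, Finset.notMem_empty,
          iff_false, not_not] at this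
        simp [this]
      · refine ⟨1, ?_⟩
        funext v
        have := Finset.ext_iff.1 h4 v
        simp only [Finset.mem_filter, Finset.mem_univ, true_and, iff_true] at this
        simp [zmod2_ne_zero this]
    · rw [Submodule.span_le, Set.singleton_subset_iff, SetLike.mem_coe, LinearMap.mem_ker,
        Fintype.linearCombination_apply]
      have := h.sum_univ
      rw [dsum] at this
      simpa using this
  have h3 := LinearMap.finrank_range_add_finrank_ker (Fintype.linearCombination (ZMod 2) D)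
  rw [h1, h2, finrank_span_singleton] at h3
  · simpa using h3
  · intro h0
    obtain ⟨v⟩ := ‹Nonempty V›
    have := congrFun h0 v
    simp at this

/-- Rank bounds for the two sides of a vertex cut. -/
theorem Frm.cut (h : Frm R D) {Z T : Finset V} (hZ : Z.Nonempty) (hZc : Zᶜ.Nonempty)
    (hT : ∀ e, ∀ z ∈ Z, D z e ≠ 0 → ∀ v, D v e ≠ 0 → v ∈ Z ∪ T) {F : Finset E}
    (hF : ∀ e, e ∈ F ↔ ∃ z ∈ Z, D z e ≠ 0) :
    rk R F + rk R Fᶜ + 2 ≤ Fintype.card V + T.card := by
  have h1 : rk R F + 1 ≤ (Z ∪ T).card := by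
    refine h.rk_lt (hZ.mono Finset.subset_union_left) fun v hv => ?_
    obtain ⟨e, he, hve⟩ := mem_vset.1 hv
    obtain ⟨z, hz, hze⟩ := (hF e).1 he
    exact hT e z hz hze v hve
  have h2 : rk R Fᶜ + 1 ≤ Zᶜ.card := by
    refine h.rk_lt hZc fun v hv => ?_
    obtain ⟨e, he, hve⟩ := mem_vset.1 hv
    rw [Finset.mem_compl] at he ⊢
    exact fun hvZ => he ((hF e).2 ⟨v, hvZ, hve⟩)
  have h3 := Finset.card_union_le Z T
  have h4 := Finset.card_add_card_compl Z
  omega

/-- There is no cut vertex. -/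
theorem Frm.no_cut_one (h : Frm R D) (hD : ∀ v, D v ≠ 0) (hc : Conn R) {Z : Finset V} {w : V}
    (hZ : Z.Nonempty)
    (hT : ∀ e, ∀ z ∈ Z, D z e ≠ 0 → ∀ v, D v e ≠ 0 → v ∈ Z ∨ v = w) :
    ∀ v, v ∈ Z ∨ v = w := by
  by_contra hne
  push Not at hne
  obtain ⟨v1, hv1, hv1'⟩ := hne
  have : Nonempty V := ⟨v1⟩
  have h1 := h.finrank_eq hD hc
  have hT' : ∀ e, ∀ z ∈ Z, D z e ≠ 0 → ∀ v, D v e ≠ 0 → v ∈ Z ∪ {w} := by
    intro e z hz hze v hv
    rw [Finset.mem_union, Finset.mem_singleton]
    exact hT e z hz hze v hv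
  have h2 := h.cut (F := Finset.univ.filter fun e => ∃ z ∈ Z, D z e ≠ 0) hZ
    ⟨v1, by rw [Finset.mem_compl]; exact hv1⟩ hT' (by simp)
  rw [Finset.card_singleton] at h2
  have h3 := hc (Finset.univ.filter fun e => ∃ z ∈ Z, D z e ≠ 0) (by
    obtain ⟨z, hz⟩ := hZ
    obtain ⟨e, he⟩ := Function.ne_iff.1 (hD z)
    exact ⟨e, by rw [Finset.mem_filter]; exact ⟨Finset.mem_univ _, z, hz, he⟩⟩) (by
    obtain ⟨e, he⟩ := Function.ne_iff.1 (hD v1)
    refine ⟨e, ?_⟩
    rw [Finset.mem_compl, Finset.mem_filter]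
    rintro ⟨-, z, hz, hze⟩
    rcases hT e z hz hze v1 he with h | h
    · exact hv1 h
    · exact hv1' h)
  omega

/-- Nonzero vectors of a connected matroid with at least two elements have at least two
elements in the support. -/
theorem Conn.two_le (hc : Conn R) (hE : 2 ≤ Fintype.card E) {r : E → ZMod 2} (hr : r ∈ R)
    (hr0 : r ≠ 0) {F : Finset E} (hF : ∀ e, r e ≠ 0 → e ∈ F) : 2 ≤ F.card := by
  by_contra hlt
  obtain ⟨e, he⟩ := Function.ne_iff.1 hr0
  have h1 : F = {e} := by
    have h2 : F.card = 1 := by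
      have := Finset.card_pos.2 ⟨e, hF e he⟩
      omega
    rw [Finset.card_eq_one] at h2
    obtain ⟨a, rfl⟩ := h2
    have := hF e he
    rw [Finset.mem_singleton] at this
    rw [this]
  have h2 : ({e}ᶜ : Finset E).Nonempty := by
    rw [← Finset.card_pos, Finset.card_compl, Finset.card_singleton]
    omega
  refine hc.not_res (Finset.singleton_nonempty e) h2 fun s hs => ?_
  have h3 : ∀ e', r e' = if e' = e then 1 else 0 := by
    intro e'
    split_ifs with h4
    · rw [h4]; exact zmod2_ne_zero he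
    · by_contra h5
      have := hF e' h5
      rw [h1, Finset.mem_singleton] at this
      exact h4 this
  have h4 : res {e} s = s e • r := by
    funext e'
    rw [res_apply, Pi.smul_apply, h3 e']
    by_cases h5 : e' = e
    · simp [h5]
    · simp [h5]
  rw [h4]
  exact R.smul_mem _ hr

/-- There is no vertex cut of size two in a 3-connected matroid. -/
theorem Frm.no_cut_two (h : Frm R D) (hD : ∀ v, D v ≠ 0) (hc : Conn3 R)
    (hE : 2 ≤ Fintype.card E) {Z : Finset V} {u w : V}
    (hZ : Z.Nonempty)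
    (hT : ∀ e, ∀ z ∈ Z, D z e ≠ 0 → ∀ v, D v e ≠ 0 → v ∈ Z ∨ v = u ∨ v = w) :
    ∀ v, v ∈ Z ∨ v = u ∨ v = w := by
  by_contra hne
  push Not at hne
  obtain ⟨v1, hv1, hv1'⟩ := hne
  have : Nonempty V := ⟨v1⟩
  have h1 := h.finrank_eq hD hc.1
  have hT' : ∀ e, ∀ z ∈ Z, D z e ≠ 0 → ∀ v, D v e ≠ 0 → v ∈ Z ∪ {u, w} := by
    intro e z hz hze v hv
    rw [Finset.mem_union, Finset.mem_insert, Finset.mem_singleton]
    exact hT e z hz hze v hv
  have h2 := h.cut (F := Finset.univ.filter fun e => ∃ z ∈ Z, D z e ≠ 0) hZ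
    ⟨v1, by rw [Finset.mem_compl]; exact hv1⟩ hT' (by simp)
  have h2' : ({u, w} : Finset V).card ≤ 2 := Finset.card_le_two
  have h3 := hc.2 (Finset.univ.filter fun e => ∃ z ∈ Z, D z e ≠ 0) (by
    obtain ⟨z, hz⟩ := hZ
    refine hc.1.two_le hE (h.mem z) (hD z) fun e he => ?_
    rw [Finset.mem_filter]
    exact ⟨Finset.mem_univ _, z, hz, he⟩) (by
    refine hc.1.two_le hE (h.mem v1) (hD v1) fun e he => ?_
    rw [Finset.mem_compl, Finset.mem_filter]
    rintro ⟨-, z, hz, hze⟩
    rcases hT e z hz hze v1 he with h | h | h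
    · exact hv1 h
    · exact hv1'.1 h
    · exact hv1'.2 h)
  omega

theorem dsum_singleton (v : V) : dsum D {v} = D v := Finset.sum_singleton _ _

/-- A vector of `R` may be written as the sum of a set of stars not containing `w`. -/
theorem Frm.exists_dsum_notMem (h : Frm R D) (w : V) {r : E → ZMod 2} (hr : r ∈ R) :
    ∃ A : Finset V, w ∉ A ∧ r = dsum D A := by
  obtain ⟨A, rfl⟩ := h.exists_dsum hr
  by_cases hw : w ∈ A
  · exact ⟨Aᶜ, by rw [Finset.mem_compl]; exact fun h => h hw, (h.dsum_compl A).symm⟩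
  · exact ⟨A, hw, rfl⟩

/-- Stars are cocircuits. -/
theorem Frm.cocircuit (h : Frm R D) (hD : ∀ v, D v ≠ 0) (hc : Conn R) (w : V)
    {r : E → ZMod 2} (hr : r ∈ R) (hsub : ∀ e, r e ≠ 0 → D w e ≠ 0) : r = 0 ∨ r = D w := by
  obtain ⟨B, hwB, rfl⟩ := h.exists_dsum_notMem w hr
  rcases B.eq_empty_or_nonempty with rfl | hB
  · left; rfl
  right
  have h1 := h.no_cut_one hD hc hB (by
    intro e z hz hze v hve
    by_cases hv : v ∈ B
    · exact Or.inl hv
    right
    obtain ⟨v', hv'1, hv'2, hv'3⟩ := h.ends hze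
    have hvv' : v = v' := by
      rcases hv'3 v hve with rfl | h4
      · exact absurd hz hv
      · exact h4
    subst hvv'
    have h2 := hsub e ((dsum_eq_of_ends hv'1 hze hve hv'3).2 (Or.inl ⟨hz, hv⟩))
    rcases hv'3 w h2 with rfl | h4
    · exact absurd hz hwB
    · exact h4.symm)
  have h2 : Bᶜ = {w} := by
    ext v
    rw [Finset.mem_compl, Finset.mem_singleton]
    constructor
    · intro hv
      exact (h1 v).resolve_left hv
    · rintro rfl
      exact hwB
  rw [← h.dsum_compl, h2, dsum_singleton]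

/-- If two sets of vertices give the same vector at an element... values of `dsum` only
depend on the ends. -/
theorem dsum_inter_eq {A B : Finset V} {e : E}
    (hA : ∀ v, D v e ≠ 0 → v ∈ A) : dsum D (B ∩ A) e = dsum D B e := by
  rw [dsum_apply, dsum_apply]
  congr 2
  ext v
  simp only [Finset.mem_filter, Finset.mem_inter]
  constructor
  · rintro ⟨⟨h1, -⟩, h2⟩
    exact ⟨h1, h2⟩
  · rintro ⟨h1, h2⟩
    exact ⟨⟨h1, hA v h2⟩, h2⟩

theorem dsum_eq_zero_of_disjoint {A : Finset V} {e : E}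
    (hA : ∀ v ∈ A, D v e = 0) : dsum D A e = 0 := by
  rw [dsum, Finset.sum_apply]
  exact Finset.sum_eq_zero fun v hv => hA v hv

/-- `dsum D A e ≠ 0` when `e` has one end in `A` and one outside. -/
theorem Frm.dsum_ne_zero (h : Frm R D) {A : Finset V} {e : E} {v w : V} (hv : v ∈ A)
    (hw : w ∉ A) (hve : D v e ≠ 0) (hwe : D w e ≠ 0) : dsum D A e ≠ 0 := by
  obtain ⟨w', h1, h2, h3⟩ := h.ends hve
  have : w = w' := by
    rcases h3 w hwe with rfl | h4
    · exact absurd hv hw
    · exact h4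
  subst this
  exact (dsum_eq_of_ends h1 hve hwe h3).2 (Or.inl ⟨hv, hw⟩)

/-- `dsum D A e = 0` when the ends of `e` are in `A`. -/
theorem Frm.dsum_eq_zero_of_subset (h : Frm R D) {A : Finset V} {e : E}
    (hA : ∀ v, D v e ≠ 0 → v ∈ A) : dsum D A e = 0 := by
  rw [← h.dsum_compl]
  refine dsum_eq_zero_of_disjoint fun v hv => ?_
  rw [Finset.mem_compl] at hv
  by_contra hne
  exact hv (hA v hne)

/-- If `dsum D A e ≠ 0` then `e` has an end in `A` and an end outside. -/
theorem Frm.exists_of_dsum_ne (h : Frm R D) {A : Finset V} {e : E} (hA : dsum D A e ≠ 0) :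
    (∃ v ∈ A, D v e ≠ 0) ∧ ∃ v, v ∉ A ∧ D v e ≠ 0 := by
  constructor
  · by_contra hne
    push Not at hne
    exact hA (dsum_eq_zero_of_disjoint hne)
  · by_contra hne
    push Not at hne
    refine hA (h.dsum_eq_zero_of_subset fun v hv => ?_)
    by_contra hv'
    exact hv (hne v hv')

/-- An element has at most two ends. -/
theorem Frm.ends_le (h : Frm R D) {e : E} {a b c : V} (ha : D a e ≠ 0) (hb : D b e ≠ 0)
    (hc : D c e ≠ 0) (hab : a ≠ b) : c = a ∨ c = b := by
  obtain ⟨w, h1, h2, h3⟩ := h.ends ha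
  have : b = w := (h3 b hb).resolve_left hab.symm
  subst this
  exact h3 c hc

end frm

/-- Uniqueness of the frame of a 3-connected matroid (Whitney). -/
theorem Frm.unique {R : Submodule (ZMod 2) (E → ZMod 2)} {D : V → E → ZMod 2}
    {D' : W → E → ZMod 2} (h : Frm R D) (h' : Frm R D') (hD : ∀ v, D v ≠ 0)
    (hD' : ∀ w, D' w ≠ 0) (hc : Conn3 R) (hE : 2 ≤ Fintype.card E) (w : W) :
    ∃ v, D' w = D v := by
  by_contra hno
  push Not at hno
  obtain ⟨A, hA⟩ := h.exists_dsum (h'.mem w)
  have hA0 : A.Nonempty := by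
    rw [Finset.nonempty_iff_ne_empty]
    rintro rfl
    exact hD' w hA
  have hA1 : Aᶜ.Nonempty := by
    rw [Finset.nonempty_iff_ne_empty]
    intro h1
    have h2 := h.dsum_compl A
    rw [h1, ← hA] at h2
    exact hD' w h2.symm
  -- both ends in `A` or both outside
  have hends : ∀ e, D' w e = 0 → ∀ v1 v2, D v1 e ≠ 0 → D v2 e ≠ 0 → v1 ∈ A → v2 ∈ A := by
    intro e he v1 v2 h1 h2 h3
    by_contra h4
    rw [hA] at he
    exact h.dsum_ne_zero h3 h4 h1 h2 he
  set X : Finset E := Finset.univ.filter fun e => D' w e = 0 ∧ ∃ v ∈ A, D v e ≠ 0 with hX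
  set Y : Finset E := Finset.univ.filter fun e => D' w e = 0 ∧ ∃ v, v ∉ A ∧ D v e ≠ 0 with hY
  have mX : ∀ e, e ∈ X ↔ D' w e = 0 ∧ ∃ v ∈ A, D v e ≠ 0 := by intro e; simp [hX]
  have mY : ∀ e, e ∈ Y ↔ D' w e = 0 ∧ ∃ v, v ∉ A ∧ D v e ≠ 0 := by intro e; simp [hY]
  have hXA : ∀ e ∈ X, ∀ v, D v e ≠ 0 → v ∈ A := by
    intro e he v hv
    obtain ⟨h1, v', h2, h3⟩ := (mX e).1 he
    exact hends e h1 v' v h3 hv h2
  have hYA : ∀ e ∈ Y, ∀ v ∈ A, D v e = 0 := by
    intro e he v hv
    obtain ⟨h1, v', h2, h3⟩ := (mY e).1 he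
    by_contra h4
    exact h2 (hends e h1 v v' h4 h3 hv)
  have hXY : ∀ e, D' w e = 0 → ∀ u, D' u e ≠ 0 → e ∈ X ∨ e ∈ Y := by
    intro e he u hu
    obtain ⟨v, hv⟩ := h.exists_end (h'.mem u) hu
    by_cases hvA : v ∈ A
    · exact Or.inl ((mX e).2 ⟨he, v, hvA, hv⟩)
    · exact Or.inr ((mY e).2 ⟨he, v, hvA, hv⟩)
  have hstar : ∀ v, ∃ e, D v e ≠ 0 ∧ D' w e = 0 := by
    intro v
    by_contra hne
    push Not at hne
    rcases h'.cocircuit hD' hc.1 w (h.mem v) (fun e he => hne e he) with h1 | h1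
    · exact hD v h1
    · exact hno v h1.symm
  have hXn : ∃ e, e ∈ X := by
    obtain ⟨v, hv⟩ := hA0
    obtain ⟨e, he1, he2⟩ := hstar v
    exact ⟨e, (mX e).2 ⟨he2, v, hv, he1⟩⟩
  have hYn : ∃ e, e ∈ Y := by
    obtain ⟨v, hv⟩ := hA1
    rw [Finset.mem_compl] at hv
    obtain ⟨e, he1, he2⟩ := hstar v
    exact ⟨e, (mY e).2 ⟨he2, v, hv, he1⟩⟩
  -- no vertex meets both `X` and `Y`
  have hmeet : ∀ u, u ≠ w → ∀ x ∈ X, ∀ y ∈ Y, D' u x ≠ 0 → D' u y ≠ 0 → False := by
    intro u huw x hx y hy hux huy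
    obtain ⟨B, hB⟩ := h.exists_dsum (h'.mem u)
    obtain ⟨C, hwC, hC⟩ := h'.exists_dsum_notMem w (h.dsum_mem (B ∩ A))
    have hCX : ∀ e ∈ X, dsum D' C e = D' u e := by
      intro e he
      rw [← hC, hB]
      exact dsum_inter_eq (hXA e he)
    have hCY : ∀ e ∈ Y, dsum D' C e = 0 := by
      intro e he
      rw [← hC]
      exact dsum_eq_zero_of_disjoint fun v hv => hYA e he v (Finset.mem_inter.1 hv).2
    have hxw := ((mX x).1 hx).1
    have hyw := ((mY y).1 hy).1
    by_cases hu : u ∈ C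
    · -- `Z = C.erase u`
      have hZn : (C.erase u).Nonempty := by
        obtain ⟨v, hv1, hv2, -⟩ := h'.ends huy
        refine ⟨v, Finset.mem_erase.2 ⟨hv1, ?_⟩⟩
        by_contra hvC
        exact h'.dsum_ne_zero hu hvC huy hv2 (hCY y hy)
      have h1 := h'.no_cut_two (u := u) (w := w) hD' hc hE hZn (by
        intro e z hz hze v hve
        rw [Finset.mem_erase] at hz
        by_contra hv
        push Not at hv
        obtain ⟨hv1, hv2, hv3⟩ := hv
        have hvC : v ∉ C := fun hvC => hv1 (Finset.mem_erase.2 ⟨hv2, hvC⟩)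
        have hzv : z ≠ v := fun hzv => hvC (hzv ▸ hz.2)
        have hew : D' w e = 0 := by
          by_contra hne
          rcases h'.ends_le hze hve hne hzv with h2 | h2
          · exact hwC (h2 ▸ hz.2)
          · exact hv3 h2.symm
        have h2 := h'.dsum_ne_zero hz.2 hvC hze hve
        rcases hXY e hew z hze with h3 | h3
        · rw [hCX e h3] at h2
          rcases h'.ends_le hze hve h2 hzv with h4 | h4
          · exact hz.1 h4.symm
          · exact hv2 h4.symm
        · exact h2 (hCY e h3))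
      obtain ⟨v, hv1, hv2, hv3⟩ := h'.ends hux
      have hvC : v ∈ C := by
        rcases h1 v with h2 | h2 | h2
        · exact Finset.mem_of_mem_erase h2
        · exact absurd h2 hv1
        · exact absurd hxw (h2 ▸ hv2)
      have h2 : dsum D' C x = 0 := h'.dsum_eq_zero_of_subset fun v' hv' => by
        rcases hv3 v' hv' with rfl | rfl <;> assumption
      rw [hCX x hx] at h2
      exact hux h2
    · -- `Z = C`
      have hZn : C.Nonempty := by
        rw [Finset.nonempty_iff_ne_empty]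
        rintro rfl
        exact hux (hCX x hx).symm
      have h1 := h'.no_cut_two (u := u) (w := w) hD' hc hE hZn (by
        intro e z hz hze v hve
        by_contra hv
        push Not at hv
        obtain ⟨hvC, hv2, hv3⟩ := hv
        have hzv : z ≠ v := fun hzv => hvC (hzv ▸ hz)
        have hew : D' w e = 0 := by
          by_contra hne
          rcases h'.ends_le hze hve hne hzv with h2 | h2
          · exact hwC (h2 ▸ hz)
          · exact hv3 h2.symm
        have h2 := h'.dsum_ne_zero hz hvC hze hve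
        rcases hXY e hew z hze with h3 | h3
        · rw [hCX e h3] at h2
          rcases h'.ends_le hze hve h2 hzv with h4 | h4
          · exact hu (h4 ▸ hz)
          · exact hv2 h4.symm
        · exact h2 (hCY e h3))
      obtain ⟨v, hv1, hv2, hv3⟩ := h'.ends huy
      have hvC : v ∈ C := by
        rcases h1 v with h2 | h2 | h2
        · exact h2
        · exact absurd h2 hv1
        · exact absurd hyw (h2 ▸ hv2)
      exact h'.dsum_ne_zero hvC hu hv2 huy (hCY y hy)
  -- `w` is a cut vertex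
  set P : Finset W := Finset.univ.filter fun u => u ≠ w ∧ ∃ x ∈ X, D' u x ≠ 0 with hP
  have mP : ∀ u, u ∈ P ↔ u ≠ w ∧ ∃ x ∈ X, D' u x ≠ 0 := by intro u; simp [hP]
  have hPn : P.Nonempty := by
    obtain ⟨x, hx⟩ := hXn
    obtain ⟨hxw, v, hv, hvx⟩ := (mX x).1 hx
    obtain ⟨u, hu⟩ := h'.exists_end (h.mem v) hvx
    exact ⟨u, (mP u).2 ⟨by rintro rfl; exact hu hxw, x, hx, hu⟩⟩
  have h1 := h'.no_cut_one (w := w) hD' hc.1 hPn (by
    intro e z hz hze v hve
    by_cases hvz : v = z
    · exact Or.inl (hvz ▸ hz)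
    by_cases hvw : v = w
    · exact Or.inr hvw
    left
    obtain ⟨hzw, x, hx, hzx⟩ := (mP z).1 hz
    have hew : D' w e = 0 := by
      by_contra hne
      rcases h'.ends_le hze hve hne (Ne.symm hvz) with h2 | h2
      · exact hzw h2.symm
      · exact hvw h2.symm
    rcases hXY e hew z hze with h3 | h3
    · exact (mP v).2 ⟨hvw, e, h3, hve⟩
    · exact absurd (hmeet z hzw x hx e h3 hzx hze) (by simp))
  obtain ⟨y, hy⟩ := hYn
  obtain ⟨hyw, v, hv, hvy⟩ := (mY y).1 hy
  obtain ⟨u, hu⟩ := h'.exists_end (h.mem v) hvy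
  have huw : u ≠ w := by rintro rfl; exact hu hyw
  obtain ⟨-, x, hx, hux⟩ := (mP u).1 ((h1 u).resolve_right huw)
  exact hmeet u huw x hx y hy hux hu

end Pool.Agent.Helper39.SEY
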