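import Pool.Agent.Helper39.SEY.FDefs

/-!
# Seymour, block FRAME: elementary facts on `cob` and `IsGr`
-/

set_option autoImplicit false
set_option linter.unusedSectionVars false

namespace SEY

open Finset Module

variable {E : Type} [Fintype E] [DecidableEq E] {V V' : Type} [DecidableEq V] [DecidableEq V']

/-! ### arithmetic in `ZMod 2` -/

theorem z2_ne {a : ZMod 2} (h : a ≠ 0) : a = 1 := by revert a; decide

theorem z2_cases (a : ZMod 2) : a = 0 ∨ a = 1 := by revert a; decide

theorem z2_add_self (a : ZMod 2) : a + a = 0 := by revert a; decide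

theorem z2_add_eq_zero {a b : ZMod 2} : a + b = 0 ↔ a = b := by revert a b; decide

theorem z2_vec_add_self {X : Type} (f : X → ZMod 2) : f + f = 0 := by
  funext e; exact z2_add_self _

/-! ### `cob` -/

theorem cob_mem {S : Finset E} {h t : E → V} {π : V → ZMod 2} {e : E} (he : e ∈ S) :
    cob S h t π e = π (h e) + π (t e) := if_pos he

theorem cob_notMem {S : Finset E} {h t : E → V} {π : V → ZMod 2} {e : E} (he : e ∉ S) :
    cob S h t π e = 0 := if_neg he

/-- The coboundary as a linear map. -/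
def cobL (S : Finset E) (h t : E → V) : (V → ZMod 2) →ₗ[ZMod 2] (E → ZMod 2) where
  toFun π := cob S h t π
  map_add' π ρ := by
    funext e
    by_cases he : e ∈ S
    · rw [Pi.add_apply, cob_mem he, cob_mem he, cob_mem he, Pi.add_apply, Pi.add_apply]; ring
    · rw [Pi.add_apply, cob_notMem he, cob_notMem he, cob_notMem he, add_zero]
  map_smul' c π := by
    funext e
    by_cases he : e ∈ S
    · rw [Pi.smul_apply, cob_mem he, cob_mem he, Pi.smul_apply, Pi.smul_apply]
      simp only [smul_eq_mul, RingHom.id_apply]; ring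
    · rw [Pi.smul_apply, cob_notMem he, cob_notMem he, smul_zero]

theorem cobL_apply (S : Finset E) (h t : E → V) (π : V → ZMod 2) :
    cobL S h t π = cob S h t π := rfl

theorem cob_add (S : Finset E) (h t : E → V) (π ρ : V → ZMod 2) :
    cob S h t (π + ρ) = cob S h t π + cob S h t ρ := (cobL S h t).map_add π ρ

theorem cob_zero (S : Finset E) (h t : E → V) : cob S h t 0 = 0 := (cobL S h t).map_zero

theorem cob_const (S : Finset E) (h t : E → V) (c : ZMod 2) : cob S h t (fun _ => c) = 0 := by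
  funext e
  by_cases he : e ∈ S
  · rw [cob_mem he]; exact z2_add_self c
  · exact cob_notMem he

/-- `cob` only depends on the values at the ends. -/
theorem cob_congr {S : Finset E} {h t : E → V} {π ρ : V → ZMod 2} {U : Finset V}
    (hU : ∀ e ∈ S, h e ∈ U ∧ t e ∈ U) (hπ : ∀ v ∈ U, π v = ρ v) :
    cob S h t π = cob S h t ρ := by
  funext e
  by_cases he : e ∈ S
  · rw [cob_mem he, cob_mem he, hπ _ (hU e he).1, hπ _ (hU e he).2]
  · rw [cob_notMem he, cob_notMem he]

theorem mask_mem {A : Finset E} {f : E → ZMod 2} {e : E} (he : e ∈ A) : mask A f e = f e :=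
  if_pos he

theorem mask_notMem {A : Finset E} {f : E → ZMod 2} {e : E} (he : e ∉ A) : mask A f e = 0 :=
  if_neg he

theorem mask_cob (X S : Finset E) (h t : E → V) (π : V → ZMod 2) (hX : X ⊆ S) :
    mask X (cob S h t π) = cob X h t π := by
  funext e
  by_cases he : e ∈ X
  · rw [mask_mem he, cob_mem he, cob_mem (hX he)]
  · rw [mask_notMem he, cob_notMem he]

/-- The indicator of a set of vertices. -/
def indV (A : Finset V) : V → ZMod 2 := fun v => if v ∈ A then 1 else 0

theorem indV_mem {A : Finset V} {v : V} (hv : v ∈ A) : indV A v = 1 := if_pos hv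

theorem indV_notMem {A : Finset V} {v : V} (hv : v ∉ A) : indV A v = 0 := if_neg hv

theorem ind_mem {A : Finset E} {e : E} (he : e ∈ A) : ind A e = 1 := if_pos he

theorem ind_notMem {A : Finset E} {e : E} (he : e ∉ A) : ind A e = 0 := if_neg he

/-- `v` is an end of `e`. -/
def Inc (h t : E → V) (v : V) (e : E) : Prop := h e = v ∨ t e = v

instance (h t : E → V) (v : V) (e : E) : Decidable (Inc h t v e) :=
  inferInstanceAs (Decidable (h e = v ∨ t e = v))

theorem mem_star {S : Finset E} {h t : E → V} {v : V} {e : E} :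
    e ∈ star S h t v ↔ e ∈ S ∧ Inc h t v e := by
  rw [star, mem_filter]; rfl

/-- `cob` of the indicator of `A` vanishes at edges without end in `A`. -/
theorem cob_indV_disj {S : Finset E} {h t : E → V} {A : Finset V} {e : E}
    (hA : ∀ v, Inc h t v e → v ∉ A) : cob S h t (indV A) e = 0 := by
  by_cases he : e ∈ S
  · rw [cob_mem he, indV_notMem (hA _ (Or.inl rfl)), indV_notMem (hA _ (Or.inr rfl)), add_zero]
  · exact cob_notMem he

/-- `cob` of the indicator of `A` vanishes at edges with both ends in `A`. -/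
theorem cob_indV_sub {S : Finset E} {h t : E → V} {A : Finset V} {e : E}
    (hA : ∀ v, Inc h t v e → v ∈ A) : cob S h t (indV A) e = 0 := by
  by_cases he : e ∈ S
  · rw [cob_mem he, indV_mem (hA _ (Or.inl rfl)), indV_mem (hA _ (Or.inr rfl))]
    exact z2_add_self 1
  · exact cob_notMem he

/-- `cob` of the indicator of `A` at an edge with one end in `A` and one outside. -/
theorem cob_indV_one {S : Finset E} {h t : E → V} {A : Finset V} {e : E} (he : e ∈ S) {v w : V}
    (hv : v ∈ A) (hw : w ∉ A) (hve : Inc h t v e) (hwe : Inc h t w e) :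
    cob S h t (indV A) e = 1 := by
  rw [cob_mem he]
  rcases hve with rfl | rfl <;> rcases hwe with rfl | rfl
  · exact absurd hv hw
  · rw [indV_mem hv, indV_notMem hw, add_zero]
  · rw [indV_mem hv, indV_notMem hw, zero_add]
  · exact absurd hv hw

/-- `cob` of the indicator of `B ∩ A` and of `B` agree at the edges with both ends in `A`. -/
theorem cob_indV_inter {S : Finset E} {h t : E → V} {A B : Finset V} {e : E}
    (hA : ∀ v, Inc h t v e → v ∈ A) :
    cob S h t (indV (B ∩ A)) e = cob S h t (indV B) e := by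
  by_cases he : e ∈ S
  · have h1 : ∀ v, Inc h t v e → indV (B ∩ A) v = indV B v := by
      intro v hv
      by_cases hB : v ∈ B
      · rw [indV_mem hB, indV_mem (mem_inter.2 ⟨hB, hA v hv⟩)]
      · rw [indV_notMem hB, indV_notMem fun h => hB (mem_inter.1 h).1]
    rw [cob_mem he, cob_mem he, h1 _ (Or.inl rfl), h1 _ (Or.inr rfl)]
  · rw [cob_notMem he, cob_notMem he]

/-! ### `IsGr` -/

variable {M : BM E} {U : Finset V} {h t : E → V}

/-- The rows of a graph are the coboundaries of subsets. -/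
theorem IsGr.mem_R (hG : IsGr M U h t) (π : V → ZMod 2) : cob M.S h t π ∈ M.R :=
  (hG.rows _).2 ⟨π, rfl⟩

theorem IsGr.inc_mem (hG : IsGr M U h t) {e : E} (he : e ∈ M.S) {v : V} (hv : Inc h t v e) :
    v ∈ U := by
  rcases hv with rfl | rfl
  · exact (hG.ends e he).1
  · exact (hG.ends e he).2.1

/-- The two ends of an edge. -/
theorem IsGr.two_ends (hG : IsGr M U h t) {e : E} (he : e ∈ M.S) {v : V} (hv : Inc h t v e) :
    ∃ w ∈ U, w ≠ v ∧ Inc h t w e ∧ ∀ u, Inc h t u e → u = v ∨ u = w := by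
  obtain ⟨h1, h2, h3⟩ := hG.ends e he
  rcases hv with rfl | rfl
  · refine ⟨t e, h2, h3.symm, Or.inr rfl, ?_⟩
    rintro u (rfl | rfl)
    · exact Or.inl rfl
    · exact Or.inr rfl
  · refine ⟨h e, h1, h3, Or.inl rfl, ?_⟩
    rintro u (rfl | rfl)
    · exact Or.inr rfl
    · exact Or.inl rfl

theorem inc_le {h t : E → V} {e : E} {a b c : V} (ha : Inc h t a e) (hb : Inc h t b e)
    (hc : Inc h t c e) (hab : a ≠ b) : c = a ∨ c = b := by
  rcases ha with rfl | rfl <;> rcases hb with rfl | rfl <;> rcases hc with rfl | rfl <;> tauto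

/-- Every row is the coboundary of a set of vertices. -/
theorem IsGr.exists_indV (hG : IsGr M U h t) {f : E → ZMod 2} (hf : f ∈ M.R) :
    ∃ A ⊆ U, f = cob M.S h t (indV A) := by
  obtain ⟨π, rfl⟩ := (hG.rows f).1 hf
  refine ⟨U.filter fun v => π v ≠ 0, filter_subset _ _, ?_⟩
  refine cob_congr (U := U) (fun e he => ⟨(hG.ends e he).1, (hG.ends e he).2.1⟩) fun v hv => ?_
  by_cases h0 : π v = 0
  · rw [h0, indV_notMem]
    rw [mem_filter]; exact fun h => h.2 h0
  · rw [z2_ne h0, indV_mem]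
    rw [mem_filter]; exact ⟨hv, h0⟩

/-- Complement. -/
theorem IsGr.cob_sdiff (hG : IsGr M U h t) (A : Finset V) :
    cob M.S h t (indV (U \ A)) = cob M.S h t (indV A) := by
  have h1 : cob M.S h t (indV (U \ A)) = cob M.S h t (indV A + fun _ => 1) := by
    refine cob_congr (U := U) (fun e he => ⟨(hG.ends e he).1, (hG.ends e he).2.1⟩)
      fun v hv => ?_
    rw [Pi.add_apply]
    by_cases hA : v ∈ A
    · rw [indV_mem hA, indV_notMem fun h => (mem_sdiff.1 h).2 hA, z2_add_self]
    · rw [indV_notMem hA, indV_mem (mem_sdiff.2 ⟨hv, hA⟩), zero_add]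
  rw [h1, cob_add, cob_const, add_zero]

/-- Every row is the coboundary of a set of vertices avoiding `w`. -/
theorem IsGr.exists_indV_notMem (hG : IsGr M U h t) (w : V) {f : E → ZMod 2} (hf : f ∈ M.R) :
    ∃ A ⊆ U, w ∉ A ∧ f = cob M.S h t (indV A) := by
  obtain ⟨A, hA, rfl⟩ := hG.exists_indV hf
  by_cases hw : w ∈ A
  · exact ⟨U \ A, sdiff_subset, fun h => (mem_sdiff.1 h).2 hw, (hG.cob_sdiff A).symm⟩
  · exact ⟨A, hA, hw, rfl⟩

/-- The star as a vector. -/
theorem IsGr.cob_singleton (hG : IsGr M U h t) (v : V) :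
    cob M.S h t (indV {v}) = ind (star M.S h t v) := by
  funext e
  by_cases he : e ∈ M.S
  · by_cases hv : Inc h t v e
    · rw [ind_mem (mem_star.2 ⟨he, hv⟩)]
      obtain ⟨w, -, hw, hwe, -⟩ := hG.two_ends he hv
      exact cob_indV_one he (mem_singleton_self v) (by simpa using hw) hv hwe
    · rw [ind_notMem fun h => hv (mem_star.1 h).2]
      exact cob_indV_disj fun u hu huv => hv (by rw [mem_singleton] at huv; exact huv ▸ hu)
  · rw [cob_notMem he, ind_notMem fun h => he (mem_star.1 h).1]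

theorem IsGr.star_mem0 (hG : IsGr M U h t) (v : V) : ind (star M.S h t v) ∈ M.R := by
  rw [← hG.cob_singleton]; exact hG.mem_R _

/-- Every vertex has an edge. -/
theorem IsGr.exists_inc (hG : IsGr M U h t) {v : V} (hv : v ∈ U) : ∃ e ∈ M.S, Inc h t v e :=
  hG.ne v hv

/-- The only relations between the stars. -/
theorem IsGr.indV_eq_zero (hG : IsGr M U h t) {A : Finset V} (hA : A ⊆ U)
    (h0 : cob M.S h t (indV A) = 0) : A = ∅ ∨ A = U := by
  by_contra hne
  push Not at hne
  obtain ⟨⟨v, hv⟩, h2⟩ := hne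
  obtain ⟨w, hw, hwA⟩ : ∃ w ∈ U, w ∉ A := by
    by_contra hn
    push Not at hn
    exact h2 (Subset.antisymm hA hn)
  have h3 := hG.conn _ h0 v (hA hv) w hw
  rw [indV_mem hv, indV_notMem hwA] at h3
  exact one_ne_zero h3

/-- Rows of the graph: `∃ e` with nonzero value has ends. -/
theorem BM.supp' (M : BM E) {f : E → ZMod 2} (hf : f ∈ M.R) {e : E} (he : f e ≠ 0) : e ∈ M.S := by
  by_contra h
  exact he (M.supp f hf e h)

/-! ### ranks -/

/-- Extension by `0`. -/
def extV (K : Finset V) : ({v // v ∈ K} → ZMod 2) →ₗ[ZMod 2] (V → ZMod 2) where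
  toFun c := fun v => if hv : v ∈ K then c ⟨v, hv⟩ else 0
  map_add' c d := by
    funext v
    simp only [Pi.add_apply]
    split_ifs <;> simp
  map_smul' c d := by
    funext v
    simp only [Pi.smul_apply, RingHom.id_apply]
    split_ifs <;> simp

theorem extV_mem {K : Finset V} (c : {v // v ∈ K} → ZMod 2) {v : V} (hv : v ∈ K) :
    extV K c v = c ⟨v, hv⟩ := dif_pos hv

theorem extV_notMem {K : Finset V} (c : {v // v ∈ K} → ZMod 2) {v : V} (hv : v ∉ K) :
    extV K c v = 0 := dif_neg hv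

theorem IsGr.map_mask (hG : IsGr M U h t) {X : Finset E} (hX : X ⊆ M.S) {K : Finset V}
    (hK : ∀ e ∈ X, h e ∈ K ∧ t e ∈ K) :
    M.R.map (mask X) = LinearMap.range (cobL X h t ∘ₗ extV K) := by
  ext f
  rw [Submodule.mem_map, LinearMap.mem_range]
  constructor
  · rintro ⟨g, hg, rfl⟩
    obtain ⟨π, rfl⟩ := (hG.rows g).1 hg
    refine ⟨fun v => π v.1, ?_⟩
    rw [mask_cob X M.S h t π hX, LinearMap.comp_apply, cobL_apply]
    exact cob_congr hK fun v hv => extV_mem _ hv
  · rintro ⟨c, rfl⟩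
    refine ⟨cob M.S h t (extV K c), hG.mem_R _, ?_⟩
    rw [mask_cob X M.S h t _ hX]
    rfl

/-- A set of edges with all ends in `K` has rank less than `|K|`. -/
theorem IsGr.r_lt (hG : IsGr M U h t) {X : Finset E} (hX : X ⊆ M.S) {K : Finset V}
    (hKn : K.Nonempty) (hK : ∀ e ∈ X, ∀ v, Inc h t v e → v ∈ K) : M.r X + 1 ≤ K.card := by
  have hK' : ∀ e ∈ X, h e ∈ K ∧ t e ∈ K := fun e he =>
    ⟨hK e he _ (Or.inl rfl), hK e he _ (Or.inr rfl)⟩
  unfold BM.r
  rw [hG.map_mask hX hK']
  have h1 := LinearMap.finrank_range_add_finrank_ker (cobL X h t ∘ₗ extV K)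
  have h2 : 1 ≤ finrank (ZMod 2) (LinearMap.ker (cobL X h t ∘ₗ extV K)) := by
    rw [Submodule.one_le_finrank_iff]
    intro h0
    have h3 : (fun _ => 1 : {v // v ∈ K} → ZMod 2) ∈
        LinearMap.ker (cobL X h t ∘ₗ extV K) := by
      rw [LinearMap.mem_ker, LinearMap.comp_apply, cobL_apply, ← cob_const X h t 1]
      exact cob_congr hK' fun v hv => extV_mem _ hv
    rw [h0, Submodule.mem_bot] at h3
    obtain ⟨v, hv⟩ := hKn
    exact one_ne_zero (congrFun h3 ⟨v, hv⟩)
  rw [finrank_fintype_fun_eq_card, Fintype.card_coe] at h1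
  omega

/-- The rank of a graph. -/
theorem IsGr.rank (hG : IsGr M U h t) (hU : U.Nonempty) : M.r M.S + 1 = U.card := by
  have hK' : ∀ e ∈ M.S, h e ∈ U ∧ t e ∈ U := fun e he =>
    ⟨(hG.ends e he).1, (hG.ends e he).2.1⟩
  unfold BM.r
  rw [hG.map_mask (Subset.refl _) hK']
  have h1 := LinearMap.finrank_range_add_finrank_ker (cobL M.S h t ∘ₗ extV U)
  have h2 : LinearMap.ker (cobL M.S h t ∘ₗ extV U) =
      Submodule.span (ZMod 2) {(fun _ => 1 : {v // v ∈ U} → ZMod 2)} := by
    apply le_antisymm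
    · intro c hc
      rw [LinearMap.mem_ker, LinearMap.comp_apply, cobL_apply] at hc
      have h3 := hG.conn _ hc
      obtain ⟨v0, hv0⟩ := hU
      rw [Submodule.mem_span_singleton]
      refine ⟨c ⟨v0, hv0⟩, ?_⟩
      funext v
      rw [Pi.smul_apply, smul_eq_mul, mul_one]
      have := h3 v0 hv0 v.1 v.2
      rwa [extV_mem _ hv0, extV_mem _ v.2] at this
    · rw [Submodule.span_le, Set.singleton_subset_iff, SetLike.mem_coe, LinearMap.mem_ker,
        LinearMap.comp_apply, cobL_apply, ← cob_const M.S h t 1]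
      exact cob_congr hK' fun v hv => extV_mem _ hv
  rw [h2, finrank_span_singleton] at h1
  · rw [finrank_fintype_fun_eq_card, Fintype.card_coe] at h1
    exact h1
  · intro h0
    obtain ⟨v, hv⟩ := hU
    exact one_ne_zero (congrFun h0 ⟨v, hv⟩)

/-- The edges meeting `Z`. -/
def meet (S : Finset E) (h t : E → V) (Z : Finset V) : Finset E :=
  S.filter fun e => h e ∈ Z ∨ t e ∈ Z

theorem mem_meet {S : Finset E} {h t : E → V} {Z : Finset V} {e : E} :
    e ∈ meet S h t Z ↔ e ∈ S ∧ ∃ z ∈ Z, Inc h t z e := by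
  rw [meet, mem_filter]
  constructor
  · rintro ⟨h1, h2 | h2⟩
    · exact ⟨h1, _, h2, Or.inl rfl⟩
    · exact ⟨h1, _, h2, Or.inr rfl⟩
  · rintro ⟨h1, z, hz, rfl | rfl⟩
    · exact ⟨h1, Or.inl hz⟩
    · exact ⟨h1, Or.inr hz⟩

theorem meet_subset (S : Finset E) (h t : E → V) (Z : Finset V) : meet S h t Z ⊆ S :=
  filter_subset _ _

/-- (SEP): a set `Z` of vertices attached to `T` only. -/
theorem IsGr.sep0 (hG : IsGr M U h t) {Z T : Finset V} (hTn : T.Nonempty)
    (hZ : Z.Nonempty) (hZU : Z ⊆ U) (hZc : ∃ v ∈ U, v ∉ Z)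
    (hT : ∀ e ∈ M.S, ∀ z ∈ Z, Inc h t z e → ∀ v, Inc h t v e → v ∈ Z ∪ T) :
    M.lam (meet M.S h t Z) + 1 ≤ T.card := by
  have h1 : M.r (meet M.S h t Z) + 1 ≤ (Z ∪ T).card := by
    refine hG.r_lt (meet_subset _ _ _ _) (hZ.mono subset_union_left) fun e he v hv => ?_
    obtain ⟨he', z, hz, hze⟩ := mem_meet.1 he
    exact hT e he' z hz hze v hv
  have h2 : M.r (M.S \ meet M.S h t Z) + 1 ≤ (U \ Z).card := by
    refine hG.r_lt sdiff_subset ?_ fun e he v hv => ?_
    · obtain ⟨v, hv, hvZ⟩ := hZc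
      exact ⟨v, mem_sdiff.2 ⟨hv, hvZ⟩⟩
    · rw [mem_sdiff] at he ⊢
      exact ⟨hG.inc_mem he.1 hv, fun hvZ => he.2 (mem_meet.2 ⟨he.1, v, hvZ, hv⟩)⟩
  have h3 := card_union_le Z T
  have h4 := card_sdiff_add_card_eq_card hZU
  have h5 := hG.rank (hZ.mono hZU)
  have h6 := card_pos.2 hTn
  unfold BM.lam
  omega

end SEY
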