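import Pool.Agent.Helper39.SEY.GrBasic

/-!
# Seymour, block FRAME: the frame of a 3-connected graphic matroid is unique (Whitney)
-/

set_option autoImplicit false
set_option linter.unusedSectionVars false

namespace SEY

open Finset Module

variable {E : Type} [Fintype E] [DecidableEq E] {V V' : Type} [DecidableEq V] [DecidableEq V']

variable {M : BM E} {U : Finset V} {h t : E → V}

/-- There is no cut vertex. -/
theorem IsGr.no_cut_one (hG : IsGr M U h t)
    (hc : ∀ A ⊆ M.S, M.lam A = 0 → A = ∅ ∨ A = M.S) {Z : Finset V} {w : V}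
    (hZ : Z.Nonempty) (hZU : Z ⊆ U)
    (hT : ∀ e ∈ M.S, ∀ z ∈ Z, Inc h t z e → ∀ v, Inc h t v e → v ∈ Z ∨ v = w) :
    ∀ v ∈ U, v ∈ Z ∨ v = w := by
  by_contra hne
  push Not at hne
  obtain ⟨v1, hv1U, hv1, hv1'⟩ := hne
  have h2 := hG.sep0 (T := {w}) (singleton_nonempty w) hZ hZU ⟨v1, hv1U, hv1⟩
    (by
      intro e he z hz hze v hv
      rw [mem_union, mem_singleton]
      exact hT e he z hz hze v hv)
  rw [card_singleton] at h2
  rcases hc _ (meet_subset M.S h t Z) (by omega) with h3 | h3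
  · obtain ⟨z, hz⟩ := hZ
    obtain ⟨e, he, hze⟩ := hG.exists_inc (hZU hz)
    have : e ∈ meet M.S h t Z := mem_meet.2 ⟨he, z, hz, hze⟩
    rw [h3] at this
    exact notMem_empty _ this
  · obtain ⟨e, he, hve⟩ := hG.exists_inc hv1U
    rw [← h3] at he
    obtain ⟨he', z, hz, hze⟩ := mem_meet.1 he
    rcases hT e he' z hz hze v1 hve with h | h
    · exact hv1 h
    · exact hv1' h

/-- There is no vertex cut of size two in a 3-connected matroid. -/
theorem IsGr.no_cut_two (hG : IsGr M U h t)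
    (hc : ∀ A ⊆ M.S, M.lam A ≤ 1 → A.card ≤ 1 ∨ (M.S \ A).card ≤ 1)
    (hst : ∀ v ∈ U, 2 ≤ (star M.S h t v).card) {Z : Finset V} {u w : V}
    (hZ : Z.Nonempty) (hZU : Z ⊆ U)
    (hT : ∀ e ∈ M.S, ∀ z ∈ Z, Inc h t z e → ∀ v, Inc h t v e → v ∈ Z ∨ v = u ∨ v = w) :
    ∀ v ∈ U, v ∈ Z ∨ v = u ∨ v = w := by
  by_contra hne
  push Not at hne
  obtain ⟨v1, hv1U, hv1, hv1'⟩ := hne
  have h2 := hG.sep0 (T := {u, w}) (insert_nonempty _ _) hZ hZU ⟨v1, hv1U, hv1⟩
    (by
      intro e he z hz hze v hv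
      rw [mem_union, mem_insert, mem_singleton]
      exact hT e he z hz hze v hv)
  have h2' : ({u, w} : Finset V).card ≤ 2 := card_le_two
  rcases hc _ (meet_subset M.S h t Z) (by omega) with h3 | h3
  · obtain ⟨z, hz⟩ := hZ
    have h4 := hst z (hZU hz)
    have h5 : star M.S h t z ⊆ meet M.S h t Z := fun e he => by
      rw [mem_star] at he
      exact mem_meet.2 ⟨he.1, z, hz, he.2⟩
    have := card_le_card h5
    omega
  · have h4 := hst v1 hv1U
    have h5 : star M.S h t v1 ⊆ M.S \ meet M.S h t Z := fun e he => by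
      rw [mem_star] at he
      rw [mem_sdiff]
      refine ⟨he.1, fun he2 => ?_⟩
      obtain ⟨-, z, hz, hze⟩ := mem_meet.1 he2
      rcases hT e he.1 z hz hze v1 he.2 with h | h | h
      · exact hv1 h
      · exact hv1'.1 h
      · exact hv1'.2 h
    have := card_le_card h5
    omega

/-- Stars are minimal nonzero rows. -/
theorem IsGr.cocircuit (hG : IsGr M U h t)
    (hc : ∀ A ⊆ M.S, M.lam A = 0 → A = ∅ ∨ A = M.S) {w : V} (hw : w ∈ U)
    {f : E → ZMod 2} (hf : f ∈ M.R) (hsub : ∀ e, f e ≠ 0 → Inc h t w e) :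
    f = 0 ∨ f = cob M.S h t (indV {w}) := by
  obtain ⟨B, hBU, hwB, rfl⟩ := hG.exists_indV_notMem w hf
  rcases B.eq_empty_or_nonempty with rfl | hB
  · left
    funext e
    exact cob_indV_disj fun v _ => notMem_empty v
  right
  have h1 := hG.no_cut_one (w := w) hc hB hBU (by
    intro e he z hz hze v hve
    by_cases hv : v ∈ B
    · exact Or.inl hv
    right
    have h2 := hsub e (by rw [cob_indV_one he hz hv hze hve]; exact one_ne_zero)
    have hzv : z ≠ v := fun h => hv (h ▸ hz)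
    rcases inc_le hze hve h2 hzv with h3 | h3
    · exact absurd (h3 ▸ hz) hwB
    · exact h3.symm)
  have h2 : U \ B = {w} := by
    ext v
    rw [mem_sdiff, mem_singleton]
    constructor
    · rintro ⟨hv, hvB⟩
      exact (h1 v hv).resolve_left hvB
    · rintro rfl
      exact ⟨hw, hwB⟩
  rw [← hG.cob_sdiff, h2]

/-- Uniqueness of the frame of a 3-connected matroid, general form. -/
theorem IsGr.uniq_aux {U' : Finset V'} {h' t' : E → V'} (hG : IsGr M U h t)
    (hG' : IsGr M U' h' t')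
    (hc1 : ∀ A ⊆ M.S, M.lam A = 0 → A = ∅ ∨ A = M.S)
    (hc : ∀ A ⊆ M.S, M.lam A ≤ 1 → A.card ≤ 1 ∨ (M.S \ A).card ≤ 1)
    (hst : ∀ v ∈ U', 2 ≤ (star M.S h' t' v).card) {w : V'} (hw : w ∈ U') :
    ∃ v ∈ U, cob M.S h' t' (indV {w}) = cob M.S h t (indV {v}) := by
  by_contra hno
  push Not at hno
  obtain ⟨A, hAU, hA⟩ := hG.exists_indV (hG'.mem_R (indV {w}))
  have hw0 : cob M.S h' t' (indV {w}) ≠ 0 := by
    intro h0
    obtain ⟨e, he, hwe⟩ := hG'.exists_inc hw
    have := congrFun h0 e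
    rw [hG'.cob_singleton, ind_mem (mem_star.2 ⟨he, hwe⟩)] at this
    exact one_ne_zero this
  have hA0 : A.Nonempty := by
    rw [nonempty_iff_ne_empty]
    rintro rfl
    refine hw0 (hA.trans ?_)
    funext e
    exact cob_indV_disj fun v _ => notMem_empty v
  have hA1 : (U \ A).Nonempty := by
    rw [nonempty_iff_ne_empty]
    intro h1
    refine hw0 (hA.trans ?_)
    rw [← hG.cob_sdiff, h1]
    funext e
    exact cob_indV_disj fun v _ => notMem_empty v
  -- edges outside the star of `w`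
  have hw1 : ∀ e ∈ M.S, cob M.S h' t' (indV {w}) e = 0 → ¬ Inc h' t' w e := by
    intro e he h0 hwe
    rw [hG'.cob_singleton, ind_mem (mem_star.2 ⟨he, hwe⟩)] at h0
    exact one_ne_zero h0
  have hw2 : ∀ e, ¬ Inc h' t' w e → cob M.S h' t' (indV {w}) e = 0 := by
    intro e h0
    exact cob_indV_disj fun v hv hvw => h0 (by rw [mem_singleton] at hvw; exact hvw ▸ hv)
  have hends : ∀ e ∈ M.S, ¬ Inc h' t' w e → ∀ v1 v2, Inc h t v1 e → Inc h t v2 e → v1 ∈ A →
      v2 ∈ A := by
    intro e he h0 v1 v2 h1 h2 h3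
    by_contra h4
    have := cob_indV_one he h3 h4 h1 h2
    rw [← hA, hw2 e h0] at this
    exact zero_ne_one this
  set X : Finset E := M.S.filter fun e => ¬ Inc h' t' w e ∧ h e ∈ A with hX
  set Y : Finset E := M.S.filter fun e => ¬ Inc h' t' w e ∧ h e ∉ A with hY
  have mX : ∀ e, e ∈ X ↔ e ∈ M.S ∧ ¬ Inc h' t' w e ∧ h e ∈ A := by
    intro e; rw [hX, mem_filter]
  have mY : ∀ e, e ∈ Y ↔ e ∈ M.S ∧ ¬ Inc h' t' w e ∧ h e ∉ A := by
    intro e; rw [hY, mem_filter]
  have hXA : ∀ e ∈ X, ∀ v, Inc h t v e → v ∈ A := by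
    intro e he v hv
    obtain ⟨h1, h2, h3⟩ := (mX e).1 he
    exact hends e h1 h2 _ v (Or.inl rfl) hv h3
  have hYA : ∀ e ∈ Y, ∀ v, Inc h t v e → v ∉ A := by
    intro e he v hv hvA
    obtain ⟨h1, h2, h3⟩ := (mY e).1 he
    exact h3 (hends e h1 h2 v _ hv (Or.inl rfl) hvA)
  have hXY : ∀ e ∈ M.S, ¬ Inc h' t' w e → e ∈ X ∨ e ∈ Y := by
    intro e he h1
    by_cases hvA : h e ∈ A
    · exact Or.inl ((mX e).2 ⟨he, h1, hvA⟩)
    · exact Or.inr ((mY e).2 ⟨he, h1, hvA⟩)
  have hstar : ∀ v ∈ U, ∃ e ∈ M.S, Inc h t v e ∧ ¬ Inc h' t' w e := by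
    intro v hv
    by_contra hne
    push Not at hne
    rcases hG'.cocircuit hc1 hw (hG.mem_R (indV {v})) (fun e he => by
      rw [hG.cob_singleton] at he
      have h1 : e ∈ star M.S h t v := by
        by_contra h1
        exact he (ind_notMem h1)
      rw [mem_star] at h1
      exact hne e h1.1 h1.2) with h1 | h1
    · obtain ⟨e, he, hve⟩ := hG.exists_inc hv
      have := congrFun h1 e
      rw [hG.cob_singleton, ind_mem (mem_star.2 ⟨he, hve⟩)] at this
      exact one_ne_zero this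
    · exact hno v hv h1.symm
  have hXn : ∃ e, e ∈ X := by
    obtain ⟨v, hv⟩ := hA0
    obtain ⟨e, he, he1, he2⟩ := hstar v (hAU hv)
    refine ⟨e, (mX e).2 ⟨he, he2, hends e he he2 v _ he1 (Or.inl rfl) hv⟩⟩
  have hYn : ∃ e, e ∈ Y := by
    obtain ⟨v, hv⟩ := hA1
    rw [mem_sdiff] at hv
    obtain ⟨e, he, he1, he2⟩ := hstar v hv.1
    refine ⟨e, (mY e).2 ⟨he, he2, fun h3 => hv.2 ?_⟩⟩
    exact hends e he he2 _ v (Or.inl rfl) he1 h3
  -- no vertex meets both `X` and `Y`
  have hmeet : ∀ u ∈ U', u ≠ w → ∀ x ∈ X, ∀ y ∈ Y, Inc h' t' u x → Inc h' t' u y → False := by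
    intro u huU huw x hx y hy hux huy
    obtain ⟨B, hBU, hB⟩ := hG.exists_indV (hG'.mem_R (indV {u}))
    obtain ⟨C, hCU, hwC, hC⟩ := hG'.exists_indV_notMem w (hG.mem_R (indV (B ∩ A)))
    have hCX : ∀ e ∈ X, cob M.S h' t' (indV C) e = cob M.S h' t' (indV {u}) e := by
      intro e he
      rw [← hC, hB]
      exact cob_indV_inter (hXA e he)
    have hCX' : ∀ e ∈ X, Inc h' t' u e → cob M.S h' t' (indV C) e = 1 := by
      intro e he hue
      rw [hCX e he, hG'.cob_singleton, ind_mem (mem_star.2 ⟨((mX e).1 he).1, hue⟩)]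
    have hCX'' : ∀ e ∈ X, cob M.S h' t' (indV C) e ≠ 0 → Inc h' t' u e := by
      intro e he h0
      by_contra hue
      rw [hCX e he, hG'.cob_singleton] at h0
      exact h0 (ind_notMem fun h => hue (mem_star.1 h).2)
    have hCY : ∀ e ∈ Y, cob M.S h' t' (indV C) e = 0 := by
      intro e he
      rw [← hC]
      exact cob_indV_disj fun v hv hvA => hYA e he v hv (mem_inter.1 hvA).2
    obtain ⟨hxS, hxw, -⟩ := (mX x).1 hx
    obtain ⟨hyS, hyw, -⟩ := (mY y).1 hy
    by_cases hu : u ∈ C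
    · -- `Z = C.erase u`
      have hZn : (C.erase u).Nonempty := by
        obtain ⟨v, hvU, hv1, hv2, -⟩ := hG'.two_ends hyS huy
        refine ⟨v, mem_erase.2 ⟨hv1, ?_⟩⟩
        by_contra hvC
        have := cob_indV_one hyS hu hvC huy hv2
        rw [hCY y hy] at this
        exact zero_ne_one this
      have h1 := hG'.no_cut_two (u := u) (w := w) hc hst hZn ((erase_subset _ _).trans hCU) (by
        intro e he z hz hze v hve
        rw [mem_erase] at hz
        by_contra hv
        push Not at hv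
        obtain ⟨hv1, hv2, hv3⟩ := hv
        have hvC : v ∉ C := fun hvC => hv1 (mem_erase.2 ⟨hv2, hvC⟩)
        have hzv : z ≠ v := fun hzv => hvC (hzv ▸ hz.2)
        have hew : ¬ Inc h' t' w e := by
          intro hne
          rcases inc_le hze hve hne hzv with h2 | h2
          · exact hwC (h2 ▸ hz.2)
          · exact hv3 h2.symm
        have h2 := cob_indV_one he hz.2 hvC hze hve
        rcases hXY e he hew with h3 | h3
        · rcases inc_le hze hve (hCX'' e h3 (by rw [h2]; exact one_ne_zero)) hzv with h4 | h4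
          · exact hz.1 h4.symm
          · exact hv2 h4.symm
        · rw [hCY e h3] at h2
          exact zero_ne_one h2)
      obtain ⟨v, hvU, hv1, hv2, hv3⟩ := hG'.two_ends hxS hux
      have hvC : v ∈ C := by
        rcases h1 v hvU with h2 | h2 | h2
        · exact mem_of_mem_erase h2
        · exact absurd h2 hv1
        · exact absurd (h2 ▸ hv2) hxw
      have h2 : cob M.S h' t' (indV C) x = 0 := cob_indV_sub fun v' hv' => by
        rcases hv3 v' hv' with rfl | rfl <;> assumption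
      rw [hCX' x hx hux] at h2
      exact one_ne_zero h2
    · -- `Z = C`
      have hZn : C.Nonempty := by
        rw [nonempty_iff_ne_empty]
        rintro rfl
        have h2 := hCX' x hx hux
        rw [cob_indV_disj fun v _ => notMem_empty v] at h2
        exact zero_ne_one h2
      have h1 := hG'.no_cut_two (u := u) (w := w) hc hst hZn hCU (by
        intro e he z hz hze v hve
        by_contra hv
        push Not at hv
        obtain ⟨hvC, hv2, hv3⟩ := hv
        have hzv : z ≠ v := fun hzv => hvC (hzv ▸ hz)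
        have hew : ¬ Inc h' t' w e := by
          intro hne
          rcases inc_le hze hve hne hzv with h2 | h2
          · exact hwC (h2 ▸ hz)
          · exact hv3 h2.symm
        have h2 := cob_indV_one he hz hvC hze hve
        rcases hXY e he hew with h3 | h3
        · rcases inc_le hze hve (hCX'' e h3 (by rw [h2]; exact one_ne_zero)) hzv with h4 | h4
          · exact hu (h4 ▸ hz)
          · exact hv2 h4.symm
        · rw [hCY e h3] at h2
          exact zero_ne_one h2)
      obtain ⟨v, hvU, hv1, hv2, hv3⟩ := hG'.two_ends hyS huy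
      have hvC : v ∈ C := by
        rcases h1 v hvU with h2 | h2 | h2
        · exact h2
        · exact absurd h2 hv1
        · exact absurd (h2 ▸ hv2) hyw
      have h2 := cob_indV_one hyS hvC hu hv2 huy
      rw [hCY y hy] at h2
      exact zero_ne_one h2
  -- `w` is a cut vertex
  set P : Finset V' := U'.filter fun u => u ≠ w ∧ ∃ x ∈ X, Inc h' t' u x with hP
  have mP : ∀ u, u ∈ P ↔ u ∈ U' ∧ u ≠ w ∧ ∃ x ∈ X, Inc h' t' u x := by
    intro u; rw [hP, mem_filter]
  have hPn : P.Nonempty := by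
    obtain ⟨x, hx⟩ := hXn
    obtain ⟨hxS, hxw, -⟩ := (mX x).1 hx
    exact ⟨h' x, (mP _).2 ⟨(hG'.ends x hxS).1, fun h => hxw (Or.inl h), x, hx, Or.inl rfl⟩⟩
  have h1 := hG'.no_cut_one (w := w) hc1 hPn (filter_subset _ _) (by
    intro e he z hz hze v hve
    by_cases hvz : v = z
    · exact Or.inl (hvz ▸ hz)
    by_cases hvw : v = w
    · exact Or.inr hvw
    left
    obtain ⟨hzU, hzw, x, hx, hzx⟩ := (mP z).1 hz
    have hew : ¬ Inc h' t' w e := by
      intro hne
      rcases inc_le hze hve hne (Ne.symm hvz) with h2 | h2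
      · exact hzw h2.symm
      · exact hvw h2.symm
    rcases hXY e he hew with h3 | h3
    · exact (mP v).2 ⟨hG'.inc_mem he hve, hvw, e, h3, hve⟩
    · exact (hmeet z hzU hzw x hx e h3 hzx hze).elim)
  obtain ⟨y, hy⟩ := hYn
  obtain ⟨hyS, hyw, -⟩ := (mY y).1 hy
  have huw : h' y ≠ w := fun h => hyw (Or.inl h)
  have huU := (hG'.ends y hyS).1
  obtain ⟨-, -, x, hx, hux⟩ := (mP _).1 ((h1 _ huU).resolve_right huw)
  exact hmeet _ huU huw x hx y hy hux (Or.inl rfl)

end SEY
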